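import Pool.Agent.Lib.MP_63944b_al.Defs

set_option autoImplicit false

open Module

namespace T63

variable {k : Type} [Field k] {R : Type} [CommRing R] [Algebra k R] {G : GR k R}

lemma isBal_of_basis (A B : GM G) (φ : A.X →ₗ[k] B.X →ₗ[k] k)
    (h : ∀ i j l, φ (G.e (some i) • A.b j) (B.b l) = φ (A.b j) (G.e (some i) • B.b l)) :
    IsBal (R := R) φ := by
  -- first extend over `x`, `y`
  have h1 : ∀ i (x : A.X) (y : B.X), φ (G.e (some i) • x) y = φ x (G.e (some i) • y) := by
    intro i x y
    rw [← A.b.sum_repr x, ← B.b.sum_repr y]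
    simp only [Finset.smul_sum, map_sum, LinearMap.sum_apply]
    refine Finset.sum_congr rfl fun l _ => Finset.sum_congr rfl fun j _ => ?_
    rw [smul_comm (G.e (some i)) (A.b.repr x j), smul_comm (G.e (some i)) (B.b.repr y l)]
    simp only [map_smul, LinearMap.smul_apply, h i j l]
  intro r x y
  rw [← G.e.sum_repr r]
  simp only [Finset.sum_smul, map_sum, LinearMap.sum_apply]
  refine Finset.sum_congr rfl fun o _ => ?_
  rw [smul_assoc, smul_assoc]
  simp only [map_smul, LinearMap.smul_apply]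
  congr 1
  cases o with
  | none => rw [G.e_none, one_smul, one_smul]
  | some i => exact h1 i x y

lemma Dm_kb (A B : GM G) (α : A.X →ₗ[k] B.X →ₗ[k] k) (x : A.X) (i : G.ι) (j : B.κ) :
    Dm A B α x (kb B (i, j)) = α (G.e (some i) • x) (B.b j) - α x (G.e (some i) • B.b j) := by
  rw [Dm_apply]
  have h1 : ∀ l, α ((kb B (i, j)).1 l • x) (B.b l)
      = (if l = j then α (G.e (some i) • x) (B.b l) else 0)
        - (B.b.repr (G.e (some i) • B.b j) l) * α x (B.b l) := by
    intro l
    rw [kb_val, sub_smul, smul_assoc, one_smul]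
    split_ifs <;> simp
  rw [Finset.sum_congr rfl fun l _ => h1 l, Finset.sum_sub_distrib, Finset.sum_ite_eq']
  simp only [Finset.mem_univ, if_true]
  congr 1
  conv_rhs => rw [← B.b.sum_repr (G.e (some i) • B.b j)]
  simp only [map_sum, map_smul, smul_eq_mul]

lemma Dm_isBal (A B : GM G) (α : A.X →ₗ[k] B.X →ₗ[k] k) :
    IsBal (R := R) (X := A.X) (Y := (syz B).X) (Dm A B α) := by
  intro r x ζ
  rw [Dm_apply, Dm_apply]
  refine Finset.sum_congr rfl fun j _ => ?_
  have : (r • ζ : K B).1 j = r * ζ.1 j := rfl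
  rw [this, smul_smul, mul_comm]

lemma Dm_eq_zero_iff (A B : GM G) (α : A.X →ₗ[k] B.X →ₗ[k] k) :
    Dm A B α = 0 ↔ IsBal (R := R) α := by
  constructor
  · intro h
    refine isBal_of_basis A B α fun i j l => ?_
    have := Dm_kb A B α (A.b j) i l
    rw [h] at this
    simp only [LinearMap.zero_apply] at this
    exact (sub_eq_zero.mp this.symm)
  · intro h
    refine LinearMap.ext fun x => (kb B).ext fun p => ?_
    obtain ⟨i, j⟩ := p
    rw [Dm_kb, h]
    simp

lemma Dm_isHomo (A B : GM G) (n : ℕ) (α : A.X →ₗ[k] B.X →ₗ[k] k) (h : IsHomo A B n α) :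
    IsHomo A (syz B) n (Dm A B α) := by
  rintro j ⟨i, l⟩ hn
  simp only at hn
  rw [show (syz B).b (i, l) = kb B (i, l) from rfl, Dm_kb]
  have h1 : α (G.e (some i) • A.b j) (B.b l) = 0 := by
    rw [← A.b.sum_repr (G.e (some i) • A.b j)]
    simp only [map_sum, map_smul, LinearMap.sum_apply, LinearMap.smul_apply]
    refine Finset.sum_eq_zero fun m _ => ?_
    by_cases hm : A.b.repr (G.e (some i) • A.b j) m = 0
    · rw [hm]; simp
    · have := A.hom i j m hm
      rw [h m l (by omega)]; simp
  have h2 : α (A.b j) (G.e (some i) • B.b l) = 0 := by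
    rw [← B.b.sum_repr (G.e (some i) • B.b l)]
    simp only [map_sum, map_smul]
    refine Finset.sum_eq_zero fun m _ => ?_
    by_cases hm : B.b.repr (G.e (some i) • B.b l) m = 0
    · rw [hm]; simp
    · have := B.hom i l m hm
      rw [h j m (by omega)]; simp
  rw [h1, h2, sub_zero]

end T63
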