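import Pool.Agent.Lib.MP_63944b_al.A7

set_option autoImplicit false

open Module

namespace T63

variable {k : Type} [Field k] {R : Type} [CommRing R] [Algebra k R] {G : GR k R}

/-- the forms `α` of degree `n` on `syz A × A` with `Dm α` `ε`-symmetric -/
def QN (A : GM G) (n : ℕ) (ε : k) : Submodule k ((syz A).X →ₗ[k] A.X →ₗ[k] k) where
  carrier := {α | α ∈ BilN (syz A) A n ∧
    ∀ ζ ζ' : K A, Dm (syz A) A α ζ ζ' = ε * Dm (syz A) A α ζ' ζ}
  add_mem' := by
    rintro a b ⟨ha, ha'⟩ ⟨hb, hb'⟩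
    refine ⟨Submodule.add_mem _ ha hb, fun x y => ?_⟩
    rw [map_add, LinearMap.add_apply, LinearMap.add_apply, LinearMap.add_apply,
      LinearMap.add_apply, ha' x y, hb' x y]; ring
  zero_mem' := ⟨Submodule.zero_mem _, fun x y => by simp⟩
  smul_mem' := by
    rintro c a ⟨ha, ha'⟩
    refine ⟨Submodule.smul_mem _ _ ha, fun x y => ?_⟩
    rw [map_smul, LinearMap.smul_apply, LinearMap.smul_apply, LinearMap.smul_apply,
      LinearMap.smul_apply, ha' x y]
    simp only [smul_eq_mul]; ring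

private lemma A10_rn {V W : Type} [AddCommGroup V] [Module k V] [AddCommGroup W] [Module k W]
    [Module.Finite k V] (D : V →ₗ[k] W) (Q P : Submodule k V) (T : Submodule k W)
    (h1 : ∀ α ∈ Q, D α ∈ T) (h2 : ∀ γ ∈ T, ∃ α ∈ Q, D α = γ) (h3 : ∀ α, α ∈ P ↔ α ∈ Q ∧ D α = 0) :
    finrank k Q = finrank k P + finrank k T := by
  have e1 : LinearMap.range (D.domRestrict Q) = T := by
    ext γ
    rw [LinearMap.mem_range]
    constructor
    · rintro ⟨α, rfl⟩
      exact h1 α.1 α.2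
    · intro hγ
      obtain ⟨α, hα, h⟩ := h2 γ hγ
      exact ⟨⟨α, hα⟩, h⟩
  have e2 : Submodule.map Q.subtype (LinearMap.ker (D.domRestrict Q)) = P := by
    ext α
    rw [Submodule.mem_map, h3]
    constructor
    · rintro ⟨β, hβ, rfl⟩
      exact ⟨β.2, hβ⟩
    · rintro ⟨hα, h⟩
      exact ⟨⟨α, hα⟩, h, rfl⟩
  have e3 := LinearMap.finrank_range_add_finrank_ker (D.domRestrict Q)
  have e4 : finrank k (LinearMap.ker (D.domRestrict Q)) = finrank k P := by
    rw [← e2]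
    exact (Submodule.finrank_map_subtype_eq _ _).symm
  rw [e1, e4] at e3
  rw [← e3, add_comm]

/-- rank-nullity for `Dm` on `QN`: kernel `BalN (syz A) A n`, image `BalE (syz A) n ε` (`surj_homo`) -/
lemma finrank_QN (A : GM G) (n : ℕ) (ε : k)
    (hs2 : ∀ γ ∈ BalN (syz A) (syz A) n, ∃ α : (syz A).X →ₗ[k] A.X →ₗ[k] k,
      Dm (syz A) A α = γ) :
    finrank k (QN A n ε) = finrank k (BalN (syz A) A n) + finrank k (BalE (syz A) n ε) := by
  have h1 : Module.Finite k (syz A).X := Module.Finite.of_basis (syz A).b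
  have h2 : Module.Finite k A.X := Module.Finite.of_basis A.b
  refine A10_rn (V := (syz A).X →ₗ[k] A.X →ₗ[k] k) (W := (syz A).X →ₗ[k] (syz A).X →ₗ[k] k)
    (Dm (syz A) A) (QN A n ε) (BalN (syz A) A n) (BalE (syz A) n ε) ?_ ?_ ?_
  · intro α hα
    exact ⟨Dm_isHomo (syz A) A n α hα.1, Dm_isBal (syz A) A α, hα.2⟩
  · intro γ hγ
    obtain ⟨α, hα, hαγ⟩ := surj_homo (syz A) A n hs2 γ ⟨hγ.1, hγ.2.1⟩
    refine ⟨α, ⟨hα, ?_⟩, hαγ⟩
    intro x y
    rw [hαγ]
    exact hγ.2.2 x y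
  · intro α
    constructor
    · intro hα
      have h3 : Dm (syz A) A α = 0 := (Dm_eq_zero_iff (syz A) A α).2 hα.2
      refine ⟨⟨hα.1, ?_⟩, h3⟩
      intro x y
      rw [h3]
      simp
    · rintro ⟨hα, h3⟩
      exact ⟨hα.1, (Dm_eq_zero_iff (syz A) A α).1 h3⟩

end T63
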