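import Pool.Agent.Lib.MP_63944b_al.A7

set_option autoImplicit false

open Module

namespace T63

variable {k : Type} [Field k] {R : Type} [CommRing R] [Algebra k R] {G : GR k R}

/-- `r ⊗ x - 1 ⊗ (r x)` -/
private noncomputable def A9v (A : GM G) (r : R) (x : A.X) : A.κ → R :=
  fun l => (A.b.repr x l) • r - (A.b.repr (r • x) l) • (1 : R)

private lemma A9v_mem (A : GM G) (r : R) (x : A.X) : A9v A r x ∈ LinearMap.ker (mu A) := by
  rw [LinearMap.mem_ker, mu_apply]
  have h1 : ∀ j, A9v A r x j • A.b j = r • (A.b.repr x j • A.b j)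
      - A.b.repr (r • x) j • A.b j := by
    intro j
    rw [A9v, sub_smul, smul_assoc, smul_assoc, one_smul, smul_comm r]
  rw [Finset.sum_congr rfl fun j _ => h1 j, Finset.sum_sub_distrib, ← Finset.smul_sum,
    A.b.sum_repr, A.b.sum_repr, sub_self]

private noncomputable def A9p (A : GM G) : R →ₗ[k] A.X →ₗ[k] K A :=
  LinearMap.mk₂ k (fun (r : R) (x : A.X) => (⟨A9v A r x, A9v_mem A r x⟩ : K A))
    (fun r r' x => by
      refine Subtype.ext (funext fun l => ?_)
      simp only [A9v, add_smul, map_add, Finsupp.coe_add, Pi.add_apply, smul_add,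
        Submodule.coe_add]
      abel)
    (fun c r x => by
      refine Subtype.ext (funext fun l => ?_)
      simp only [A9v, smul_assoc, map_smul, Finsupp.coe_smul, Pi.smul_apply, smul_eq_mul,
        mul_smul, smul_sub, Submodule.coe_smul_of_tower]
      rw [smul_comm (A.b.repr x l) c r])
    (fun r x x' => by
      refine Subtype.ext (funext fun l => ?_)
      simp only [A9v, add_smul, map_add, Finsupp.coe_add, Pi.add_apply, smul_add,
        Submodule.coe_add]
      abel)
    (fun c r x => by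
      refine Subtype.ext (funext fun l => ?_)
      simp only [A9v, map_smul, Finsupp.coe_smul, Pi.smul_apply, smul_eq_mul,
        mul_smul, smul_sub, Submodule.coe_smul_of_tower]
      rw [smul_comm r c x]
      simp only [map_smul, Finsupp.coe_smul, Pi.smul_apply, smul_eq_mul, mul_smul])

private lemma A9p_apply (A : GM G) (r : R) (x : A.X) (l : A.κ) :
    (A9p A r x).1 l = (A.b.repr x l) • r - (A.b.repr (r • x) l) • (1 : R) := rfl

private lemma A9p_one (A : GM G) (x : A.X) : A9p A 1 x = 0 := by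
  refine Subtype.ext (funext fun l => ?_)
  rw [A9p_apply, one_smul, sub_self]
  rfl

private lemma A9p_kb (A : GM G) (i : G.ι) (j : A.κ) :
    A9p A (G.e (some i)) (A.b j) = kb A (i, j) := by
  refine Subtype.ext (funext fun l => ?_)
  rw [A9p_apply, kb_val, Basis.repr_self, Finsupp.single_apply]
  congr 1
  by_cases h : l = j
  · rw [if_pos h, if_pos h.symm, one_smul]
  · rw [if_neg h, if_neg (Ne.symm h), zero_smul]

private lemma A9p_sum (A : GM G) (ζ : K A) : ∑ j, A9p A (ζ.1 j) (A.b j) = ζ := by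
  refine Subtype.ext (funext fun l => ?_)
  have hz : ∑ j, ζ.1 j • A.b j = 0 := by
    rw [← mu_apply]; exact ζ.2
  have h1 : (∑ j, A9p A (ζ.1 j) (A.b j)).1 l = ∑ j, (A9p A (ζ.1 j) (A.b j)).1 l := by
    rw [Submodule.coe_sum, Finset.sum_apply]
  rw [h1]
  simp only [A9p_apply, Finset.sum_sub_distrib, ← Finset.sum_smul]
  have h2 : ∑ j, (A.b.repr (ζ.1 j • A.b j)) l = 0 := by
    have h3 := congrArg (fun x => A.b.repr x l) hz
    simp only [map_sum, map_zero, Finsupp.coe_zero, Pi.zero_apply] at h3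
    rw [Finsupp.finset_sum_apply] at h3
    exact h3
  rw [h2, zero_smul, sub_zero]
  simp [Basis.repr_self, Finsupp.single_apply]

private lemma A9p_mul (A : GM G) (s r : R) (x : A.X) :
    A9p A (s * r) x = r • A9p A s x + A9p A r (s • x) := by
  refine Subtype.ext (funext fun l => ?_)
  have h : (r • A9p A s x + A9p A r (s • x)).1 l
      = r * (A9p A s x).1 l + (A9p A r (s • x)).1 l := rfl
  rw [h, A9p_apply, A9p_apply, A9p_apply, mul_sub, mul_smul_comm, mul_smul_comm, mul_one,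
    smul_smul r s x, mul_comm r s]
  abel

private lemma A9_Dm_p (A B : GM G) (φ : A.X →ₗ[k] B.X →ₗ[k] k) (x : A.X) (r : R) (y : B.X) :
    Dm A B φ x (A9p B r y) = φ (r • x) y - φ x (r • y) := by
  rw [Dm_apply]
  have h1 : ∀ l, φ ((A9p B r y).1 l • x) (B.b l)
      = φ (r • x) (B.b.repr y l • B.b l) - φ x (B.b.repr (r • y) l • B.b l) := by
    intro l
    rw [A9p_apply, sub_smul, smul_assoc, smul_assoc, one_smul]
    simp only [map_sub, map_smul, LinearMap.sub_apply, LinearMap.smul_apply]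
  rw [Finset.sum_congr rfl fun l _ => h1 l, Finset.sum_sub_distrib, ← map_sum, ← map_sum,
    B.b.sum_repr, B.b.sum_repr]

/-- the form `γ` -/
private noncomputable def A9g (A : GM G) (ε : k) (α : (syz A).X →ₗ[k] A.X →ₗ[k] k) :
    A.X →ₗ[k] (syz A).X →ₗ[k] k :=
  LinearMap.mk₂ k (fun (x : A.X) (ζ : K A) =>
      ε * α ζ x - ∑ j, α (A9p A (ζ.1 j) x) (A.b j))
    (fun x x' ζ => by
      simp only [map_add, LinearMap.add_apply, Finset.sum_add_distrib]
      ring)
    (fun c x ζ => by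
      simp only [map_smul, LinearMap.smul_apply, smul_eq_mul, ← Finset.mul_sum]
      ring)
    (fun x (ζ ζ' : K A) => by
      have h : ∀ j, (ζ + ζ').1 j = ζ.1 j + ζ'.1 j := fun j => rfl
      simp only [h, map_add, LinearMap.add_apply, Finset.sum_add_distrib]
      ring)
    (fun c x (ζ : K A) => by
      have h : ∀ j, (c • ζ).1 j = c • ζ.1 j := fun j => rfl
      simp only [h, map_smul, LinearMap.smul_apply, smul_eq_mul, ← Finset.mul_sum]
      ring)

private lemma A9g_apply (A : GM G) (ε : k) (α : (syz A).X →ₗ[k] A.X →ₗ[k] k) (x : A.X)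
    (ζ : K A) : A9g A ε α x ζ = ε * α ζ x - ∑ j, α (A9p A (ζ.1 j) x) (A.b j) := rfl

private lemma A9g_p (A : GM G) (ε : k) (α : (syz A).X →ₗ[k] A.X →ₗ[k] k) (x : A.X)
    (r : R) (y : A.X) :
    A9g A ε α x (A9p A r y) = ε * α (A9p A r y) x - α (A9p A r x) y := by
  rw [A9g_apply]
  congr 1
  have h1 : ∀ l, α (A9p A ((A9p A r y).1 l) x) (A.b l)
      = α (A9p A r x) (A.b.repr y l • A.b l) := by
    intro l
    rw [A9p_apply]
    simp only [map_sub, map_smul, LinearMap.sub_apply, LinearMap.smul_apply, A9p_one, smul_zero,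
      sub_zero]
  rw [Finset.sum_congr rfl fun l _ => h1 l, ← map_sum, A.b.sum_repr]

private lemma A9g_isBal (A : GM G) (ε : k) (α : (syz A).X →ₗ[k] A.X →ₗ[k] k)
    (hsym : ∀ ζ ζ' : K A, Dm (syz A) A α ζ ζ' = ε * Dm (syz A) A α ζ' ζ) :
    IsBal (R := R) (X := A.X) (Y := (syz A).X) (A9g A ε α) := by
  intro s x ζ
  have hs := hsym (A9p A s x) ζ
  rw [A9_Dm_p (syz A) A α ζ s x] at hs
  rw [A9g_apply, A9g_apply]
  have h1 : ∀ j, α (A9p A ((s • ζ : K A).1 j) x) (A.b j)
      = α ((ζ : K A).1 j • A9p A s x) (A.b j) + α (A9p A ((ζ : K A).1 j) (s • x)) (A.b j) := by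
    intro j
    have h2 : (s • ζ : K A).1 j = s * (ζ : K A).1 j := rfl
    rw [h2, A9p_mul, map_add, LinearMap.add_apply]
  rw [Finset.sum_congr rfl fun j _ => h1 j, Finset.sum_add_distrib]
  rw [Dm_apply] at hs
  rw [hs]
  ring

private lemma A9g_isHomo (A : GM G) (n : ℕ) (ε : k) (α : (syz A).X →ₗ[k] A.X →ₗ[k] k)
    (hα : α ∈ BilN (syz A) A n) : IsHomo A (syz A) n (A9g A ε α) := by
  rintro m ⟨i, j⟩ hn
  simp only at hn
  rw [show (syz A).b (i, j) = kb A (i, j) from rfl, ← A9p_kb, A9g_p, A9p_kb, A9p_kb]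
  have h1 : α (kb A (i, j)) (A.b m) = 0 := hα (i, j) m (by
    show G.d i + A.deg j + A.deg m ≠ n
    omega)
  have h2 : α (kb A (i, m)) (A.b j) = 0 := hα (i, m) j (by
    show G.d i + A.deg m + A.deg j ≠ n
    omega)
  rw [h1, h2]
  ring

/-- the family `β` -/
private noncomputable def A9b (A : GM G) (α : (syz A).X →ₗ[k] A.X →ₗ[k] k)
    (φ : A.X →ₗ[k] A.X →ₗ[k] k) : R →ₗ[k] A.X →ₗ[k] A.X →ₗ[k] k :=
  LinearMap.mk₂ k (fun (r : R) (x : A.X) => α (A9p A r x) + φ (r • x))
    (fun r r' x => by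
      simp only [map_add, LinearMap.add_apply, add_smul]
      abel)
    (fun c r x => by
      simp only [map_smul, LinearMap.smul_apply, smul_assoc, smul_add])
    (fun r x x' => by
      simp only [map_add, smul_add]
      abel)
    (fun c r x => by
      rw [smul_comm r c x]
      simp only [map_smul, smul_add])

private lemma A9b_apply (A : GM G) (α : (syz A).X →ₗ[k] A.X →ₗ[k] k)
    (φ : A.X →ₗ[k] A.X →ₗ[k] k) (r : R) (x y : A.X) :
    A9b A α φ r x y = α (A9p A r x) y + φ (r • x) y := rfl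

private lemma A9_Th (A : GM G) (α : (syz A).X →ₗ[k] A.X →ₗ[k] k)
    (φ : A.X →ₗ[k] A.X →ₗ[k] k) : Th A (A9b A α φ) = α := by
  refine LinearMap.ext fun ζ => LinearMap.ext fun y => ?_
  rw [Th_apply]
  have hz : ∑ j, (ζ : K A).1 j • A.b j = 0 := by
    rw [← mu_apply]; exact (ζ : K A).2
  simp only [A9b_apply, Finset.sum_add_distrib]
  have h1 : ∑ j, α (A9p A ((ζ : K A).1 j) (A.b j)) y = α ζ y := by
    conv_rhs => rw [← A9p_sum A ζ]
    rw [map_sum, LinearMap.sum_apply]
  have h2 : ∑ j, φ ((ζ : K A).1 j • A.b j) y = 0 := by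
    have h3 : φ (∑ j, (ζ : K A).1 j • A.b j) y = 0 := by
      rw [hz]; simp
    rwa [map_sum, LinearMap.sum_apply] at h3
  rw [h1, h2, add_zero]

/-- `Th` maps `TN` onto the forms `α` with `Dm α` `ε`-symmetric.
Proof.  Given `α`, let `π : R → A.X → K A`, `π r x = r ⊗ x - 1 ⊗ (r x)`, i.e. the element with
coordinates `(π r x).1 l = (A.b.repr x l) • r - (A.b.repr (r • x) l) • 1`.  Define
`γ : A.X → K A → k`, `γ z ζ = ∑ ...` so that on the basis
`γ z (kb A (i,j)) = ε α(kb A (i,j)) z - α(π e_i z) b_j`; more invariantly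
`γ z ζ = ε α ζ z - ∑_j α(π ζ_j z) b_j` (note `π 1 z = 0`).  The form `γ` is balanced because `Dm α`
is `ε`-symmetric, and homogeneous of degree `n`; by `hs1` there is `b` with `Dm A A b = γ`.
One checks that `ε b^t` has the same property, so `b := (b + ε b^t)/2` also has `Dm A A b = γ` and
is `ε`-symmetric (replace it by its component of degree `n`); then
`β r x y = α(π r x) y + b (r x) y` is in `TN A n ε` and `Th A β = α`. -/
lemma Th_surj (h2 : (2 : k) ≠ 0) (A : GM G) (n : ℕ) (ε : k) (hε : ε * ε = 1)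
    (hs1 : ∀ γ ∈ BalN A (syz A) n, ∃ α : A.X →ₗ[k] A.X →ₗ[k] k, Dm A A α = γ)
    (α : (syz A).X →ₗ[k] A.X →ₗ[k] k) (hα : α ∈ BilN (syz A) A n)
    (hsym : ∀ ζ ζ' : K A, Dm (syz A) A α ζ ζ' = ε * Dm (syz A) A α ζ' ζ) :
    ∃ β ∈ TN A n ε, Th A β = α := by
  have hγ : A9g A ε α ∈ BalN A (syz A) n := ⟨A9g_isHomo A n ε α hα, A9g_isBal A ε α hsym⟩
  obtain ⟨c, hc, hcγ⟩ := surj_homo A A n hs1 (A9g A ε α) hγ
  have hc' : IsHomo A A n c := hc
  -- the key identity of `c`
  have hck : ∀ (r : R) (x y : A.X), c (r • x) y - c x (r • y)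
      = ε * α (A9p A r y) x - α (A9p A r x) y := by
    intro r x y
    rw [← A9_Dm_p A A c x r y, hcγ, A9g_p]
  let φ : A.X →ₗ[k] A.X →ₗ[k] k := (2 : k)⁻¹ • (c + ε • c.flip)
  have hφ : ∀ x y, φ x y = (2 : k)⁻¹ * (c x y + ε * c y x) := fun x y => rfl
  have hφs : ∀ x y, φ x y = ε * φ y x := by
    intro x y
    rw [hφ, hφ]
    linear_combination (-(2 : k)⁻¹ * c x y) * hε
  have h2' : (2 : k)⁻¹ * 2 = 1 := inv_mul_cancel₀ h2
  have hφk : ∀ (r : R) (x y : A.X), φ (r • x) y - φ x (r • y)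
      = ε * α (A9p A r y) x - α (A9p A r x) y := by
    intro r x y
    have e1 := hck r x y
    have e2 := hck r y x
    rw [hφ, hφ]
    linear_combination (2 : k)⁻¹ * e1 - (2 : k)⁻¹ * ε * e2
      + (ε * α (A9p A r y) x - α (A9p A r x) y) * h2'
      - (2 : k)⁻¹ * α (A9p A r x) y * hε
  have hφh : IsHomo A A n φ := by
    intro j l hn
    rw [hφ, hc' j l hn, hc' l j (by omega)]
    ring
  refine ⟨A9b A α φ, ⟨fun o j l hn => ?_, fun r x y => ?_⟩, A9_Th A α φ⟩
  · rw [A9b_apply]
    cases o with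
    | none =>
      have h0 : G.dd none = 0 := rfl
      rw [G.e_none, A9p_one, one_smul, hφh j l (by rw [h0] at hn; omega)]
      simp
    | some i =>
      have h0 : G.dd (some i) = G.d i := rfl
      rw [h0] at hn
      have h3 : α (kb A (i, j)) (A.b l) = 0 := hα (i, j) l (by
        show G.d i + A.deg j + A.deg l ≠ n
        omega)
      rw [A9p_kb, h3, form_smul_left, zero_add]
      refine Finset.sum_eq_zero fun m _ => ?_
      by_cases hm : A.b.repr (G.e (some i) • A.b j) m = 0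
      · rw [hm, zero_mul]
      · have h1 := A.hom i j m hm
        rw [hφh m l (by omega), mul_zero]
  · rw [A9b_apply, A9b_apply, hφs (r • y) x]
    have e1 := hφk r x y
    linear_combination e1 - φ x (r • y) * hε

end T63
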