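import Pool.Agent.Lib.MP_63944b_al.A8
import Pool.Agent.Lib.MP_63944b_al.A9
import Pool.Agent.Lib.MP_63944b_al.A10

set_option autoImplicit false

open Module

namespace T63

variable {k : Type} [Field k] {R : Type} [CommRing R] [Algebra k R] {G : GR k R}

private lemma rn11 {V W : Type} [AddCommMonoid V] [Module k V] [AddCommMonoid W] [Module k W]
    (P : Submodule k V) (hV : Module.Finite k V) (f : V →ₗ[k] W) (Q : Submodule k W)
    (hQ : ∀ w, w ∈ Q ↔ ∃ v ∈ P, f v = w) :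
    finrank k P = finrank k (LinearMap.ker f ⊓ P : Submodule k V) + finrank k Q := by
  let iV : AddCommGroup V := Module.addCommMonoidToAddCommGroup k
  let iW : AddCommGroup W := Module.addCommMonoidToAddCommGroup k
  have hrange : LinearMap.range (f.domRestrict P) = Q := by
    ext w
    rw [hQ]
    constructor
    · rintro ⟨v, rfl⟩
      exact ⟨v.1, v.2, rfl⟩
    · rintro ⟨v, hv, rfl⟩
      exact ⟨⟨v, hv⟩, rfl⟩
  have hker : finrank k (LinearMap.ker (f.domRestrict P))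
      = finrank k ((LinearMap.ker f) ⊓ P : Submodule k V) := by
    rw [← Submodule.finrank_map_subtype_eq P (LinearMap.ker (f.domRestrict P)),
      LinearMap.ker_domRestrict, Submodule.map_comap_subtype, inf_comm]
  have h := LinearMap.finrank_range_add_finrank_ker (f.domRestrict P)
  rw [hrange, hker] at h
  rw [← h, add_comm]

/-- rank-nullity for `Th` on `TN`: kernel `BalE A n ε` (`finrank_ker_Th`), image `QN A n ε`
(`Th_mem`, `Dm_Th_symm`, `Th_surj`), then `finrank_QN` -/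
lemma finrank_TN_step (h2 : (2 : k) ≠ 0) (A : GM G) (n : ℕ) (ε : k) (hε : ε * ε = 1)
    (hs1 : ∀ γ ∈ BalN A (syz A) n, ∃ α : A.X →ₗ[k] A.X →ₗ[k] k, Dm A A α = γ)
    (hs2 : ∀ γ ∈ BalN (syz A) (syz A) n, ∃ α : (syz A).X →ₗ[k] A.X →ₗ[k] k,
      Dm (syz A) A α = γ) :
    finrank k (TN A n ε)
      = finrank k (BalE A n ε) + (finrank k (BalN (syz A) A n) + finrank k (BalE (syz A) n ε)) := by
  have h1 : Module.Finite k (A.X →ₗ[k] k) := Module.Finite.equiv (A.b.constr k)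
  have h3 : Module.Finite k (A.X →ₗ[k] A.X →ₗ[k] k) := Module.Finite.equiv (A.b.constr k)
  have hV : Module.Finite k (R →ₗ[k] A.X →ₗ[k] A.X →ₗ[k] k) :=
    Module.Finite.equiv (G.e.constr k)
  rw [← finrank_QN A n ε hs2, ← finrank_ker_Th A n ε hε]
  refine rn11 (TN A n ε) hV (Th A) (QN A n ε) fun α => ⟨?_, ?_⟩
  · rintro ⟨hα, hsym⟩
    obtain ⟨β, hβ, hβα⟩ := Th_surj h2 A n ε hε hs1 α hα hsym
    exact ⟨β, hβ, hβα⟩
  · rintro ⟨β, hβ, rfl⟩
    exact ⟨Th_mem A n ε β hβ, fun ζ ζ' => Dm_Th_symm A n ε β hβ ζ ζ'⟩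

end T63
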