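import Pool.Agent.Lib.MP_63944b_al.A2

set_option autoImplicit false

open Module

namespace T63

variable {k : Type} [Field k] {R : Type} [CommRing R] [Algebra k R] {G : GR k R}

/-- the family of forms with given values on the basis -/
private noncomputable def bldA12 (A : GM G) (g : Option G.ι → A.κ → A.κ → k) :
    R →ₗ[k] A.X →ₗ[k] A.X →ₗ[k] k :=
  G.e.constr k fun o => A.b.constr k fun j => A.b.constr k fun l => g o j l

private lemma bldA12_apply (A : GM G) (g : Option G.ι → A.κ → A.κ → k) (o : Option G.ι)
    (j l : A.κ) : bldA12 A g (G.e o) (A.b j) (A.b l) = g o j l := by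
  simp only [bldA12, Basis.constr_basis]

private lemma extA12 (A : GM G) (β γ : R →ₗ[k] A.X →ₗ[k] A.X →ₗ[k] k)
    (h : ∀ o j l, β (G.e o) (A.b j) (A.b l) = γ (G.e o) (A.b j) (A.b l)) : β = γ :=
  G.e.ext fun o => A.b.ext fun j => A.b.ext fun l => h o j l

private lemma symA12 (A : GM G) (ε : k) (β : R →ₗ[k] A.X →ₗ[k] A.X →ₗ[k] k)
    (h : ∀ o j l, β (G.e o) (A.b j) (A.b l) = ε * β (G.e o) (A.b l) (A.b j)) :
    ∀ r x y, β r x y = ε * β r y x := by
  intro r x y
  have h1 : ∀ o, β (G.e o) = ε • (β (G.e o)).flip := by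
    intro o
    refine form_ext A A _ _ fun j l => ?_
    rw [LinearMap.smul_apply, LinearMap.smul_apply, LinearMap.flip_apply, smul_eq_mul]
    exact h o j l
  have h2 : ∀ o, β (G.e o) x y = ε * β (G.e o) y x := by
    intro o
    conv_lhs => rw [h1 o]
    rw [LinearMap.smul_apply, LinearMap.smul_apply, LinearMap.flip_apply, smul_eq_mul]
  rw [← G.e.sum_repr r]
  simp only [map_sum, map_smul, LinearMap.sum_apply, LinearMap.smul_apply, smul_eq_mul,
    Finset.mul_sum]
  refine Finset.sum_congr rfl fun o _ => ?_
  rw [h2 o]; ring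

/-- restriction to a set of triples -/
private noncomputable def resA12 (A : GM G) (n : ℕ) (ε : k)
    (T : Finset (Option G.ι × A.κ × A.κ)) : TN A n ε →ₗ[k] (T → k) where
  toFun β := fun p => β.1 (G.e p.1.1) (A.b p.1.2.1) (A.b p.1.2.2)
  map_add' a b := by ext p; simp
  map_smul' c a := by ext p; simp

private lemma finrankA12 (A : GM G) (n : ℕ) (ε : k) (T : Finset (Option G.ι × A.κ × A.κ))
    (hinj : ∀ β ∈ TN A n ε, ∀ γ ∈ TN A n ε, (∀ o j l, (o, j, l) ∈ T →
      β (G.e o) (A.b j) (A.b l) = γ (G.e o) (A.b j) (A.b l)) → β = γ)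
    (hsurj : ∀ f : Option G.ι → A.κ → A.κ → k, ∃ β ∈ TN A n ε,
      ∀ o j l, (o, j, l) ∈ T → β (G.e o) (A.b j) (A.b l) = f o j l) :
    finrank k (TN A n ε) = T.card := by
  have hb : Function.Bijective (resA12 A n ε T) := by
    constructor
    · intro β γ hβ
      apply Subtype.ext
      refine hinj β.1 β.2 γ.1 γ.2 fun o j l h => ?_
      exact congrFun hβ ⟨(o, j, l), h⟩
    · intro f
      obtain ⟨β, hβ, h⟩ := hsurj fun o j l => if h : (o, j, l) ∈ T then f ⟨(o, j, l), h⟩ else 0
      refine ⟨⟨β, hβ⟩, ?_⟩
      ext p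
      obtain ⟨⟨o, j, l⟩, hp⟩ := p
      have := h o j l hp
      simp only [hp, dif_pos] at this
      exact this
  rw [(LinearEquiv.ofBijective _ hb).finrank_eq, Module.finrank_fintype_fun_eq_card,
    Fintype.card_coe]

/-- counting: `TN A n ε` is the space of functions `f` on the finite set of triples `(o, j, l)` with
`dd o + (deg j + deg l) = n`, satisfying `f (o, j, l) = ε f (o, l, j)` (values of `β` on the
basis); the fixed points of the swap are the triples `(o, j, j)` -/
lemma finrank_TN_sub (h2 : (2 : k) ≠ 0) (A : GM G) (n : ℕ) :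
    (finrank k (TN A n (1 : k)) : ℤ) - finrank k (TN A n (-1 : k))
      = (Finset.univ.filter fun p : Option G.ι × A.κ => G.dd p.1 + (A.deg p.2 + A.deg p.2) = n).card := by
  classical
  let q : A.κ → Fin (Fintype.card A.κ) := Fintype.equivFin A.κ
  have hq : Function.Injective q := (Fintype.equivFin A.κ).injective
  let c : Option G.ι × A.κ × A.κ → Prop := fun p => G.dd p.1 + (A.deg p.2.1 + A.deg p.2.2) = n
  let T1 : Finset (Option G.ι × A.κ × A.κ) := Finset.univ.filter fun p => c p ∧ q p.2.1 ≤ q p.2.2
  let T2 : Finset (Option G.ι × A.κ × A.κ) := Finset.univ.filter fun p => c p ∧ q p.2.1 < q p.2.2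
  have e1 : finrank k (TN A n (1 : k)) = T1.card := by
    refine finrankA12 A n 1 T1 ?_ ?_
    · rintro β ⟨hβ, hs⟩ γ ⟨hγ, ht⟩ h0
      refine extA12 A _ _ fun o j l => ?_
      by_cases hc : G.dd o + (A.deg j + A.deg l) = n
      · rcases le_total (q j) (q l) with h | h
        · exact h0 o j l (by simp only [T1, c, Finset.mem_filter, Finset.mem_univ, true_and]; exact ⟨hc, h⟩)
        · rw [hs, ht (G.e o), h0 o l j (by
            simp only [T1, c, Finset.mem_filter, Finset.mem_univ, true_and]; exact ⟨by omega, h⟩)]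
      · rw [hβ o j l hc, hγ o j l hc]
    · intro f
      refine ⟨bldA12 A fun o j l => if G.dd o + (A.deg j + A.deg l) = n then
        (if q j ≤ q l then f o j l else f o l j) else 0, ⟨?_, ?_⟩, ?_⟩
      · intro o j l h
        rw [bldA12_apply, if_neg h]
      · refine symA12 A 1 _ fun o j l => ?_
        rw [bldA12_apply, bldA12_apply, one_mul, add_comm (A.deg l)]
        split_ifs with h1 h2 h3 h3
        · have : j = l := hq (le_antisymm h2 h3)
          rw [this]
        · rfl
        · rfl
        · exact absurd (le_total (q j) (q l)) (by tauto)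
        · rfl
      · intro o j l h
        simp only [T1, c, Finset.mem_filter, Finset.mem_univ, true_and] at h
        rw [bldA12_apply, if_pos h.1, if_pos h.2]
  have e2 : finrank k (TN A n (-1 : k)) = T2.card := by
    refine finrankA12 A n (-1) T2 ?_ ?_
    · rintro β ⟨hβ, hs⟩ γ ⟨hγ, ht⟩ h0
      refine extA12 A _ _ fun o j l => ?_
      by_cases hc : G.dd o + (A.deg j + A.deg l) = n
      · rcases lt_trichotomy (q j) (q l) with h | h | h
        · exact h0 o j l (by simp only [T2, c, Finset.mem_filter, Finset.mem_univ, true_and]; exact ⟨hc, h⟩)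
        · have hj : j = l := hq h
          subst hj
          have h3 := hs (G.e o) (A.b j) (A.b j)
          have h3' := ht (G.e o) (A.b j) (A.b j)
          have h4 : (2 : k) * β (G.e o) (A.b j) (A.b j) = 0 := by linear_combination h3
          have h4' : (2 : k) * γ (G.e o) (A.b j) (A.b j) = 0 := by linear_combination h3'
          rw [(mul_eq_zero.mp h4).resolve_left h2, (mul_eq_zero.mp h4').resolve_left h2]
        · rw [hs, ht (G.e o), h0 o l j (by
            simp only [T2, c, Finset.mem_filter, Finset.mem_univ, true_and]; exact ⟨by omega, h⟩)]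
      · rw [hβ o j l hc, hγ o j l hc]
    · intro f
      refine ⟨bldA12 A fun o j l => if G.dd o + (A.deg j + A.deg l) = n then
        (if q j < q l then f o j l else if q l < q j then - f o l j else 0) else 0, ⟨?_, ?_⟩, ?_⟩
      · intro o j l h
        rw [bldA12_apply, if_neg h]
      · refine symA12 A (-1) _ fun o j l => ?_
        rw [bldA12_apply, bldA12_apply, add_comm (A.deg l)]
        split_ifs with h1 h2 h3 h3
        · exact absurd h2 (not_lt.mpr h3.le)
        · ring
        · ring
        · ring
        · ring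
      · intro o j l h
        simp only [T2, c, Finset.mem_filter, Finset.mem_univ, true_and] at h
        rw [bldA12_apply, if_pos h.1, if_pos h.2]
  have e3 : T1.card = T2.card + (Finset.univ.filter fun p : Option G.ι × A.κ =>
      G.dd p.1 + (A.deg p.2 + A.deg p.2) = n).card := by
    have h1 : T1 = T2 ∪ (Finset.univ.filter fun p : Option G.ι × A.κ =>
        G.dd p.1 + (A.deg p.2 + A.deg p.2) = n).image (fun p => (p.1, p.2, p.2)) := by
      ext p
      obtain ⟨o, j, l⟩ := p
      simp only [T1, T2, c, Finset.mem_filter, Finset.mem_univ, true_and, Finset.mem_union,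
        Finset.mem_image, Prod.mk.injEq, Prod.exists]
      constructor
      · rintro ⟨h, h'⟩
        rcases h'.lt_or_eq with h3 | h3
        · exact Or.inl ⟨h, h3⟩
        · have : j = l := hq h3
          subst this
          exact Or.inr ⟨o, j, h, rfl, rfl, rfl⟩
      · rintro (⟨h, h'⟩ | ⟨o', j', h, rfl, rfl, h'⟩)
        · exact ⟨h, h'.le⟩
        · subst h'
          exact ⟨h, le_refl _⟩
    rw [h1, Finset.card_union_of_disjoint, Finset.card_image_of_injective]
    · intro p p' h
      simp only [Prod.mk.injEq] at h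
      exact Prod.ext h.1 h.2.1
    · rw [Finset.disjoint_left]
      rintro ⟨o, j, l⟩ h h'
      simp only [T2, c, Finset.mem_filter, Finset.mem_univ, true_and, Finset.mem_image,
        Prod.mk.injEq, Prod.exists] at h h'
      obtain ⟨o', j', _, _, rfl, h4⟩ := h'
      rw [← h4] at h
      exact absurd h.2 (lt_irrefl _)
  rw [e1, e2, e3]
  push_cast
  ring

end T63
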