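import Pool.Agent.Lib.MP_63944b_al.A6
import Pool.Agent.Lib.MP_63944b_al.A11
import Pool.Agent.Lib.MP_63944b_al.A12

set_option autoImplicit false

open Module

namespace T63

variable {k : Type} [Field k] {R : Type} [CommRing R] [Algebra k R] {G : GR k R}

/-- the signature `s_n(A)` -/
noncomputable def sg (A : GM G) (n : ℕ) : ℤ :=
  (finrank k (BalE A n (1 : k)) : ℤ) - finrank k (BalE A n (-1 : k))

lemma sg_step (h2 : (2 : k) ≠ 0) (A : GM G) (n : ℕ)
    (hs1 : ∀ γ ∈ BalN A (syz A) n, ∃ α : A.X →ₗ[k] A.X →ₗ[k] k, Dm A A α = γ)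
    (hs2 : ∀ γ ∈ BalN (syz A) (syz A) n, ∃ α : (syz A).X →ₗ[k] A.X →ₗ[k] k,
      Dm (syz A) A α = γ) :
    sg A n + sg (syz A) n
      = (Finset.univ.filter fun p : Option G.ι × A.κ => G.dd p.1 + (A.deg p.2 + A.deg p.2) = n).card := by
  have h1 := finrank_TN_step h2 A n 1 (by ring) hs1 hs2
  have h3 := finrank_TN_step h2 A n (-1) (by ring) hs1 hs2
  rw [← finrank_TN_sub h2 A n, h1, h3]
  unfold sg
  push_cast
  ring

end T63
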