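import Pool.Agent.Lib.MP_63944b_al.A1

set_option autoImplicit false

open Module

namespace T63

variable {k : Type} [Field k] {R : Type} [CommRing R] [Algebra k R] {G : GR k R}

/-- the component of degree `n` of a bilinear form -/
noncomputable def cmp (A B : GM G) (n : ℕ) (φ : A.X →ₗ[k] B.X →ₗ[k] k) :
    A.X →ₗ[k] B.X →ₗ[k] k :=
  A.b.constr k fun j => B.b.constr k fun l =>
    if A.deg j + B.deg l = n then φ (A.b j) (B.b l) else 0

lemma cmp_apply (A B : GM G) (n : ℕ) (φ : A.X →ₗ[k] B.X →ₗ[k] k) (j : A.κ) (l : B.κ) :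
    cmp A B n φ (A.b j) (B.b l) = if A.deg j + B.deg l = n then φ (A.b j) (B.b l) else 0 := by
  simp only [cmp, Basis.constr_basis]

lemma cmp_isHomo (A B : GM G) (n : ℕ) (φ : A.X →ₗ[k] B.X →ₗ[k] k) :
    IsHomo A B n (cmp A B n φ) := by
  intro j l h
  rw [cmp_apply, if_neg h]

lemma form_ext (A B : GM G) (φ ψ : A.X →ₗ[k] B.X →ₗ[k] k)
    (h : ∀ j l, φ (A.b j) (B.b l) = ψ (A.b j) (B.b l)) : φ = ψ :=
  A.b.ext fun j => B.b.ext fun l => h j l

lemma cmp_of_isHomo (A B : GM G) (n : ℕ) (φ : A.X →ₗ[k] B.X →ₗ[k] k) (h : IsHomo A B n φ) :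
    cmp A B n φ = φ := by
  refine form_ext A B _ _ fun j l => ?_
  rw [cmp_apply]
  split_ifs with h1
  · rfl
  · exact (h j l h1).symm

lemma eq_zero_of_cmp (A B : GM G) (φ : A.X →ₗ[k] B.X →ₗ[k] k) (h : ∀ n, cmp A B n φ = 0) :
    φ = 0 := by
  refine form_ext A B _ _ fun j l => ?_
  have := cmp_apply A B (A.deg j + B.deg l) φ j l
  rw [h, if_pos rfl] at this
  rw [← this]

lemma form_smul_left (A B : GM G) (φ : A.X →ₗ[k] B.X →ₗ[k] k) (i : G.ι) (j : A.κ) (l : B.κ) :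
    φ (G.e (some i) • A.b j) (B.b l)
      = ∑ m, A.b.repr (G.e (some i) • A.b j) m * φ (A.b m) (B.b l) := by
  conv_lhs => rw [← A.b.sum_repr (G.e (some i) • A.b j)]
  simp only [map_sum, map_smul, LinearMap.sum_apply, LinearMap.smul_apply, smul_eq_mul]

lemma form_smul_right (A B : GM G) (φ : A.X →ₗ[k] B.X →ₗ[k] k) (i : G.ι) (j : A.κ) (l : B.κ) :
    φ (A.b j) (G.e (some i) • B.b l)
      = ∑ m, B.b.repr (G.e (some i) • B.b l) m * φ (A.b j) (B.b m) := by
  conv_lhs => rw [← B.b.sum_repr (G.e (some i) • B.b l)]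
  simp only [map_sum, map_smul, smul_eq_mul]

lemma cmp_smul_left (A B : GM G) (n : ℕ) (φ : A.X →ₗ[k] B.X →ₗ[k] k) (i : G.ι) (j : A.κ)
    (l : B.κ) : cmp A B n φ (G.e (some i) • A.b j) (B.b l)
      = if G.d i + A.deg j + B.deg l = n then φ (G.e (some i) • A.b j) (B.b l) else 0 := by
  rw [form_smul_left, form_smul_left]
  have h1 : ∀ m, A.b.repr (G.e (some i) • A.b j) m * cmp A B n φ (A.b m) (B.b l)
      = if G.d i + A.deg j + B.deg l = n then
          A.b.repr (G.e (some i) • A.b j) m * φ (A.b m) (B.b l) else 0 := by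
    intro m
    rw [cmp_apply]
    by_cases hm : A.b.repr (G.e (some i) • A.b j) m = 0
    · simp [hm]
    · rw [A.hom i j m hm, mul_ite, mul_zero]
  rw [Finset.sum_congr rfl fun m _ => h1 m]
  split_ifs <;> simp

lemma cmp_smul_right (A B : GM G) (n : ℕ) (φ : A.X →ₗ[k] B.X →ₗ[k] k) (i : G.ι) (j : A.κ)
    (l : B.κ) : cmp A B n φ (A.b j) (G.e (some i) • B.b l)
      = if G.d i + A.deg j + B.deg l = n then φ (A.b j) (G.e (some i) • B.b l) else 0 := by
  rw [form_smul_right, form_smul_right]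
  have h1 : ∀ m, B.b.repr (G.e (some i) • B.b l) m * cmp A B n φ (A.b j) (B.b m)
      = if G.d i + A.deg j + B.deg l = n then
          B.b.repr (G.e (some i) • B.b l) m * φ (A.b j) (B.b m) else 0 := by
    intro m
    rw [cmp_apply]
    by_cases hm : B.b.repr (G.e (some i) • B.b l) m = 0
    · simp [hm]
    · have := B.hom i l m hm
      rw [mul_ite, mul_zero]
      congr 1
      rw [this]
      exact propext ⟨fun h => by omega, fun h => by omega⟩
  rw [Finset.sum_congr rfl fun m _ => h1 m]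
  split_ifs <;> simp

lemma cmp_isBal (A B : GM G) (n : ℕ) (φ : A.X →ₗ[k] B.X →ₗ[k] k) (h : IsBal (R := R) φ) :
    IsBal (R := R) (cmp A B n φ) := by
  refine isBal_of_basis A B _ fun i j l => ?_
  rw [cmp_smul_left, cmp_smul_right, h]

lemma Dm_cmp (A B : GM G) (n : ℕ) (α : A.X →ₗ[k] B.X →ₗ[k] k) :
    Dm A B (cmp A B n α) = cmp A (syz B) n (Dm A B α) := by
  refine form_ext A (syz B) _ _ fun j p => ?_
  obtain ⟨i, l⟩ := p
  rw [cmp_apply]
  rw [show (syz B).b (i, l) = kb B (i, l) from rfl, Dm_kb, Dm_kb, cmp_smul_left, cmp_smul_right]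
  have h : (A.deg j + (syz B).deg (i, l) = n) = (G.d i + A.deg j + B.deg l = n) := by
    show (A.deg j + (G.d i + B.deg l) = n) = _
    exact propext ⟨fun h => by omega, fun h => by omega⟩
  simp only [h]
  split_ifs <;> simp

lemma cmp_symm (A : GM G) (n : ℕ) (φ : A.X →ₗ[k] A.X →ₗ[k] k) (ε : k)
    (h : ∀ x y, φ x y = ε * φ y x) (x y : A.X) :
    cmp A A n φ x y = ε * cmp A A n φ y x := by
  have h1 : cmp A A n φ = ε • (cmp A A n φ).flip := by
    refine form_ext A A _ _ fun j l => ?_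
    rw [LinearMap.smul_apply, LinearMap.smul_apply, LinearMap.flip_apply, cmp_apply, cmp_apply,
      smul_eq_mul, add_comm (A.deg l)]
    split_ifs
    · exact h _ _
    · simp
  conv_lhs => rw [h1]
  rw [LinearMap.smul_apply, LinearMap.smul_apply, LinearMap.flip_apply, smul_eq_mul]

lemma surj_homo (A B : GM G) (n : ℕ)
    (hs : ∀ γ ∈ BalN A (syz B) n, ∃ α : A.X →ₗ[k] B.X →ₗ[k] k, Dm A B α = γ) :
    ∀ γ ∈ BalN A (syz B) n, ∃ α ∈ BilN A B n, Dm A B α = γ := by
  intro γ hγ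
  obtain ⟨α, hα⟩ := hs γ hγ
  refine ⟨cmp A B n α, cmp_isHomo A B n α, ?_⟩
  rw [Dm_cmp, hα]
  exact cmp_of_isHomo A (syz B) n γ hγ.1

end T63
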