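import Pool.Agent.Lib.MP_63944b_al.A2

set_option autoImplicit false

open Module

namespace T63

variable {k : Type} [Field k] {R : Type} [CommRing R] [Algebra k R] {G : GR k R}

private noncomputable def a3M (A B : GM G) :
    (A.X →ₗ[k] B.X →ₗ[k] k) ≃ₗ[k] Matrix A.κ B.κ k := LinearMap.toMatrix₂ A.b B.b

private lemma a3M_apply (A B : GM G) (φ : A.X →ₗ[k] B.X →ₗ[k] k) (i : A.κ) (j : B.κ) :
    a3M A B φ i j = φ (A.b i) (B.b j) := LinearMap.toMatrix₂_apply _ _ _ _ _

/-- coordinates of a homogeneous form -/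
private noncomputable def a3equiv (A B : GM G) (n : ℕ) :
    BilN A B n ≃ₗ[k] ({p : A.κ × B.κ // A.deg p.1 + B.deg p.2 = n} → k) where
  toFun φ := fun p => φ.1 (A.b p.1.1) (B.b p.1.2)
  map_add' φ ψ := by ext p; simp
  map_smul' c φ := by ext p; simp
  invFun c := ⟨(a3M A B).symm (Matrix.of fun i j =>
      if h : A.deg i + B.deg j = n then c ⟨(i, j), h⟩ else 0), by
    intro i j hij
    rw [← a3M_apply, LinearEquiv.apply_symm_apply]
    simp [hij]⟩
  left_inv φ := by
    apply Subtype.ext
    apply (a3M A B).injective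
    simp only
    rw [LinearEquiv.apply_symm_apply]
    ext i j
    rw [a3M_apply]
    simp only [Matrix.of_apply]
    split_ifs with h
    · rfl
    · exact (φ.2 i j h).symm
  right_inv c := by
    ext ⟨⟨i, j⟩, h⟩
    simp only at h ⊢
    rw [← a3M_apply, LinearEquiv.apply_symm_apply]
    simp [h]

/-- dimension of the space of homogeneous bilinear forms -/
lemma finrank_BilN (A B : GM G) (n : ℕ) :
    finrank k (BilN A B n)
      = (Finset.univ.filter fun p : A.κ × B.κ => A.deg p.1 + B.deg p.2 = n).card := by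
  rw [LinearEquiv.finrank_eq (a3equiv A B n), Module.finrank_fintype_fun_eq_card,
    Fintype.card_subtype]

end T63
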