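import Pool.Agent.Lib.MP_63944b_al.A2

set_option autoImplicit false

open Module

namespace T63

variable {k : Type} [Field k] {R : Type} [CommRing R] [Algebra k R] {G : GR k R}

private lemma A4_aux {V W : Type} [AddCommGroup V] [Module k V] [AddCommGroup W] [Module k W]
    [Module.Finite k V] (D : V →ₗ[k] W) (P Q : Submodule k V) (T : Submodule k W)
    (h1 : ∀ x ∈ P, D x ∈ T) (h2 : ∀ y ∈ T, ∃ x ∈ P, D x = y)
    (h3 : ∀ x, x ∈ Q ↔ x ∈ P ∧ D x = 0) : finrank k P = finrank k Q + finrank k T := by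
  let f : P →ₗ[k] W := D.domRestrict P
  have hr : LinearMap.range f = T := by
    ext γ
    constructor
    · rintro ⟨α, rfl⟩
      exact h1 α.1 α.2
    · intro hγ
      obtain ⟨α, hα, h⟩ := h2 γ hγ
      exact ⟨⟨α, hα⟩, h⟩
  have hk : (LinearMap.ker f).map P.subtype = Q := by
    ext φ
    constructor
    · rintro ⟨α, hα, rfl⟩
      exact (h3 _).2 ⟨α.2, hα⟩
    · intro h
      exact ⟨⟨φ, ((h3 _).1 h).1⟩, ((h3 _).1 h).2, rfl⟩
  have e1 := LinearMap.finrank_range_add_finrank_ker f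
  have e2 : finrank k (LinearMap.ker f) = finrank k Q := by
    rw [← hk, Submodule.finrank_map_subtype_eq]
  rw [hr, e2] at e1
  omega

/-- rank-nullity for `Dm` on `BilN A B n`: the kernel of `Dm` is `BalN A B n` (`Dm_eq_zero_iff`), the
image is `BalN A (syz B) n` (`Dm_isHomo`, `Dm_isBal`, `surj_homo`) -/
lemma finrank_step (A B : GM G) (n : ℕ)
    (hs : ∀ γ ∈ BalN A (syz B) n, ∃ α : A.X →ₗ[k] B.X →ₗ[k] k, Dm A B α = γ) :
    finrank k (BilN A B n) = finrank k (BalN A B n) + finrank k (BalN A (syz B) n) := by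
  have hfA : Module.Finite k A.X := Module.Finite.of_basis A.b
  have hfB : Module.Finite k B.X := Module.Finite.of_basis B.b
  refine A4_aux (V := A.X →ₗ[k] B.X →ₗ[k] k) (W := A.X →ₗ[k] (syz B).X →ₗ[k] k)
    (Dm A B) (BilN A B n) (BalN A B n) (BalN A (syz B) n) ?_ ?_ ?_
  · intro α hα
    exact ⟨Dm_isHomo A B n α hα, Dm_isBal A B α⟩
  · exact surj_homo A B n hs
  · intro φ
    constructor
    · intro h
      exact ⟨h.1, (Dm_eq_zero_iff A B φ).2 h.2⟩
    · intro h
      exact ⟨h.1, (Dm_eq_zero_iff A B φ).1 h.2⟩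

end T63
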