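import Pool.Agent.Lib.MP_63944b_al.A2

set_option autoImplicit false

open Module

namespace T63

variable {k : Type} [Field k] {R : Type} [CommRing R] [Algebra k R] {G : GR k R}

/-- characteristic not 2: `φ = (φ + φ^t)/2 + (φ - φ^t)/2` -/
lemma finrank_BalN_split (h2 : (2 : k) ≠ 0) (A : GM G) (n : ℕ) :
    finrank k (BalN A A n) = finrank k (BalE A n 1) + finrank k (BalE A n (-1)) := by
  have : Module.Finite k A.X := Module.Finite.of_basis A.b
  have hfd : FiniteDimensional k (A.X →ₗ[k] A.X →ₗ[k] k) := inferInstance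
  have hflipH : ∀ φ : A.X →ₗ[k] A.X →ₗ[k] k, IsHomo A A n φ → IsHomo A A n φ.flip := by
    intro φ h j l hn
    rw [LinearMap.flip_apply]
    exact h l j (by omega)
  have hflipB : ∀ φ : A.X →ₗ[k] A.X →ₗ[k] k, IsBal (R := R) φ → IsBal (R := R) φ.flip := by
    intro φ h r x y
    rw [LinearMap.flip_apply, LinearMap.flip_apply]
    exact (h r y x).symm
  have hsup : BalE A n 1 ⊔ BalE A n (-1) = BalN A A n := by
    apply le_antisymm
    · refine sup_le ?_ ?_
      · rintro φ ⟨h1, h3, _⟩
        exact ⟨h1, h3⟩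
      · rintro φ ⟨h1, h3, _⟩
        exact ⟨h1, h3⟩
    · rintro φ hφ
      have hf : φ.flip ∈ BalN A A n := ⟨hflipH φ hφ.1, hflipB φ hφ.2⟩
      have hp : (2 : k)⁻¹ • (φ + φ.flip) ∈ BalE A n 1 := by
        have hm : (2 : k)⁻¹ • (φ + φ.flip) ∈ BalN A A n :=
          (BalN A A n).smul_mem _ ((BalN A A n).add_mem hφ hf)
        refine ⟨hm.1, hm.2, fun x y => ?_⟩
        simp only [LinearMap.smul_apply, LinearMap.add_apply, LinearMap.flip_apply, smul_eq_mul]
        ring
      have hq : (2 : k)⁻¹ • (φ + (-1 : k) • φ.flip) ∈ BalE A n (-1) := by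
        have hm : (2 : k)⁻¹ • (φ + (-1 : k) • φ.flip) ∈ BalN A A n :=
          (BalN A A n).smul_mem _ ((BalN A A n).add_mem hφ ((BalN A A n).smul_mem _ hf))
        refine ⟨hm.1, hm.2, fun x y => ?_⟩
        simp only [LinearMap.smul_apply, LinearMap.add_apply, LinearMap.flip_apply, smul_eq_mul]
        ring
      rw [Submodule.mem_sup]
      refine ⟨_, hp, _, hq, ?_⟩
      refine LinearMap.ext fun x => LinearMap.ext fun y => ?_
      simp only [LinearMap.smul_apply, LinearMap.add_apply,
        LinearMap.flip_apply, smul_eq_mul]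
      field_simp
      ring
  have hinf : BalE A n 1 ⊓ BalE A n (-1) = ⊥ := by
    rw [eq_bot_iff]
    rintro φ ⟨⟨_, _, h1⟩, ⟨_, _, h3⟩⟩
    rw [Submodule.mem_bot]
    refine LinearMap.ext fun x => LinearMap.ext fun y => ?_
    have e1 := h1 x y
    have e3 := h3 x y
    have : (2 : k) * φ x y = 0 := by linear_combination e1 + e3
    simpa [h2] using this
  have key := Submodule.finrank_sup_add_finrank_inf_eq (K := k)
    (V := A.X →ₗ[k] A.X →ₗ[k] k) (BalE A n 1) (BalE A n (-1))
  rw [hsup, hinf, finrank_bot, add_zero] at key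
  exact key

end T63
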