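import Pool.Agent.Lib.MP_63944b_al.A2

set_option autoImplicit false

open Module

namespace T63

variable {k : Type} [Field k] {R : Type} [CommRing R] [Algebra k R] {G : GR k R}

/-- if all degrees are large the forms vanish -/
lemma BalN_eq_bot (A B : GM G) (n a b : ℕ) (ha : ∀ j, a ≤ A.deg j) (hb : ∀ j, b ≤ B.deg j)
    (h : n < a + b) : BalN A B n = ⊥ := by
  rw [Submodule.eq_bot_iff]
  intro φ hφ
  refine form_ext A B _ _ fun j l => ?_
  have h1 : A.deg j + B.deg l ≠ n := by
    have := ha j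
    have := hb l
    omega
  rw [hφ.1 j l h1]
  rfl

lemma BalE_eq_bot (A : GM G) (n a : ℕ) (ε : k) (ha : ∀ j, a ≤ A.deg j)
    (h : n < a + a) : BalE A n ε = ⊥ := by
  rw [Submodule.eq_bot_iff]
  intro φ hφ
  refine form_ext A A _ _ fun j l => ?_
  have h1 : A.deg j + A.deg l ≠ n := by
    have := ha j
    have := ha l
    omega
  rw [hφ.1 j l h1]
  rfl

/-- if all degrees are small the forms vanish -/
lemma BalN_eq_bot' (A B : GM G) (n a b : ℕ) (ha : ∀ j, A.deg j ≤ a) (hb : ∀ j, B.deg j ≤ b)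
    (h : a + b < n) : BalN A B n = ⊥ := by
  rw [Submodule.eq_bot_iff]
  intro φ hφ
  refine form_ext A B _ _ fun j l => ?_
  have h1 : A.deg j + B.deg l ≠ n := by
    have := ha j
    have := hb l
    omega
  rw [hφ.1 j l h1]
  rfl

lemma syz_deg (A : GM G) (a : ℕ) (ha : ∀ j, a ≤ A.deg j) : ∀ p, a + 1 ≤ (syz A).deg p := by
  intro p
  have h1 := G.d_pos p.1
  have h2 := ha p.2
  show a + 1 ≤ G.d p.1 + A.deg p.2
  omega

end T63
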