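import Pool.Agent.Lib.MP_63944b_al.A2

set_option autoImplicit false

open Module

namespace T63

variable {k : Type} [Field k] {R : Type} [CommRing R] [Algebra k R] {G : GR k R}

private lemma Th_kb (A : GM G) (β : R →ₗ[k] A.X →ₗ[k] A.X →ₗ[k] k) (i : G.ι) (l : A.κ) (y : A.X) :
    Th A β (kb A (i, l)) y = β (G.e (some i)) (A.b l) y
      - ∑ m, A.b.repr (G.e (some i) • A.b l) m * β 1 (A.b m) y := by
  rw [Th_apply]
  have h1 : ∀ m, β ((kb A (i, l)).1 m) (A.b m) y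
      = (if m = l then β (G.e (some i)) (A.b m) y else 0)
        - A.b.repr (G.e (some i) • A.b l) m * β 1 (A.b m) y := by
    intro m
    rw [kb_val]
    split_ifs <;> simp
  rw [Finset.sum_congr rfl fun m _ => h1 m, Finset.sum_sub_distrib, Finset.sum_ite_eq']
  simp only [Finset.mem_univ, if_true]

lemma Th_mem (A : GM G) (n : ℕ) (ε : k) (β : R →ₗ[k] A.X →ₗ[k] A.X →ₗ[k] k)
    (hβ : β ∈ TN A n ε) : Th A β ∈ BilN (syz A) A n := by
  rintro ⟨i, l⟩ j hn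
  simp only at hn
  rw [show (syz A).b (i, l) = kb A (i, l) from rfl, Th_kb]
  have h1 : β (G.e (some i)) (A.b l) (A.b j) = 0 := by
    apply hβ.1
    simp only [GR.dd, Option.elim_some]
    omega
  rw [h1, zero_sub, neg_eq_zero]
  refine Finset.sum_eq_zero fun m _ => ?_
  by_cases hm : A.b.repr (G.e (some i) • A.b l) m = 0
  · rw [hm, zero_mul]
  · have h2 := A.hom i l m hm
    have h3 : β 1 (A.b m) (A.b j) = 0 := by
      rw [← G.e_none]
      apply hβ.1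
      simp only [GR.dd, Option.elim_none]
      omega
    rw [h3, mul_zero]

/-- `Dm (Th β) (ζ, ζ') = ∑_{j,l} β(ζ'_l ζ_j)(b_j, b_l)` is `ε`-symmetric -/
lemma Dm_Th_symm (A : GM G) (n : ℕ) (ε : k) (β : R →ₗ[k] A.X →ₗ[k] A.X →ₗ[k] k)
    (hβ : β ∈ TN A n ε) (ζ ζ' : K A) :
    Dm (syz A) A (Th A β) ζ ζ' = ε * Dm (syz A) A (Th A β) ζ' ζ := by
  have h : ∀ ζ ζ' : K A, Dm (syz A) A (Th A β) ζ ζ'
      = ∑ l, ∑ j, β (ζ'.1 l * ζ.1 j) (A.b j) (A.b l) := by
    intro ζ ζ'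
    rw [Dm_apply]
    refine Finset.sum_congr rfl fun l _ => ?_
    have h1 : (ζ'.1 l • ζ : K A) = (ζ'.1 l • ζ : K A) := rfl
    exact Th_apply A β (ζ'.1 l • ζ : K A) (A.b l)
  rw [h, h, Finset.mul_sum, Finset.sum_comm]
  refine Finset.sum_congr rfl fun j _ => ?_
  rw [Finset.mul_sum]
  refine Finset.sum_congr rfl fun l _ => ?_
  rw [mul_comm (ζ'.1 l) (ζ.1 j)]
  exact hβ.2 _ _ _

end T63
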