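import Pool.Agent.Lib.MP_63944b_al.A7

set_option autoImplicit false

open Module

namespace T63

variable {k : Type} [Field k] {R : Type} [CommRing R] [Algebra k R] {G : GR k R}

private lemma Th_kb (A : GM G) (β : R →ₗ[k] A.X →ₗ[k] A.X →ₗ[k] k) (i : G.ι) (j : A.κ)
    (y : A.X) : Th A β (kb A (i, j)) y
      = β (G.e (some i)) (A.b j) y - β 1 (G.e (some i) • A.b j) y := by
  rw [Th_apply]
  have h1 : ∀ l, β ((kb A (i, j)).1 l) (A.b l) y
      = (if l = j then β (G.e (some i)) (A.b l) y else 0)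
        - (A.b.repr (G.e (some i) • A.b j) l) * β 1 (A.b l) y := by
    intro l
    rw [kb_val]
    split_ifs <;> simp
  rw [Finset.sum_congr rfl fun l _ => h1 l, Finset.sum_sub_distrib, Finset.sum_ite_eq']
  simp only [Finset.mem_univ, if_true]
  congr 1
  conv_rhs => rw [← A.b.sum_repr (G.e (some i) • A.b j)]
  simp only [map_sum, map_smul, LinearMap.sum_apply, LinearMap.smul_apply, smul_eq_mul]

private lemma eq_of_Th_zero (A : GM G) (β : R →ₗ[k] A.X →ₗ[k] A.X →ₗ[k] k)
    (h : Th A β = 0) (r : R) (x y : A.X) : β r x y = β 1 (r • x) y := by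
  have h0 : ∀ (i : G.ι) (j : A.κ), β (G.e (some i)) (A.b j) y
      = β 1 (G.e (some i) • A.b j) y := by
    intro i j
    have h1 := Th_kb A β i j y
    rw [h] at h1
    simp only [LinearMap.zero_apply] at h1
    exact sub_eq_zero.mp h1.symm
  have h1 : ∀ (o : Option G.ι) (j : A.κ), β (G.e o) (A.b j) y
      = β 1 (G.e o • A.b j) y := by
    intro o j
    cases o with
    | none => rw [G.e_none, one_smul]
    | some i => exact h0 i j
  have h2 : ∀ (o : Option G.ι) (x : A.X), β (G.e o) x y = β 1 (G.e o • x) y := by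
    intro o x
    rw [← A.b.sum_repr x]
    simp only [Finset.smul_sum, map_sum, LinearMap.sum_apply]
    refine Finset.sum_congr rfl fun j _ => ?_
    rw [smul_comm (G.e o) (A.b.repr x j)]
    simp only [map_smul, LinearMap.smul_apply, h1 o j]
  rw [← G.e.sum_repr r]
  simp only [Finset.sum_smul, map_sum, LinearMap.sum_apply]
  refine Finset.sum_congr rfl fun o _ => ?_
  rw [smul_assoc]
  simp only [map_smul, LinearMap.smul_apply, h2 o x]

/-- the family attached to a balanced form -/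
private noncomputable def fam (A : GM G) (φ : A.X →ₗ[k] A.X →ₗ[k] k) :
    R →ₗ[k] A.X →ₗ[k] A.X →ₗ[k] k :=
  LinearMap.mk₂ k (fun (r : R) (x : A.X) => φ (r • x))
    (fun r r' x => by rw [add_smul, map_add])
    (fun c r x => by rw [smul_assoc, map_smul])
    (fun r x x' => by rw [smul_add, map_add])
    (fun c r x => by rw [smul_comm r c x, map_smul])

private lemma fam_apply (A : GM G) (φ : A.X →ₗ[k] A.X →ₗ[k] k) (r : R) (x : A.X) :
    fam A φ r x = φ (r • x) := rfl

private lemma Th_fam (A : GM G) (φ : A.X →ₗ[k] A.X →ₗ[k] k) : Th A (fam A φ) = 0 := by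
  refine LinearMap.ext fun ζ => LinearMap.ext fun y => ?_
  have hz : mu A (ζ : K A).1 = 0 := (ζ : K A).2
  rw [mu_apply] at hz
  rw [Th_apply]
  have h1 : ∀ j, fam A φ ((ζ : K A).1 j) (A.b j) y = φ ((ζ : K A).1 j • A.b j) y := by
    intro j
    rw [fam_apply]
  rw [Finset.sum_congr rfl fun j _ => h1 j]
  have h2 : φ (∑ j, (ζ : K A).1 j • A.b j) y = 0 := by
    rw [hz]; simp
  rw [map_sum, LinearMap.sum_apply] at h2
  rw [h2]
  simp

private lemma fam_mem (A : GM G) (n : ℕ) (ε : k) (φ : A.X →ₗ[k] A.X →ₗ[k] k)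
    (h : φ ∈ BalE A n ε) : fam A φ ∈ TN A n ε := by
  obtain ⟨hh, hb, hs⟩ := h
  refine ⟨fun o j l hn => ?_, fun r x y => ?_⟩
  · rw [fam_apply]
    cases o with
    | none =>
      rw [G.e_none, one_smul]
      apply hh
      simpa [GR.dd] using hn
    | some i =>
      rw [form_smul_left]
      refine Finset.sum_eq_zero fun m _ => ?_
      by_cases hm : A.b.repr (G.e (some i) • A.b j) m = 0
      · rw [hm, zero_mul]
      · have h1 := A.hom i j m hm
        have h2 : G.dd (some i) = G.d i := rfl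
        rw [h2] at hn
        rw [hh m l (by omega), mul_zero]
  · rw [fam_apply, fam_apply, hb r x y, hs x (r • y)]

/-- the kernel of `Th` on `TN` is `BalE` (via `β ↦ β 1`, inverse `φ ↦ (r,x,y) ↦ φ (r x) y`).
If `Th A β = 0` then, evaluating at `kb A (i, j)` (`kb_val`), `β (e_i) (b_j) y = β 1 (e_i b_j) y`,
so `β r x y = β 1 (r x) y` for all `r x y`, and `β 1` is balanced because `β r` is `ε`-symmetric. -/
lemma finrank_ker_Th (A : GM G) (n : ℕ) (ε : k) (hε : ε * ε = 1) :
    finrank k ((LinearMap.ker (Th A)) ⊓ TN A n ε : Submodule k _) = finrank k (BalE A n ε) := by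
  have hmem : ∀ β : R →ₗ[k] A.X →ₗ[k] A.X →ₗ[k] k,
      β ∈ ((LinearMap.ker (Th A)) ⊓ TN A n ε : Submodule k _) → β 1 ∈ BalE A n ε := by
    rintro β ⟨h1, h2, h3⟩
    have h1' : Th A β = 0 := h1
    have hk := eq_of_Th_zero A β h1'
    refine ⟨fun j l hn => ?_, fun r x y => ?_, fun x y => h3 1 x y⟩
    · have h4 := h2 none j l (by simpa [GR.dd] using hn)
      rwa [G.e_none] at h4
    · rw [← hk, h3 r x y, hk, h3 1 (r • y) x, ← mul_assoc, hε, one_mul]
  let F : ((LinearMap.ker (Th A)) ⊓ TN A n ε : Submodule k _) →ₗ[k] BalE A n ε :=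
    { toFun := fun β => ⟨β.1 1, hmem β.1 β.2⟩
      map_add' := fun β β' => Subtype.ext rfl
      map_smul' := fun c β => Subtype.ext rfl }
  refine LinearEquiv.finrank_eq (LinearEquiv.ofBijective F ⟨?_, ?_⟩)
  · intro β β' h
    have h1 : β.1 1 = β'.1 1 := congrArg Subtype.val h
    refine Subtype.ext (LinearMap.ext fun r => LinearMap.ext fun x => LinearMap.ext fun y => ?_)
    rw [eq_of_Th_zero A β.1 β.2.1, eq_of_Th_zero A β'.1 β'.2.1, h1]
  · intro φ
    refine ⟨⟨fam A φ.1, Th_fam A φ.1, fam_mem A n ε φ.1 φ.2⟩, Subtype.ext ?_⟩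
    show fam A φ.1 1 = φ.1
    refine LinearMap.ext fun x => ?_
    rw [fam_apply, one_smul]

end T63
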