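import Mathlib

set_option autoImplicit false

open Polynomial

namespace T63

private theorem reflect_expand_aux (c : ℕ) (H : ℤ[X]) :
    (expand ℤ 2 H).reflect (2 * c) = expand ℤ 2 (H.reflect c) := by
  ext n
  rw [coeff_reflect, coeff_expand (by norm_num), coeff_expand (by norm_num)]
  by_cases hn : n ≤ 2 * c
  · rw [revAt_le hn]
    by_cases h2 : 2 ∣ n
    · obtain ⟨k, rfl⟩ := h2
      rw [if_pos (by omega), if_pos (by omega), coeff_reflect, revAt_le (by omega)]
      congr 1
      omega
    · rw [if_neg (by omega), if_neg h2]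
  · rw [revAt_eq_self_of_lt (by omega)]
    by_cases h2 : 2 ∣ n
    · obtain ⟨k, rfl⟩ := h2
      rw [if_pos (by omega), if_pos (by omega), coeff_reflect, revAt_eq_self_of_lt (by omega)]
    · rw [if_neg (by omega), if_neg h2]

private theorem dvd_expand_aux (m : ℕ) (d : ℤ[X]) (h : X ^ m ∣ d) :
    X ^ (2 * m) ∣ expand ℤ 2 d := by
  obtain ⟨e, rfl⟩ := h
  refine ⟨expand ℤ 2 e, ?_⟩
  rw [map_mul, map_pow, expand_X, ← pow_mul]

/-- one half of the argument -/
private theorem half_aux (m : ℕ) (hm : 0 < m) (H H' W S : ℤ[X]) (h0 : H.coeff 0 = 1)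
    (hd : X ^ m ∣ H' - H)
    (e1 : W * H = H' ^ 2) (e2 : S * expand ℤ 2 H = expand ℤ 2 H' * H) :
    W.coeff m - S.coeff m = 2 * (H' - H).coeff m := by
  have hX : Prime (X : ℤ[X]) := prime_X
  have hH : ¬ (X : ℤ[X]) ∣ H := by
    rw [X_dvd_iff, h0]; exact one_ne_zero
  have hH2 : ¬ (X : ℤ[X]) ∣ expand ℤ 2 H := by
    rw [X_dvd_iff, coeff_expand (by norm_num)]
    simp [h0]
  have d1 : X ^ (2 * m) ∣ (W - H - 2 * (H' - H)) := by
    refine hX.pow_dvd_of_dvd_mul_right _ hH ?_
    have : (W - H - 2 * (H' - H)) * H = (H' - H) * (H' - H) := by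
      linear_combination e1
    rw [this, two_mul, pow_add]
    exact mul_dvd_mul hd hd
  have d2 : X ^ (2 * m) ∣ (S - H) := by
    refine hX.pow_dvd_of_dvd_mul_right _ hH2 ?_
    have : (S - H) * expand ℤ 2 H = expand ℤ 2 (H' - H) * H := by
      rw [map_sub]
      linear_combination e2
    rw [this]
    exact Dvd.dvd.mul_right (dvd_expand_aux m _ hd) _
  have c1 := X_pow_dvd_iff.1 d1 m (by omega)
  have c2 := X_pow_dvd_iff.1 d2 m (by omega)
  have e3 : ((2 : ℤ[X]) * (H' - H)).coeff m = 2 * (H' - H).coeff m := by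
    have : (2 : ℤ[X]) = C 2 := by simp
    rw [this, coeff_C_mul]
  rw [coeff_sub, coeff_sub, e3] at c1
  rw [coeff_sub] at c2
  linarith

/-- The numerical lemma.  Write `H' = H.reflect c` (reversed polynomial), `δ = H' - H`.
Leading coefficients of `W H = H'^2` give `H.coeff c = 1`, `W.natDegree = c`; hence `S.natDegree ≤ c`
and both identities hold in all degrees.  If `δ ≠ 0` let `m ≥ 1` be its lowest degree; then
`X^(2m) ∣ W - H - 2δ` (because `(W - H - 2δ) H = δ^2`) and `X^(2m) ∣ S - H`
(because `(S - H) H(t^2) = δ(t^2) H`), so `2 δ_m = W_m - S_m ≥ 0`.  Reversing the identities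
(`W* H' = H^2`, `S* H'(t^2) = H(t^2) H'`) gives in the same way `X^(2m) ∣ W* - H' + 2δ`,
`X^(2m) ∣ S* - H'`, so `- 2 δ_m = W_{c-m} - S_{c-m} ≥ 0`. Contradiction, so `δ = 0`, `W = H = S`. -/
theorem numeric (c : ℕ) (H W S : ℤ[X]) (h0 : H.coeff 0 = 1) (hc : H.natDegree = c)
    (hcpos : 0 < H.coeff c)
    (hWS : ∀ n, |S.coeff n| ≤ W.coeff n) (hW : W.natDegree ≤ 2 * c)
    (h1 : ∀ n ≤ 3 * c, (W * H).coeff n = ((H.reflect c) ^ 2).coeff n)
    (h2 : ∀ n ≤ 3 * c, (S * expand ℤ 2 H).coeff n = (expand ℤ 2 (H.reflect c) * H).coeff n) :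
    W = S := by
  set H' : ℤ[X] := H.reflect c with hH'
  have hH0 : H ≠ 0 := by
    intro h; rw [h] at h0; simp at h0
  -- degrees of `H'`
  have hH'c : H'.coeff c = 1 := by
    rw [hH', coeff_reflect, revAt_le le_rfl, Nat.sub_self, h0]
  have hH'deg : H'.natDegree ≤ c := by
    rw [natDegree_le_iff_coeff_eq_zero]
    intro n hn
    rw [hH', coeff_reflect, revAt_eq_self_of_lt hn]
    exact coeff_eq_zero_of_natDegree_lt (by omega)
  have hH'deg' : H'.natDegree = c := by
    refine le_antisymm hH'deg (le_natDegree_of_ne_zero ?_)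
    rw [hH'c]; exact one_ne_zero
  have hH'0 : H' ≠ 0 := by
    intro h; rw [h] at hH'c; simp at hH'c
  have hH'lead : H'.leadingCoeff = 1 := by
    rw [leadingCoeff, hH'deg', hH'c]
  -- identity 1 in all degrees
  have E1 : W * H = H' ^ 2 := by
    ext n
    by_cases hn : n ≤ 3 * c
    · exact h1 n hn
    · rw [coeff_eq_zero_of_natDegree_lt, coeff_eq_zero_of_natDegree_lt]
      · refine lt_of_le_of_lt natDegree_pow_le ?_
        rw [hH'deg']; omega
      · refine lt_of_le_of_lt natDegree_mul_le ?_
        omega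
  have hW0 : W ≠ 0 := by
    intro h
    rw [h, zero_mul] at E1
    exact hH'0 (pow_eq_zero_iff (two_ne_zero) |>.1 E1.symm)
  have hWdeg : W.natDegree = c := by
    have := congrArg natDegree E1
    rw [natDegree_mul hW0 hH0, natDegree_pow, hH'deg', hc] at this
    omega
  have hlead : W.coeff c * H.coeff c = 1 := by
    have := congrArg leadingCoeff E1
    rw [leadingCoeff_mul, leadingCoeff_pow, hH'lead, leadingCoeff, leadingCoeff, hWdeg, hc,
      one_pow] at this
    exact this
  have hHc : H.coeff c = 1 := by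
    have hu : IsUnit (H.coeff c) := IsUnit.of_mul_eq_one (W.coeff c) (by rw [mul_comm]; exact hlead)
    rcases Int.isUnit_iff.1 hu with h | h
    · exact h
    · omega
  have hSdeg : S.natDegree ≤ c := by
    rw [natDegree_le_iff_coeff_eq_zero]
    intro n hn
    have := hWS n
    rw [coeff_eq_zero_of_natDegree_lt (p := W) (by omega)] at this
    exact abs_nonpos_iff.1 this
  have E2 : S * expand ℤ 2 H = expand ℤ 2 H' * H := by
    ext n
    by_cases hn : n ≤ 3 * c
    · exact h2 n hn
    · rw [coeff_eq_zero_of_natDegree_lt, coeff_eq_zero_of_natDegree_lt]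
      · refine lt_of_le_of_lt natDegree_mul_le ?_
        rw [natDegree_expand, hH'deg', hc]; omega
      · refine lt_of_le_of_lt natDegree_mul_le ?_
        rw [natDegree_expand, hc]; omega
  -- reversed identities
  have hinv : H'.reflect c = H := by
    ext n
    rw [coeff_reflect, hH', coeff_reflect, revAt_invol]
  have E1' : W.reflect c * H' = H ^ 2 := by
    have := congrArg (reflect (c + c)) E1
    rw [reflect_mul W H hWdeg.le hc.le, pow_two, reflect_mul H' H' hH'deg hH'deg, hinv] at this
    rw [hH', this, pow_two]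
  have E2' : S.reflect c * expand ℤ 2 H' = expand ℤ 2 H * H' := by
    have := congrArg (reflect (c + 2 * c)) E2
    rw [reflect_mul S _ hSdeg (by rw [natDegree_expand, hc]; omega), reflect_expand_aux,
      show c + 2 * c = 2 * c + c by ring,
      reflect_mul _ H (by rw [natDegree_expand, hH'deg']; omega) hc.le, reflect_expand_aux,
      hinv] at this
    exact this
  have hH'coeff0 : H'.coeff 0 = 1 := by
    rw [hH', coeff_reflect, revAt_le (Nat.zero_le c), Nat.sub_zero, hHc]
  -- main claim
  have hδ : H' = H := by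
    by_contra hne
    have hδ0 : H' - H ≠ 0 := sub_ne_zero.2 hne
    set m := (H' - H).natTrailingDegree with hm
    have hmc : (H' - H).coeff m ≠ 0 := by
      have := trailingCoeff_nonzero_iff_nonzero.2 hδ0
      exact this
    have hdvd : X ^ m ∣ H' - H := by
      rw [X_pow_dvd_iff]
      intro d hd
      exact coeff_eq_zero_of_lt_natTrailingDegree hd
    have hmpos : 0 < m := by
      rcases Nat.eq_zero_or_pos m with h | h
      · exfalso; apply hmc; rw [h, coeff_sub, hH'coeff0, h0, sub_self]
      · exact h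
    have hmle : m ≤ c := by
      by_contra hlt
      apply hmc
      rw [coeff_sub, coeff_eq_zero_of_natDegree_lt (by omega),
        coeff_eq_zero_of_natDegree_lt (by omega), sub_self]
    have A := half_aux m hmpos H H' W S h0 hdvd E1 E2
    have hdvd' : X ^ m ∣ H - H' := by
      rw [← neg_sub]; exact (dvd_neg).2 hdvd
    have B := half_aux m hmpos H' H (W.reflect c) (S.reflect c) hH'coeff0 hdvd' E1' E2'
    rw [coeff_reflect, coeff_reflect, revAt_le hmle] at B
    have a1 := hWS m
    have a2 := hWS (c - m)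
    have a3 := le_abs_self (S.coeff m)
    have a4 := le_abs_self (S.coeff (c - m))
    have a5 : (H - H').coeff m = - (H' - H).coeff m := by
      rw [coeff_sub, coeff_sub]; ring
    rw [a5] at B
    apply hmc
    linarith
  have hWH : W = H := by
    have : W * H = H * H := by rw [E1, hδ, pow_two]
    exact mul_right_cancel₀ hH0 this
  have hSH : S = H := by
    have he : expand ℤ 2 H ≠ 0 := by
      rw [Ne, expand_eq_zero (by norm_num)]; exact hH0
    have : S * expand ℤ 2 H = H * expand ℤ 2 H := by rw [E2, hδ, mul_comm]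
    exact mul_right_cancel₀ he this
  rw [hWH, hSH]

end T63
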