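import Pool.Agent.Lib.MP_63944b_al.Defs

set_option autoImplicit false

open Module

namespace T63

variable {k : Type} [Field k] {R : Type} [CommRing R] [Algebra k R] {G : GR k R}

/-- Hilbert series of `R` -/
noncomputable def PR (G : GR k R) : PowerSeries ℤ :=
  PowerSeries.mk fun n => ((Finset.univ.filter fun o : Option G.ι => G.dd o = n).card : ℤ)

/-- Hilbert series of `R` at `t^2` -/
noncomputable def PR2 (G : GR k R) : PowerSeries ℤ :=
  PowerSeries.mk fun n => ((Finset.univ.filter fun o : Option G.ι => G.dd o + G.dd o = n).card : ℤ)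

/-- Hilbert series of `A` -/
noncomputable def P (A : GM G) : PowerSeries ℤ :=
  PowerSeries.mk fun n => ((Finset.univ.filter fun j : A.κ => A.deg j = n).card : ℤ)

/-- Hilbert series of `A` at `t^2` -/
noncomputable def P2 (A : GM G) : PowerSeries ℤ :=
  PowerSeries.mk fun n => ((Finset.univ.filter fun j : A.κ => A.deg j + A.deg j = n).card : ℤ)

/-- general counting lemma: product of two counting series -/
lemma mk_card_mul {α β : Type} [Fintype α] [Fintype β] (f : α → ℕ) (g : β → ℕ) :
    (PowerSeries.mk fun n => ((Finset.univ.filter fun a : α => f a = n).card : ℤ))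
      * (PowerSeries.mk fun n => ((Finset.univ.filter fun b : β => g b = n).card : ℤ))
      = PowerSeries.mk fun n =>
        ((Finset.univ.filter fun p : α × β => f p.1 + g p.2 = n).card : ℤ) := by
  ext n
  rw [PowerSeries.coeff_mul, PowerSeries.coeff_mk]
  simp only [PowerSeries.coeff_mk]
  rw [Finset.card_eq_sum_card_fiberwise (f := fun p : α × β => (f p.1, g p.2))
    (t := Finset.HasAntidiagonal.antidiagonal n)]
  · push_cast
    refine Finset.sum_congr rfl fun q hq => ?_
    rw [← Nat.cast_mul, ← Finset.card_product]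
    congr 2
    ext ⟨a, b⟩
    obtain ⟨q1, q2⟩ := q
    rw [Finset.HasAntidiagonal.mem_antidiagonal] at hq
    simp only [Finset.mem_product, Finset.mem_filter, Finset.mem_univ, true_and, Prod.mk.injEq]
    simp only at hq
    constructor
    · rintro ⟨h1, h2⟩
      exact ⟨by omega, h1, h2⟩
    · rintro ⟨_, h1, h2⟩
      exact ⟨h1, h2⟩
  · intro p hp
    simpa using hp

private lemma card_option (m : ℕ) {ι : Type} [Fintype ι] (d : ι → ℕ) :
    ((Finset.univ.filter fun o : Option ι => o.elim 0 d = m).card : ℤ)
      = (if m = 0 then 1 else 0) + ((Finset.univ.filter fun i : ι => d i = m).card : ℤ) := by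
  rw [Finset.card_filter, Finset.card_filter]
  push_cast
  rw [Fintype.sum_option]
  simp only [Option.elim_none, Option.elim_some, eq_comm]

private lemma PR_sub_one (G : GR k R) : PR G - 1
    = PowerSeries.mk fun n => ((Finset.univ.filter fun i : G.ι => G.d i = n).card : ℤ) := by
  rw [sub_eq_iff_eq_add]
  ext n
  rw [map_add, PowerSeries.coeff_one, PR, PowerSeries.coeff_mk, PowerSeries.coeff_mk, add_comm]
  exact card_option n G.d

private lemma PR2_sub_one (G : GR k R) : PR2 G - 1
    = PowerSeries.mk fun n => ((Finset.univ.filter fun i : G.ι => G.d i + G.d i = n).card : ℤ) := by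
  rw [sub_eq_iff_eq_add]
  ext n
  rw [map_add, PowerSeries.coeff_one, PR2, PowerSeries.coeff_mk, PowerSeries.coeff_mk, add_comm,
    ← card_option n fun i => G.d i + G.d i]
  congr 2
  ext o
  cases o <;> simp [GR.dd]

lemma P_syz (A : GM G) : P (syz A) = (PR G - 1) * P A := by
  rw [PR_sub_one, P, P, mk_card_mul]

lemma P2_syz (A : GM G) : P2 (syz A) = (PR2 G - 1) * P2 A := by
  rw [PR2_sub_one, P2, P2, mk_card_mul]
  ext n
  rw [PowerSeries.coeff_mk, PowerSeries.coeff_mk]
  congr 2
  ext p
  simp only [Finset.mem_filter, Finset.mem_univ, true_and]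
  constructor
  · intro h
    omega
  · intro h
    omega

end T63
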