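import Pool.Agent.Lib.MP_63944b_al.A3
import Pool.Agent.Lib.MP_63944b_al.A4
import Pool.Agent.Lib.MP_63944b_al.A6
import Pool.Agent.Lib.MP_63944b_al.B2

set_option autoImplicit false

open Module

namespace T63

variable {k : Type} [Field k] {R : Type} [CommRing R] [Algebra k R] {G : GR k R}

/-- surjectivity of `Dm A B` onto balanced forms in degrees `≤ N` -/
def SW (N : ℕ) (A B : GM G) : Prop :=
  ∀ n ≤ N, ∀ γ ∈ BalN A (syz B) n, ∃ α : A.X →ₗ[k] B.X →ₗ[k] k, Dm A B α = γ

/-- surjectivity for `(A, B), (A, syz B), ...` (`m` times) -/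
def SurjW (N : ℕ) (A : GM G) : ℕ → GM G → Prop
  | 0, _ => True
  | m + 1, B => SW N A B ∧ SurjW N A m (syz B)

/-- the series of dimensions of balanced forms -/
noncomputable def Wser (A B : GM G) : PowerSeries ℤ :=
  PowerSeries.mk fun n => (finrank k (BalN A B n) : ℤ)

/-- `W(A, B) H = P A * P B` in degrees `≤ N`.  Induction on `m` (for all `B`, `i`).
For `m = 0` both sides vanish in degrees `n ≤ N < i` (`BalN_eq_bot`). For `m + 1` use
`finrank_step`, `finrank_BilN`, `mk_card_mul`: in degrees `≤ N`, `Wser A B + Wser A (syz B) = P A * P B`; multiply by `PR G`, use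
the induction hypothesis for `syz B` (degrees `≥ i + 1`, `syz_deg`) and `P_syz`. -/
lemma claimW (N : ℕ) (A : GM G) (m : ℕ) : ∀ (B : GM G) (i : ℕ), (∀ j, i ≤ B.deg j) →
    SurjW N A m B → N < i + m → ∀ n ≤ N,
      PowerSeries.coeff n (Wser A B * PR G) = PowerSeries.coeff n (P A * P B) := by
  induction m with
  | zero =>
    intro B i hi _ hN n hn
    have hW : ∀ a ≤ n, PowerSeries.coeff a (Wser A B) = 0 := by
      intro a ha
      rw [Wser, PowerSeries.coeff_mk, BalN_eq_bot A B a 0 i (fun j => Nat.zero_le _) hi (by omega),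
        finrank_bot]
      simp
    have hP : ∀ a ≤ n, PowerSeries.coeff a (P B) = 0 := by
      intro a ha
      rw [P, PowerSeries.coeff_mk]
      have : (Finset.univ.filter fun j : B.κ => B.deg j = a) = ∅ := by
        rw [Finset.filter_eq_empty_iff]
        intro j _ hj
        have := hi j
        omega
      rw [this]
      simp
    rw [PowerSeries.coeff_mul, PowerSeries.coeff_mul]
    rw [Finset.sum_eq_zero, Finset.sum_eq_zero]
    · intro p hp
      have := Finset.HasAntidiagonal.mem_antidiagonal.mp hp
      rw [hP p.2 (by omega), mul_zero]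
    · intro p hp
      have := Finset.HasAntidiagonal.mem_antidiagonal.mp hp
      rw [hW p.1 (by omega), zero_mul]
  | succ m ih =>
    intro B i hi hS hN n hn
    obtain ⟨h1, h2⟩ := hS
    have hih := ih (syz B) (i + 1) (syz_deg B i hi) h2 (by omega) n hn
    have hstep : ∀ a ≤ N, PowerSeries.coeff a (P A * P B)
        = PowerSeries.coeff a (Wser A B + Wser A (syz B)) := by
      intro a ha
      rw [P, P, mk_card_mul, PowerSeries.coeff_mk, map_add, Wser, Wser, PowerSeries.coeff_mk,
        PowerSeries.coeff_mk, ← finrank_BilN, finrank_step A B a (h1 a ha)]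
      push_cast
      rfl
    have hmul : PowerSeries.coeff n ((P A * P B) * PR G)
        = PowerSeries.coeff n ((Wser A B + Wser A (syz B)) * PR G) := by
      rw [PowerSeries.coeff_mul, PowerSeries.coeff_mul]
      refine Finset.sum_congr rfl fun p hp => ?_
      have := Finset.HasAntidiagonal.mem_antidiagonal.mp hp
      rw [hstep p.1 (by omega)]
    rw [P_syz] at hih
    rw [add_mul, map_add, hih] at hmul
    have h3 : (P A * P B) * PR G = P A * P B + P A * ((PR G - 1) * P B) := by ring
    rw [h3, map_add] at hmul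
    exact (add_right_cancel hmul).symm

end T63
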