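import Pool.Agent.Lib.MP_63944b_al.A13
import Pool.Agent.Lib.MP_63944b_al.B3

set_option autoImplicit false

open Module

namespace T63

variable {k : Type} [Field k] {R : Type} [CommRing R] [Algebra k R] {G : GR k R}

/-- surjectivity for `(A, A), (syz A, A), (syz A, syz A), (syz syz A, syz A), ...` -/
def SurjS (N : ℕ) : ℕ → GM G → Prop
  | 0, _ => True
  | m + 1, A => SW N A A ∧ SW N (syz A) A ∧ SurjS N m (syz A)

/-- the series of signatures -/
noncomputable def Sser (A : GM G) : PowerSeries ℤ :=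
  PowerSeries.mk fun n => sg A n

private lemma coeff_mul_congr {f g h : PowerSeries ℤ} {N : ℕ}
    (hfg : ∀ n ≤ N, PowerSeries.coeff n f = PowerSeries.coeff n g) :
    ∀ n ≤ N, PowerSeries.coeff n (f * h) = PowerSeries.coeff n (g * h) := by
  intro n hn
  rw [PowerSeries.coeff_mul, PowerSeries.coeff_mul]
  refine Finset.sum_congr rfl fun p hp => ?_
  have h1 := Finset.HasAntidiagonal.mem_antidiagonal.mp hp
  rw [hfg p.1 (by omega)]

/-- `S(A) H(t^2) = H * P A (t^2)` in degrees `≤ N`.  Induction on `m` (for all `A`, `i`).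
For `m = 0` both sides vanish in degrees `n ≤ N < 2 i` (`BalE_eq_bot`). For `m + 1` use
`sg_step`, `mk_card_mul`: in degrees `≤ N`, `Sser A + Sser (syz A) = PR G * P2 A`; multiply by
`PR2 G`, use the induction hypothesis for `syz A` and `P2_syz`. -/
lemma claimS (h2 : (2 : k) ≠ 0) (N : ℕ) (m : ℕ) : ∀ (A : GM G) (i : ℕ), (∀ j, i ≤ A.deg j) →
    SurjS N m A → N < 2 * i + 2 * m → ∀ n ≤ N,
      PowerSeries.coeff n (Sser A * PR2 G) = PowerSeries.coeff n (PR G * P2 A) := by
  induction m with
  | zero =>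
    intro A i hi _ hN n hn
    have h1 : ∀ n ≤ N, PowerSeries.coeff n (Sser A) = PowerSeries.coeff n (0 : PowerSeries ℤ) := by
      intro n hn
      rw [Sser, PowerSeries.coeff_mk, sg, BalE_eq_bot A n i 1 hi (by omega), BalE_eq_bot A n i (-1) hi (by omega)]
      simp
    have h2 : ∀ n ≤ N, PowerSeries.coeff n (P2 A) = PowerSeries.coeff n (0 : PowerSeries ℤ) := by
      intro n hn
      rw [P2, PowerSeries.coeff_mk, map_zero, Nat.cast_eq_zero, Finset.card_eq_zero,
        Finset.filter_eq_empty_iff]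
      intro j _
      have := hi j
      omega
    rw [coeff_mul_congr h1 n hn, mul_comm (PR G), coeff_mul_congr h2 n hn, zero_mul, zero_mul]
  | succ m ih =>
    intro A i hi hs hN n hn
    obtain ⟨hs1, hs2, hs3⟩ := hs
    have h1 : ∀ n ≤ N, PowerSeries.coeff n (Sser A + Sser (syz A)) = PowerSeries.coeff n (PR G * P2 A) := by
      intro n hn
      rw [map_add, Sser, Sser, PowerSeries.coeff_mk, PowerSeries.coeff_mk,
        sg_step h2 A n (hs1 n hn) (hs2 n hn), PR, P2, mk_card_mul, PowerSeries.coeff_mk]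
    have h3 := coeff_mul_congr (h := PR2 G) h1 n hn
    have h4 := ih (syz A) (i + 1) (syz_deg A i hi) hs3 (by omega) n hn
    rw [P2_syz] at h4
    rw [add_mul, map_add, h4] at h3
    have h5 : PR G * P2 A * PR2 G = PR G * ((PR2 G - 1) * P2 A) + PR G * P2 A := by ring
    rw [h5, map_add] at h3
    linarith

end T63
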