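import Pool.Agent.Lib.MP_63944b_al.C1

set_option autoImplicit false
set_option linter.unusedSectionVars false
set_option linter.unusedVariables false
set_option linter.style.haveILetI false

open CategoryTheory Module

namespace T63

variable (k : Type) [Field k] (R : Type) [CommRing R] [Algebra k R]

/-- the `k`-dual of an `R`-module, an `R`-module by `(r f)(x) = f (r x)` -/
def DD (k : Type) [Field k] (R : Type) (X : Type) [AddCommGroup X] [Module k X] : Type := X →ₗ[k] k

section
variable (X : Type) [AddCommGroup X] [Module k X] [Module R X] [IsScalarTower k R X]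

instance : AddCommGroup (DD k R X) := inferInstanceAs (AddCommGroup (X →ₗ[k] k))
instance : Module k (DD k R X) := inferInstanceAs (Module k (X →ₗ[k] k))

variable {R} in
/-- multiplication by `r` as a `k`-linear map -/
def mulL (r : R) : X →ₗ[k] X where
  toFun x := r • x
  map_add' := by simp
  map_smul' c x := by rw [RingHom.id_apply, smul_comm]

noncomputable instance : Module R (DD k R X) where
  smul r f := LinearMap.comp (show X →ₗ[k] k from f) (mulL k X r)
  one_smul f := by
    refine LinearMap.ext fun x => ?_
    show (show X →ₗ[k] k from f) ((1 : R) • x) = _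
    rw [one_smul]
  mul_smul r s f := by
    refine LinearMap.ext fun x => ?_
    show (show X →ₗ[k] k from f) ((r * s) • x) = (show X →ₗ[k] k from f) (s • r • x)
    rw [mul_comm, mul_smul]
  smul_zero r := by
    refine LinearMap.ext fun x => ?_
    show (0 : X →ₗ[k] k) (r • x) = 0
    simp
  smul_add r f g := rfl
  add_smul r s f := by
    refine LinearMap.ext fun x => ?_
    show (show X →ₗ[k] k from f) ((r + s) • x) = (show X →ₗ[k] k from f) (r • x)
      + (show X →ₗ[k] k from f) (s • x)
    rw [add_smul, map_add]
  zero_smul f := by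
    refine LinearMap.ext fun x => ?_
    show (show X →ₗ[k] k from f) ((0 : R) • x) = 0
    rw [zero_smul, map_zero]

end

section
variable {k} {R} {X : Type} [AddCommGroup X] [Module k X] [Module R X] [IsScalarTower k R X]

/-- an element of `DD k R X` as a linear map -/
def DD.ev (f : DD k R X) : X →ₗ[k] k := f

/-- a linear map as an element of `DD k R X` -/
def DD.mk (f : X →ₗ[k] k) : DD k R X := f

@[ext] lemma DD.ext {f g : DD k R X} (h : ∀ x, f.ev x = g.ev x) : f = g := LinearMap.ext h

@[simp] lemma DD.ev_mk (f : X →ₗ[k] k) : (DD.mk f : DD k R X).ev = f := rfl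
@[simp] lemma DD.ev_smul (r : R) (f : DD k R X) (x : X) : (r • f).ev x = f.ev (r • x) := rfl
@[simp] lemma DD.ev_ksmul (c : k) (f : DD k R X) (x : X) : (c • f).ev x = c * f.ev x := rfl
@[simp] lemma DD.ev_add (f g : DD k R X) (x : X) : (f + g).ev x = f.ev x + g.ev x := rfl
@[simp] lemma DD.ev_sub (f g : DD k R X) (x : X) : (f - g).ev x = f.ev x - g.ev x := rfl
@[simp] lemma DD.ev_neg (f : DD k R X) (x : X) : (-f).ev x = - f.ev x := rfl
@[simp] lemma DD.ev_zero (x : X) : (0 : DD k R X).ev x = 0 := rfl
/-- `ev` as a linear map -/
def DD.evL : DD k R X →ₗ[k] (X →ₗ[k] k) where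
  toFun := DD.ev
  map_add' _ _ := rfl
  map_smul' _ _ := rfl

@[simp] lemma DD.ev_sum {ι : Type} (s : Finset ι) (f : ι → DD k R X) (x : X) :
    (∑ i ∈ s, f i).ev x = ∑ i ∈ s, (f i).ev x := by
  have : (∑ i ∈ s, f i).ev = ∑ i ∈ s, (f i).ev := map_sum (DD.evL (R := R)) f s
  rw [this, LinearMap.sum_apply]

instance : IsScalarTower k R (DD k R X) where
  smul_assoc c r f := by
    ext x
    show f.ev ((c • r) • x) = c * f.ev (r • x)
    rw [smul_assoc, map_smul, smul_eq_mul]

/-- the dual of an `R`-linear map -/
def DD.map {Y : Type} [AddCommGroup Y] [Module k Y] [Module R Y] [IsScalarTower k R Y]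
    (f : X →ₗ[R] Y) : DD k R Y →ₗ[R] DD k R X where
  toFun g := DD.mk (g.ev.comp (f.restrictScalars k))
  map_add' a b := rfl
  map_smul' r a := by
    ext x
    exact congrArg a.ev (f.map_smul r x).symm

lemma DD.map_ev {Y : Type} [AddCommGroup Y] [Module k Y] [Module R Y] [IsScalarTower k R Y]
    (f : X →ₗ[R] Y) (g : DD k R Y) (x : X) : (DD.map f g).ev x = g.ev (f x) := rfl

lemma DD.map_injective {Y : Type} [AddCommGroup Y] [Module k Y] [Module R Y]
    [IsScalarTower k R Y] (f : X →ₗ[R] Y) (hf : Function.Surjective f) :
    Function.Injective (DD.map (k := k) (R := R) f) := by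
  intro a b h
  ext y
  obtain ⟨x, rfl⟩ := hf y
  rw [← DD.map_ev f a, ← DD.map_ev f b, h]

lemma DD.map_surjective {Y : Type} [AddCommGroup Y] [Module k Y] [Module R Y]
    [IsScalarTower k R Y] (f : X →ₗ[R] Y) (hf : Function.Injective f) :
    Function.Surjective (DD.map (k := k) (R := R) f) := by
  intro a
  obtain ⟨g, hg⟩ := LinearMap.exists_leftInverse_of_injective (f.restrictScalars k)
    (LinearMap.ker_eq_bot.mpr hf)
  refine ⟨DD.mk (a.ev.comp g), ?_⟩
  ext x
  show a.ev (g (f x)) = a.ev x
  have : g (f x) = x := congrArg (fun u => u x) hg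
  rw [this]

lemma DD.map_exact {Y Z : Type} [AddCommGroup Y] [Module k Y] [Module R Y]
    [IsScalarTower k R Y] [AddCommGroup Z] [Module k Z] [Module R Z]
    [IsScalarTower k R Z] (f : X →ₗ[R] Y) (g : Y →ₗ[R] Z) (h : Function.Exact f g)
    (hg : Function.Surjective g) :
    Function.Exact (DD.map (k := k) (R := R) g) (DD.map (k := k) (R := R) f) := by
  intro a
  constructor
  · intro ha
    obtain ⟨s, hs⟩ := LinearMap.exists_rightInverse_of_surjective (g.restrictScalars k)
      (LinearMap.range_eq_top.mpr hg)
    refine ⟨DD.mk (a.ev.comp s), ?_⟩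
    ext y
    show a.ev (s (g y)) = a.ev y
    have h1 : g (s (g y) - y) = 0 := by
      have : g (s (g y)) = g y := congrArg (fun u => u (g y)) hs
      rw [map_sub, this, sub_self]
    obtain ⟨x, hx⟩ := (h _).mp h1
    have h2 : a.ev (f x) = 0 := by
      rw [← DD.map_ev f a, ha]; rfl
    rw [hx, map_sub] at h2
    exact sub_eq_zero.mp h2
  · rintro ⟨b, rfl⟩
    ext x
    show b.ev (g (f x)) = 0
    rw [h.apply_apply_eq_zero, map_zero]

/-- the dual of a finite free module is injective -/
lemma DD.injective_pi (κ : Type) [Fintype κ] [DecidableEq κ] :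
    Module.Injective R (DD k R (κ → R)) where
  out A B _ _ _ _ f hf g := by
    letI : Module k A := Module.compHom A (algebraMap k R)
    letI : Module k B := Module.compHom B (algebraMap k R)
    haveI : IsScalarTower k R A := ⟨fun c r x => by
      show (c • r) • x = algebraMap k R c • r • x
      rw [Algebra.smul_def, mul_smul]⟩
    haveI : IsScalarTower k R B := ⟨fun c r x => by
      show (c • r) • x = algebraMap k R c • r • x
      rw [Algebra.smul_def, mul_smul]⟩
    obtain ⟨s, hs⟩ := LinearMap.exists_leftInverse_of_injective (f.restrictScalars k)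
      (LinearMap.ker_eq_bot.mpr hf)
    have hs' : ∀ x, s (f x) = x := fun x => congrArg (fun u => u x) hs
    have gk : ∀ (c : k) (x : A), (g (c • x)) = c • g x := by
      intro c x
      have : c • x = (c • (1 : R)) • x := by rw [smul_assoc, one_smul]
      rw [this, map_smul, smul_assoc, one_smul]
    -- the functional `b ↦ g (s b) (single j 1)`
    let u : κ → B →ₗ[k] k := fun j =>
      { toFun := fun b => (g (s b)).ev (Pi.single j 1)
        map_add' := fun a b => by rw [map_add, map_add, DD.ev_add]
        map_smul' := fun c b => by rw [map_smul, gk, DD.ev_ksmul]; rfl }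
    have hu : ∀ j x, u j (f x) = (g x).ev (Pi.single j 1) := by
      intro j x
      show (g (s (f x))).ev _ = _
      rw [hs']
    refine ⟨{ toFun := fun b => DD.mk
                { toFun := fun v => ∑ j, u j (v j • b)
                  map_add' := fun v w => by simp [add_smul, Finset.sum_add_distrib]
                  map_smul' := fun c v => by
                    simp only [Pi.smul_apply, smul_assoc, map_smul, RingHom.id_apply,
                      Finset.smul_sum] }
              map_add' := fun a b => by
                ext v
                show ∑ j, u j (v j • (a + b)) = ∑ j, u j (v j • a) + ∑ j, u j (v j • b)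
                simp [smul_add, Finset.sum_add_distrib]
              map_smul' := fun r b => by
                ext v
                show ∑ j, u j (v j • r • b) = ∑ j, u j ((r * v j) • b)
                refine Finset.sum_congr rfl fun j _ => ?_
                rw [mul_comm, mul_smul] }, fun x => ?_⟩
    ext v
    show ∑ j, u j (v j • f x) = (g x).ev v
    have h1 : ∀ j, u j (v j • f x) = (g x).ev (Pi.single j (v j)) := by
      intro j
      rw [← map_smul, hu, map_smul, DD.ev_smul]
      congr 1
      ext l
      by_cases h : l = j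
      · subst h; simp
      · simp [h]
    rw [Finset.sum_congr rfl fun j _ => h1 j, ← map_sum]
    congr 1
    ext l
    simp [Finset.sum_apply, Pi.single_apply]

/-- the dual of `R` is injective -/
lemma DD.injective_self : Module.Injective R (DD k R R) where
  out A B _ _ _ _ f hf g := by
    have hI := DD.injective_pi (k := k) (R := R) Unit
    let p : (Unit → R) →ₗ[R] R := LinearMap.proj ()
    let i : R →ₗ[R] (Unit → R) := LinearMap.pi fun _ => LinearMap.id
    obtain ⟨h, hh⟩ := hI.out f hf ((DD.map (k := k) p).comp g)
    refine ⟨(DD.map (k := k) i).comp h, fun x => ?_⟩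
    show (DD.map i) (h (f x)) = g x
    rw [hh]
    ext v
    rfl

end

end T63
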