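import Pool.Agent.Lib.MP_63944b_al.C2
import Pool.Agent.Lib.MP_63944b_al.A1

set_option autoImplicit false

open CategoryTheory Module

namespace T63

variable {k : Type} [Field k] {R : Type} [CommRing R] [Algebra k R] {G : GR k R}
  [HasExt.{0} (ModuleCat.{0} R)]

/-- `Ext^i_R(Z, D X) = 0` -/
def EVn (X Z : GM G) (i : ℕ) : Prop := EV R Z.X (DD k R X.X) i

omit [HasExt.{0} (ModuleCat.{0} R)] in
lemma mu_surj (Z : GM G) : Function.Surjective (mu Z) := by
  intro x
  refine ⟨fun j => Z.b.repr x j • (1 : R), ?_⟩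
  rw [mu_apply]
  simp only [smul_assoc, one_smul]
  exact Z.b.sum_repr x

lemma EVn_syz_right (X Z : GM G) (j : ℕ) (h : EVn X Z (j + 2)) : EVn X (syz Z) (j + 1) :=
  EV_ker (mu Z) (mu_surj Z) j h

lemma EVn_syz_left (X Z : GM G) (j : ℕ) (h : EVn X Z (j + 2)) : EVn (syz X) Z (j + 1) := by
  have hI : Module.Injective R (DD k R (X.κ → R)) := DD.injective_pi X.κ
  exact EV_coker (DD.map (k := k) (mu X)) (DD.map (k := k) (LinearMap.ker (mu X)).subtype)
    (DD.map_injective _ (mu_surj X)) (DD.map_surjective _ (Submodule.subtype_injective _))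
    (DD.map_exact _ _ (LinearMap.exact_subtype_ker_map (mu X)) (mu_surj X)) j h

lemma surj_of_ext (A B : GM G) (h : EVn A B 1) (γ : A.X →ₗ[k] (syz B).X →ₗ[k] k)
    (hγ : IsBal (R := R) (X := A.X) (Y := (syz B).X) γ) :
    ∃ α : A.X →ₗ[k] B.X →ₗ[k] k, Dm A B α = γ := by
  let g : K B →ₗ[R] DD k R A.X :=
    { toFun := fun ζ => DD.mk (γ.flip ζ)
      map_add' := fun a b => by
        ext x
        show γ x (a + b) = γ x a + γ x b
        rw [map_add]
      map_smul' := fun r a => by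
        ext x
        exact (hγ r x a).symm }
  obtain ⟨u, hu⟩ := EV_extend (mu B) (mu_surj B) h g
  refine ⟨(B.b.constr k fun j => (u (Pi.single j 1)).ev).flip, ?_⟩
  ext x ζ
  rw [Dm_apply]
  have h1 : γ x ζ = (g ζ).ev x := rfl
  rw [h1, ← hu ζ]
  have h2 : (ζ.1 : B.κ → R) = ∑ j, ζ.1 j • (Pi.single j 1 : B.κ → R) := by
    ext l
    simp [Finset.sum_apply, Pi.single_apply]
  conv_rhs => rw [h2, map_sum, DD.ev_sum]
  refine Finset.sum_congr rfl fun j _ => ?_
  rw [u.map_smul, DD.ev_smul, LinearMap.flip_apply, Basis.constr_basis]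

end T63
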