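import Pool.Agent.Lib.MP_63944b_al.C3
import Pool.Agent.Lib.MP_63944b_al.B4

set_option autoImplicit false

open CategoryTheory Module

namespace T63

variable {k : Type} [Field k] {R : Type} [CommRing R] [Algebra k R] {G : GR k R}
  [HasExt.{0} (ModuleCat.{0} R)]

/-- `Ext^{j+1}(Z, D X) = 0` for `j + i < N` -/
def VA (N : ℕ) (X Z : GM G) (i : ℕ) : Prop := ∀ j, j + i < N → EVn X Z (j + 1)

lemma VA_right (N : ℕ) (X Z : GM G) (i : ℕ) (h : VA N X Z i) : VA N X (syz Z) (i + 1) := by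
  intro j hj
  exact EVn_syz_right X Z j (h (j + 1) (by omega))

lemma VA_left (N : ℕ) (X Z : GM G) (i : ℕ) (h : VA N X Z i) : VA N (syz X) Z (i + 1) := by
  intro j hj
  exact EVn_syz_left X Z j (h (j + 1) (by omega))

lemma SW_of_VA (N a b : ℕ) (X Z : GM G) (ha : ∀ j, a ≤ X.deg j) (hb : ∀ j, b ≤ Z.deg j)
    (h : VA N X Z (a + b)) : SW N X Z := by
  intro n hn γ hγ
  by_cases h1 : a + b < N
  · exact surj_of_ext X Z (h 0 (by omega)) γ hγ.2
  · rw [BalN_eq_bot X (syz Z) n a (b + 1) ha (syz_deg Z b hb) (by omega)] at hγ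
    rw [Submodule.mem_bot] at hγ
    exact ⟨0, by rw [map_zero, hγ]⟩

lemma SurjW_of_VA (N a : ℕ) (X : GM G) (ha : ∀ j, a ≤ X.deg j) : ∀ (m : ℕ) (Z : GM G) (b : ℕ),
    (∀ j, b ≤ Z.deg j) → VA N X Z (a + b) → SurjW N X m Z
  | 0, _, _, _, _ => trivial
  | m + 1, Z, b, hb, h =>
    ⟨SW_of_VA N a b X Z ha hb h,
      SurjW_of_VA N a X ha m (syz Z) (b + 1) (syz_deg Z b hb) (VA_right N X Z (a + b) h)⟩

lemma SurjS_of_VA (N : ℕ) : ∀ (m : ℕ) (Z : GM G) (a : ℕ),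
    (∀ j, a ≤ Z.deg j) → VA N Z Z (a + a) → SurjS N m Z
  | 0, _, _, _, _ => trivial
  | m + 1, Z, a, ha, h => by
    have h1 : VA N (syz Z) Z (a + 1 + a) := by
      have := VA_left N Z Z (a + a) h
      rwa [show a + 1 + a = a + a + 1 by omega]
    have h2 : VA N (syz Z) (syz Z) (a + 1 + (a + 1)) := VA_right N (syz Z) Z (a + 1 + a) h1
    exact ⟨SW_of_VA N a a Z Z ha ha h, SW_of_VA N (a + 1) a (syz Z) Z (syz_deg Z a ha) ha h1,
      SurjS_of_VA N m (syz Z) (a + 1) (syz_deg Z a ha) h2⟩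

end T63
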