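import Pool.Agent.Lib.MP_63944b_al.O1

set_option autoImplicit false

open Module

namespace T63

variable {k : Type} [Field k] {R : Type} [CommRing R] [Algebra k R]

/-- index types of the bases of the graded pieces -/
def alf (𝒜 : ℕ → Submodule k R) : ℕ → Type
  | 0 => Unit
  | i + 1 => Fin (finrank k (𝒜 (i + 1)))

/-- the degree zero part is `k` -/
noncomputable def eqv0 (𝒜 : ℕ → Submodule k R) [GradedAlgebra 𝒜] [Nontrivial R]
    (h0 : ∀ x ∈ 𝒜 0, ∃ a : k, algebraMap k R a = x) : k ≃ₗ[k] 𝒜 0 :=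
  LinearEquiv.ofBijective
    (LinearMap.codRestrict (𝒜 0) (Algebra.linearMap k R) fun a => by
        rw [Algebra.linearMap_apply, Algebra.algebraMap_eq_smul_one]
        exact (𝒜 0).smul_mem a SetLike.GradedOne.one_mem)
    ⟨fun a b h => by
      have := congrArg Subtype.val h
      exact (algebraMap k R).injective this,
    fun x => by
      obtain ⟨a, ha⟩ := h0 x.1 x.2
      exact ⟨a, Subtype.ext ha⟩⟩

lemma eqv0_one (𝒜 : ℕ → Submodule k R) [GradedAlgebra 𝒜] [Nontrivial R]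
    (h0 : ∀ x ∈ 𝒜 0, ∃ a : k, algebraMap k R a = x) : (eqv0 𝒜 h0 1 : R) = 1 :=
  map_one (algebraMap k R)

/-- bases of the graded pieces -/
noncomputable def vv (𝒜 : ℕ → Submodule k R) [GradedAlgebra 𝒜] [Nontrivial R] [Module.Finite k R]
    (h0 : ∀ x ∈ 𝒜 0, ∃ a : k, algebraMap k R a = x) : ∀ i, Basis (alf 𝒜 i) k (𝒜 i)
  | 0 => (Basis.singleton Unit k).map (eqv0 𝒜 h0)
  | i + 1 =>
    have : Module.Finite k (𝒜 (i + 1)) := Module.Finite.of_injective (𝒜 (i + 1)).subtype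
      (Submodule.subtype_injective _)
    Module.finBasis k (𝒜 (i + 1))

theorem exists_GR (𝒜 : ℕ → Submodule k R) [GradedAlgebra 𝒜] [Nontrivial R] [Module.Finite k R]
    (h0 : ∀ x ∈ 𝒜 0, ∃ a : k, algebraMap k R a = x) (c : ℕ) (hc : ∀ j, c < j → 𝒜 j = ⊥) :
    ∃ G : GR k R, G.c ≤ c := by
  classical
  let B : Basis (Σ i, alf 𝒜 i) k R :=
    (DirectSum.Decomposition.isInternal 𝒜).collectedBasis (vv 𝒜 h0)
  have hBmem : ∀ p, B p ∈ 𝒜 p.1 := fun p =>
    (DirectSum.Decomposition.isInternal 𝒜).collectedBasis_mem (vv 𝒜 h0) p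
  have hBne : ∀ (x : R) (i : ℕ), x ∈ 𝒜 i → ∀ p, B.repr x p ≠ 0 → p.1 = i := by
    rintro x i hx ⟨j, a⟩ hp
    by_contra h
    exact hp ((DirectSum.Decomposition.isInternal 𝒜).collectedBasis_repr_of_mem_ne (vv 𝒜 h0)
      (Ne.symm h) hx)
  let o₀ : Σ i, alf 𝒜 i := ⟨0, ()⟩
  have hB0 : B o₀ = 1 := by
    have h1 : B o₀ = (vv 𝒜 h0 0 () : R) := by
      show (DirectSum.Decomposition.isInternal 𝒜).collectedBasis (vv 𝒜 h0) o₀ = _
      rw [DirectSum.IsInternal.collectedBasis_coe]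
    rw [h1]
    show (((Basis.singleton Unit k).map (eqv0 𝒜 h0)) () : R) = 1
    rw [Basis.map_apply, Basis.singleton_apply]
    exact eqv0_one 𝒜 h0
  have : Finite (Σ i, alf 𝒜 i) := Module.Finite.finite_basis B
  let : Fintype {p : Σ i, alf 𝒜 i // p ≠ o₀} := Fintype.ofFinite _
  let E : Option {p : Σ i, alf 𝒜 i // p ≠ o₀} ≃ Σ i, alf 𝒜 i := Equiv.optionSubtypeNe o₀
  have hE0 : E none = o₀ := Equiv.optionSubtypeNe_none _
  have hE1 : ∀ p, E (some p) = p.1 := Equiv.optionSubtypeNe_some _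
  have hel : ∀ l : Option {p : Σ i, alf 𝒜 i // p ≠ o₀},
      l.elim 0 (fun p => p.1.1) = (E l).1 := by
    intro l
    cases l with
    | none => rw [hE0]; rfl
    | some p => rw [hE1]; rfl
  refine ⟨{ ι := {p : Σ i, alf 𝒜 i // p ≠ o₀}
            e := B.reindex E.symm
            d := fun p => p.1.1
            e_none := ?_
            d_pos := ?_
            hmul := ?_ }, ?_⟩
  · rw [Basis.reindex_apply, Equiv.symm_symm, hE0, hB0]
  · rintro ⟨⟨i, a⟩, hp⟩
    rcases i with _ | i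
    · exact absurd rfl hp
    · exact Nat.succ_le_succ (Nat.zero_le _)
  · intro i j l hl
    rw [Basis.reindex_apply, Basis.reindex_apply, Equiv.symm_symm, hE1, hE1,
      Basis.repr_reindex_apply, Equiv.symm_symm] at hl
    rw [hel]
    exact hBne _ _ (SetLike.mul_mem_graded (hBmem i.1) (hBmem j.1)) _ hl
  · refine Finset.sup_le fun o _ => ?_
    show o.elim 0 (fun p => p.1.1) ≤ c
    rw [hel]
    by_contra h
    have h1 := hBmem (E o)
    rw [hc _ (by omega)] at h1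
    exact B.ne_zero _ ((Submodule.mem_bot k).mp h1)

end T63
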