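import Pool.Agent.Lib.MP_63944b_al.O1
import Pool.Agent.Lib.MP_63944b_al.A2

set_option autoImplicit false

open Module

namespace T63

variable {k : Type} [Field k] {R : Type} [CommRing R] [Algebra k R]

/-- every nonzero ideal contains a nonzero socle element -/
lemma exists_socle (G : GR k R) (m : ℕ) : ∀ r : R, r ≠ 0 →
    (∀ o, G.e.repr r o ≠ 0 → G.c ≤ m + G.dd o) →
    ∃ u : R, u * r ≠ 0 ∧ ∀ i, G.e (some i) * (u * r) = 0 := by
  induction m with
  | zero =>
    intro r hr h
    refine ⟨1, by rwa [one_mul], fun i => ?_⟩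
    rw [one_mul]
    by_contra h1
    have h2 : ∃ l, G.e.repr (G.e (some i) * r) l ≠ 0 := by
      by_contra h3
      push Not at h3
      exact h1 (G.e.repr.map_eq_zero_iff.mp (Finsupp.ext h3))
    obtain ⟨l, hl⟩ := h2
    have h3 : ∃ o, G.e.repr r o ≠ 0 ∧ G.e.repr (G.e (some i) * G.e o) l ≠ 0 := by
      by_contra h4
      push Not at h4
      apply hl
      conv_lhs => rw [← G.e.sum_repr r]
      rw [Finset.mul_sum, map_sum, Finsupp.finsetSum_apply]
      refine Finset.sum_eq_zero fun o _ => ?_
      rw [mul_smul_comm, map_smul, Finsupp.smul_apply]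
      by_cases h5 : G.e.repr r o = 0
      · rw [h5, zero_smul]
      · rw [h4 o h5, smul_zero]
    obtain ⟨o, ho1, ho2⟩ := h3
    have h4 := h o ho1
    have h5 := G.hmul' i o l ho2
    have h6 := G.dd_le l
    have h7 := G.d_pos i
    omega
  | succ m ih =>
    intro r hr h
    by_cases h0 : ∀ i, G.e (some i) * r = 0
    · exact ⟨1, by rwa [one_mul], fun i => by rw [one_mul]; exact h0 i⟩
    · push Not at h0
      obtain ⟨i, hi⟩ := h0
      obtain ⟨u, hu1, hu2⟩ := ih (G.e (some i) * r) hi (by
        intro l hl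
        have h3 : ∃ o, G.e.repr r o ≠ 0 ∧ G.e.repr (G.e (some i) * G.e o) l ≠ 0 := by
          by_contra h4
          push Not at h4
          apply hl
          conv_lhs => rw [← G.e.sum_repr r]
          rw [Finset.mul_sum, map_sum, Finsupp.finsetSum_apply]
          refine Finset.sum_eq_zero fun o _ => ?_
          rw [mul_smul_comm, map_smul, Finsupp.smul_apply]
          by_cases h5 : G.e.repr r o = 0
          · rw [h5, zero_smul]
          · rw [h4 o h5, smul_zero]
        obtain ⟨o, ho1, ho2⟩ := h3
        have h4 := h o ho1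
        have h5 := G.hmul' i o l ho2
        have h7 := G.d_pos i
        omega)
      refine ⟨u * G.e (some i), by rwa [mul_assoc], fun j => ?_⟩
      rw [mul_assoc]
      exact hu2 j

/-- the antisymmetric form attached to two socle elements -/
noncomputable def sForm (s t : R) : DD k R R →ₗ[k] DD k R R →ₗ[k] k :=
  LinearMap.mk₂ k (fun x y => x.ev s * y.ev t - x.ev t * y.ev s)
    (fun x x' y => by simp only [DD.ev_add]; ring)
    (fun c x y => by simp only [DD.ev_ksmul, smul_eq_mul]; ring)
    (fun x y y' => by simp only [DD.ev_add]; ring)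
    (fun c x y => by simp only [DD.ev_ksmul, smul_eq_mul]; ring)

lemma sForm_apply (s t : R) (x y : DD k R R) :
    sForm s t x y = x.ev s * y.ev t - x.ev t * y.ev s := rfl

lemma socle_one_dim (G : GR k R) (hz : ∀ n, BalE (Om G) n (-1 : k) = ⊥) (s t : R)
    (hs : ∀ i, G.e (some i) * s = 0) (ht : ∀ i, G.e (some i) * t = 0) (x y : DD k R R) :
    x.ev s * y.ev t = x.ev t * y.ev s := by
  have h0 : ∀ (i : G.ι) (x y : DD k R R), sForm s t (G.e (some i) • x) y
      = sForm s t x (G.e (some i) • y) := by
    intro i x y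
    rw [sForm_apply, sForm_apply]
    simp only [DD.ev_smul, smul_eq_mul, hs, ht, map_zero]
    ring
  have h1 : IsBal (R := R) (X := (Om G).X) (Y := (Om G).X) (sForm s t) :=
    isBal_of_basis (Om G) (Om G) (sForm s t) fun i j l => h0 i _ _
  have h2 : ∀ x y : DD k R R, sForm (k := k) s t x y = (-1) * sForm (k := k) s t y x := by
    intro x y
    rw [sForm_apply, sForm_apply]
    ring
  have h3 : (sForm s t : (Om G).X →ₗ[k] (Om G).X →ₗ[k] k) = 0 := by
    refine eq_zero_of_cmp (Om G) (Om G) _ fun n => ?_
    have h4 : cmp (Om G) (Om G) n (sForm s t) ∈ BalE (Om G) n (-1 : k) :=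
      ⟨cmp_isHomo _ _ _ _, cmp_isBal _ _ _ _ h1, fun x y => cmp_symm (Om G) n _ (-1) h2 x y⟩
    rw [hz n] at h4
    exact (Submodule.mem_bot k).mp h4
  have h4 : sForm (k := k) s t x y = 0 := by
    have : sForm (k := k) s t = 0 := h3
    rw [this]
    rfl
  rw [sForm_apply] at h4
  exact sub_eq_zero.mp h4

/-- if there are no antisymmetric balanced forms on `ω` then `R` is selfinjective -/
theorem injective_of_no_antisymm (G : GR k R) (hz : ∀ n, BalE (Om G) n (-1 : k) = ⊥) :
    Module.Injective R R := by
  have hne : (1 : R) ≠ 0 := by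
    rw [← G.e_none]
    exact G.e.ne_zero none
  -- a nonzero socle element
  obtain ⟨u, hu1, hu2⟩ := exists_socle G G.c 1 hne (fun o _ => by omega)
  rw [mul_one] at hu1 hu2
  -- a functional not vanishing on it
  obtain ⟨o, ho⟩ : ∃ o, G.e.repr u o ≠ 0 := by
    by_contra h3
    push Not at h3
    exact hu1 (G.e.repr.map_eq_zero_iff.mp (Finsupp.ext h3))
  let x₀ : DD k R R := DD.mk (G.e.coord o)
  have hx₀ : x₀.ev u ≠ 0 := ho
  -- the map `r ↦ r x₀`
  let F : R →ₗ[R] DD k R R := LinearMap.toSpanSingleton R _ x₀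
  have hF : ∀ r, F r = r • x₀ := fun r => rfl
  have hinj : Function.Injective F := by
    rw [← LinearMap.ker_eq_bot, LinearMap.ker_eq_bot']
    intro r hr
    by_contra hr0
    obtain ⟨v, hv1, hv2⟩ := exists_socle G G.c r hr0 (fun o _ => by omega)
    have h1 : x₀.ev (v * r) = 0 := by
      have : (r • x₀).ev v = 0 := by
        rw [← hF, hr]; rfl
      rw [DD.ev_smul, smul_eq_mul, mul_comm] at this
      exact this
    apply hv1
    have h2 : ∀ y : DD k R R, y.ev (v * r) = 0 := by
      intro y
      have h3 := socle_one_dim G hz u (v * r) hu2 hv2 x₀ y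
      rw [h1, zero_mul] at h3
      exact (mul_eq_zero.mp h3).resolve_left hx₀
    refine G.e.repr.map_eq_zero_iff.mp (Finsupp.ext fun l => ?_)
    exact h2 (DD.mk (G.e.coord l))
  have : Module.Finite k R := Module.Finite.of_basis G.e
  have hsurj : Function.Surjective F := by
    have h1 : Function.Injective (F.restrictScalars k) := hinj
    have h2 : Module.finrank k R = Module.finrank k (DD k R R) :=
      (Subspace.dual_finrank_eq (K := k) (V := R)).symm
    have : Module.Finite k (DD k R R) := Module.Finite.of_basis (omB G)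
    exact (LinearMap.injective_iff_surjective_of_finrank_eq_finrank h2).mp h1
  let E : R ≃ₗ[R] DD k R R := LinearEquiv.ofBijective F ⟨hinj, hsurj⟩
  have hI : Module.Injective R (DD k R R) := DD.injective_self
  refine ⟨fun A B _ _ _ _ f hf g => ?_⟩
  obtain ⟨h, hh⟩ := hI.out f hf (E.toLinearMap.comp g)
  refine ⟨E.symm.toLinearMap.comp h, fun x => ?_⟩
  show E.symm (h (f x)) = g x
  rw [hh]
  exact E.symm_apply_apply (g x)

end T63
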