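import Pool.Agent.Lib.MP_63944b_al.O3
import Pool.Agent.Lib.MP_63944b_al.A5
import Pool.Agent.Lib.MP_63944b_al.B1
import Pool.Agent.Lib.MP_63944b_al.D1

set_option autoImplicit false

open CategoryTheory Module Polynomial

namespace T63

variable {k : Type} [Field k] {R : Type} [CommRing R] [Algebra k R]

lemma Om_deg_le (G : GR k R) (o : (Om G).κ) : (Om G).deg o ≤ G.c := Nat.sub_le _ _

lemma Om_BalN_bot (G : GR k R) (n : ℕ) (hn : 2 * G.c < n) : BalN (Om G) (Om G) n = ⊥ :=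
  BalN_eq_bot' (Om G) (Om G) n G.c G.c (Om_deg_le G) (Om_deg_le G) (by omega)

lemma Om_BalE_bot (G : GR k R) (n : ℕ) (ε : k) (hn : 2 * G.c < n) : BalE (Om G) n ε = ⊥ := by
  rw [eq_bot_iff]
  intro φ hφ
  have : φ ∈ BalN (Om G) (Om G) n := ⟨hφ.1, hφ.2.1⟩
  rwa [Om_BalN_bot G n hn] at this

/-- number of balanced forms of degree `n` on `ω` -/
noncomputable def wn (G : GR k R) (n : ℕ) : ℤ := (finrank k (BalN (Om G) (Om G) n) : ℤ)

lemma wn_zero (G : GR k R) (n : ℕ) (hn : 2 * G.c < n) : wn G n = 0 := by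
  rw [wn, Om_BalN_bot G n hn]
  simp

lemma sg_zero (G : GR k R) (n : ℕ) (hn : 2 * G.c < n) : sg (Om G) n = 0 := by
  rw [sg, Om_BalE_bot G n 1 hn, Om_BalE_bot G n (-1) hn]
  simp

lemma wn_split (h2 : (2 : k) ≠ 0) (G : GR k R) (n : ℕ) :
    wn G n = (finrank k (BalE (Om G) n (1 : k)) : ℤ) + finrank k (BalE (Om G) n (-1 : k)) := by
  rw [wn, finrank_BalN_split h2 (Om G) n]
  push_cast
  ring

lemma coe_W (G : GR k R) : ((trp (wn G) (2 * G.c) : ℤ[X]) : PowerSeries ℤ)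
    = Wser (Om G) (Om G) := by
  ext n
  rw [Polynomial.coeff_coe, coeff_trp _ _ _ (wn_zero G), Wser, PowerSeries.coeff_mk, wn]

lemma coe_S (G : GR k R) : ((trp (sg (Om G)) (2 * G.c) : ℤ[X]) : PowerSeries ℤ)
    = Sser (Om G) := by
  ext n
  rw [Polynomial.coeff_coe, coeff_trp _ _ _ (sg_zero G), Sser, PowerSeries.coeff_mk]

lemma sub_bot {V : Type} [AddCommGroup V] [Module k V] [Module.Finite k V] (S : Submodule k V)
    (h : finrank k S = 0) : S = ⊥ := Submodule.finrank_eq_zero.mp h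

lemma BalE_bot_of_finrank {G : GR k R} (A : GM G) (n : ℕ) (ε : k)
    (h : finrank k (BalE A n ε) = 0) : BalE A n ε = ⊥ := by
  have hfin : Module.Finite k A.X := Module.Finite.of_basis A.b
  exact sub_bot (V := A.X →ₗ[k] A.X →ₗ[k] k) (BalE A n ε) h

lemma nat_aux (a b : ℕ) (h : (a : ℤ) + b = a - b) : b = 0 := by omega

lemma abs_aux (a b : ℕ) : |(a : ℤ) - b| ≤ (a : ℤ) + b := by
  rw [abs_le]
  constructor <;> omega

theorem no_antisymm (h2 : (2 : k) ≠ 0) (G : GR k R) [HasExt.{0} (ModuleCat.{0} R)]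
    (hE : ∀ j, j < 3 * G.c → EVn (Om G) (Om G) (j + 1)) :
    ∀ n, BalE (Om G) n (-1 : k) = ⊥ := by
  have hVA : VA (3 * G.c) (Om G) (Om G) (0 + 0) := fun j hj => hE j (by omega)
  have hCW := claimW (3 * G.c) (Om G) (3 * G.c + 1) (Om G) 0 (fun _ => Nat.zero_le _)
    (SurjW_of_VA (3 * G.c) 0 (Om G) (fun _ => Nat.zero_le _) (3 * G.c + 1) (Om G) 0
      (fun _ => Nat.zero_le _) hVA) (by omega)
  have hCS := claimS h2 (3 * G.c) (3 * G.c + 1) (Om G) 0 (fun _ => Nat.zero_le _)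
    (SurjS_of_VA (3 * G.c) (3 * G.c + 1) (Om G) 0 (fun _ => Nat.zero_le _) hVA) (by omega)
  have hWS : trp (wn G) (2 * G.c) = trp (sg (Om G)) (2 * G.c) := by
    refine numeric G.c (HP G) _ _ (HP_coeff_zero G) (HP_natDegree G) (HP_coeff_c G) ?_ ?_ ?_ ?_
    · intro n
      rw [coeff_trp _ _ _ (wn_zero G), coeff_trp _ _ _ (sg_zero G), wn_split h2, sg]
      exact abs_aux _ _
    · refine Polynomial.natDegree_le_iff_coeff_eq_zero.mpr fun n hn => ?_
      rw [coeff_trp _ _ _ (wn_zero G)]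
      exact wn_zero G n hn
    · intro n hn
      rw [← Polynomial.coeff_coe, ← Polynomial.coeff_coe, Polynomial.coe_mul, Polynomial.coe_pow,
        coe_W, HP_coe, HP_coeR, pow_two]
      exact hCW n hn
    · intro n hn
      rw [← Polynomial.coeff_coe, ← Polynomial.coeff_coe, Polynomial.coe_mul, Polynomial.coe_mul,
        coe_S, HP_coe2, HP_coeR2, HP_coe, mul_comm (P2 (Om G))]
      exact hCS n hn
  intro n
  have e1 := coeff_trp (wn G) (2 * G.c) n (wn_zero G)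
  have e2 := coeff_trp (sg (Om G)) (2 * G.c) n (sg_zero G)
  have h3 : wn G n = sg (Om G) n := by
    rw [← e1, ← e2, hWS]
  rw [wn_split h2, sg] at h3
  have h4 : finrank k (BalE (Om G) n (-1 : k)) = 0 := nat_aux _ _ h3
  exact BalE_bot_of_finrank (Om G) n _ h4

end T63
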