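import Pool.Agent.Lib.MP_63944b_al.F1
import Pool.Agent.Lib.MP_63944b_al.O2
import Pool.Agent.Lib.MP_63944b_al.O4

set_option autoImplicit false

open CategoryTheory Module

namespace T63

variable {k : Type} [Field k] {R : Type} [CommRing R] [Algebra k R]

/-- evaluation `R → D D R` -/
noncomputable def evR (k : Type) [Field k] (R : Type) [CommRing R] [Algebra k R] :
    R →ₗ[R] DD k R (DD k R R) where
  toFun r := DD.mk
    { toFun := fun f => f.ev r
      map_add' := fun a b => rfl
      map_smul' := fun c b => rfl }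
  map_add' a b := by
    ext f
    exact map_add f.ev a b
  map_smul' r a := by
    ext f
    rfl

lemma evR_bij [Module.Finite k R] : Function.Bijective (evR k R) := by
  have h := (Module.evalEquiv k R).bijective
  exact h

theorem main_GR (h2 : (2 : k) ≠ 0) (G : GR k R) [HasExt.{0} (ModuleCat.{0} R)]
    (hE : ∀ j, j < 3 * G.c → EV R (DD k R R) R (j + 1)) : Module.Injective R R := by
  have hfin : Module.Finite k R := Module.Finite.of_basis G.e
  refine injective_of_no_antisymm G (no_antisymm h2 G fun j hj => ?_)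
  exact EV_congr (LinearEquiv.refl R _) (LinearEquiv.ofBijective (evR k R) evR_bij) (j + 1)
    (hE j hj)

theorem main (h2 : (2 : k) ≠ 0) [Module.Finite k R] [HasExt.{0} (ModuleCat.{0} R)]
    (𝒜 : ℕ → Submodule k R) [GradedAlgebra 𝒜]
    (h0 : ∀ x ∈ 𝒜 0, ∃ a : k, algebraMap k R a = x)
    (c : ℕ) (hc : ∀ j, c < j → 𝒜 j = ⊥)
    (Q : ModuleCat.{0} R) (φ : Q ≃+ (R →ₗ[k] k))
    (hφ : ∀ (r : R) (q : Q) (x : R), φ (r • q) x = φ q (x * r))
    (hExt : ∀ n < 3 * c, Subsingleton (Abelian.Ext.{0} Q (ModuleCat.of R R) (n + 1))) :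
    Module.Injective R R := by
  rcases subsingleton_or_nontrivial R with hs | hn
  · refine ⟨fun A B _ _ _ _ f hf g => ⟨0, fun x => Subsingleton.elim _ _⟩⟩
  · obtain ⟨G, hG⟩ := exists_GR 𝒜 h0 c hc
    refine main_GR h2 G fun j hj => ?_
    let E : Q ≃ₗ[R] DD k R R :=
      { φ with
        map_smul' := fun r q => by
          refine LinearMap.ext fun x => ?_
          show φ (r • q) x = φ q (r • x)
          rw [hφ, smul_eq_mul, mul_comm] }
    have h1 : EV R Q R (j + 1) := hExt j (by omega)
    exact EV_congr E (LinearEquiv.refl R R) (j + 1) h1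

end T63
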