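import Mathlib

section

/-!
# A length inequality for noncommutative algebras

`R` a finite dimensional augmented `k`-algebra, `J` the augmentation ideal. `D R = Hom_k(R, k)` is
generated by `e_j` as a left module and by `f_i` as a right module, all relations having
coefficients in `J`. If `Ext^1_R(D R, R) = 0` then matrices whose rows are relations of the `e_j`
and whose columns are relations of the `f_i` have entries in `J^2`.
-/

set_option autoImplicit false

open Module CategoryTheory

namespace NL63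

/-- vanishing of `Ext^1(Z, Y)`: maps from the syzygy module extend -/
lemma ext_extend {R : Type} [Ring R] [HasExt.{0} (ModuleCat.{0} R)]
    {F Z Y : Type} [AddCommGroup F] [Module R F] [AddCommGroup Z] [Module R Z]
    [AddCommGroup Y] [Module R Y] (f : F →ₗ[R] Z) (hf : Function.Surjective f)
    (h : Subsingleton (Abelian.Ext.{0} (ModuleCat.of R Z) (ModuleCat.of R Y) 1))
    (g : LinearMap.ker f →ₗ[R] Y) : ∃ h : F →ₗ[R] Y, ∀ x : LinearMap.ker f, h x = g x := by
  have hS := LinearMap.shortExact_shortComplexKer hf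
  have hz : hS.extClass.comp (Abelian.Ext.mk₀ (ModuleCat.ofHom g)) (show 1 + 0 = 1 by omega) = 0 := by
    have : Subsingleton (Abelian.Ext.{0} (ModuleCat.of R Z) (ModuleCat.of R Y) 1) := h
    exact Subsingleton.elim _ _
  obtain ⟨x₂, hx₂⟩ := Abelian.Ext.contravariant_sequence_exact₁ hS (ModuleCat.of R Y)
      (Abelian.Ext.mk₀ (ModuleCat.ofHom g)) (show 1 + 0 = 1 by omega) hz
  obtain ⟨u, rfl⟩ := (Abelian.Ext.mk₀_bijective _ _).2 x₂
  rw [Abelian.Ext.mk₀_comp_mk₀, (Abelian.Ext.mk₀_bijective _ _).1.eq_iff] at hx₂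
  refine ⟨u.hom, fun x => ?_⟩
  have := congrArg (fun w => w.hom x) hx₂
  simpa using this

variable {k : Type} [Field k] {R : Type} [Ring R] [Algebra k R]

/-- the augmentation ideal as a subspace -/
abbrev Jk (ε : R →ₐ[k] k) : Submodule k R := LinearMap.ker ε.toLinearMap

lemma mem_Jk (ε : R →ₐ[k] k) (a : R) : a ∈ Jk ε ↔ ε a = 0 := Iff.rfl

lemma decomp (ε : R →ₐ[k] k) (a : R) : ∃ b ∈ Jk ε, a = algebraMap k R (ε a) + b := by
  refine ⟨a - algebraMap k R (ε a), ?_, by abel⟩
  rw [mem_Jk, map_sub, AlgHom.commutes, Algebra.algebraMap_self_apply, sub_self]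

/-- left relations of the functionals `e_j` -/
def Zl (R : Type) [Ring R] [Algebra k R] {r : ℕ} (e : Fin r → (R →ₗ[k] k)) :
    Submodule R (Fin r → R) where
  carrier := {v | ∀ x : R, ∑ j, e j (x * v j) = 0}
  add_mem' := by
    intro v w hv hw x
    simp only [Pi.add_apply, mul_add, map_add, Finset.sum_add_distrib]
    rw [hv x, hw x, add_zero]
  zero_mem' := by intro x; simp
  smul_mem' := by
    intro a v hv x
    simp only [Pi.smul_apply, smul_eq_mul, ← mul_assoc]
    exact hv (x * a)

lemma mem_Zl {r : ℕ} (e : Fin r → (R →ₗ[k] k)) (v : Fin r → R) :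
    v ∈ Zl R e ↔ ∀ x : R, ∑ j, e j (x * v j) = 0 := Iff.rfl

/-- the subspace `J Z` -/
def JZ {r : ℕ} (ε : R →ₐ[k] k) (e : Fin r → (R →ₗ[k] k)) : Submodule k (Zl R e) :=
  Submodule.span k {w | ∃ a ∈ Jk ε, ∃ z : Zl R e, w = a • z}

end NL63
end

section

set_option autoImplicit false

open Module CategoryTheory

namespace NL63

variable {k : Type} [Field k] {R : Type} [Ring R] [Algebra k R]

/-- `v ↦ ∑ e_j(x v_j)` -/
noncomputable def Ll {r : ℕ} (e : Fin r → (R →ₗ[k] k)) : (Fin r → R) →ₗ[k] (R →ₗ[k] k) where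
  toFun v := ∑ j, (e j).comp (LinearMap.mulRight k (v j))
  map_add' v w := by
    ext x
    simp [mul_add, Finset.sum_add_distrib]
  map_smul' c v := by
    ext x
    simp [Finset.mul_sum]

lemma Ll_apply {r : ℕ} (e : Fin r → (R →ₗ[k] k)) (v : Fin r → R) (x : R) :
    Ll e v x = ∑ j, e j (x * v j) := by
  simp [Ll]

/-- `w ↦ ∑ f_i(w_i x)` -/
noncomputable def Lr {r : ℕ} (f : Fin r → (R →ₗ[k] k)) : (Fin r → R) →ₗ[k] (R →ₗ[k] k) where
  toFun w := ∑ j, (f j).comp (LinearMap.mulLeft k (w j))
  map_add' v w := by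
    ext x
    simp [add_mul, Finset.sum_add_distrib]
  map_smul' c v := by
    ext x
    simp [Finset.mul_sum]

lemma Lr_apply {r : ℕ} (f : Fin r → (R →ₗ[k] k)) (w : Fin r → R) (x : R) :
    Lr f w x = ∑ j, f j (w j * x) := by
  simp [Lr]

/-- a functional through a surjection -/
lemma exists_lift {V W : Type} [AddCommGroup V] [Module k V] [AddCommGroup W] [Module k W]
    (L : V →ₗ[k] W) (hL : Function.Surjective L) (u : V →ₗ[k] k) (hu : ∀ v, L v = 0 → u v = 0) :
    ∃ Γ : W →ₗ[k] k, ∀ v, Γ (L v) = u v := by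
  let p := L.quotKerEquivOfSurjective hL
  refine ⟨((LinearMap.ker L).liftQ u (fun v hv => hu v hv)).comp p.symm.toLinearMap, fun v => ?_⟩
  have h1 : p (Submodule.Quotient.mk v) = L v := rfl
  rw [← h1, LinearMap.comp_apply, LinearEquiv.coe_coe, LinearEquiv.symm_apply_apply]
  rfl

lemma exists_Gr {r : ℕ} (ε : R →ₐ[k] k) (f : Fin r → (R →ₗ[k] k))
    (hgen : Function.Surjective (Lr f)) (hrel : ∀ w, Lr f w = 0 → ∀ i, ε (w i) = 0) (i : Fin r) :
    ∃ Γ : (R →ₗ[k] k) →ₗ[k] k, ∀ w, Γ (Lr f w) = ε (w i) :=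
  exists_lift (Lr f) hgen (ε.toLinearMap.comp (LinearMap.proj i)) (fun v hv => hrel v hv i)

lemma exists_Gl {r : ℕ} (ε : R →ₐ[k] k) (e : Fin r → (R →ₗ[k] k))
    (hgen : Function.Surjective (Ll e)) (hrel : ∀ w, Ll e w = 0 → ∀ i, ε (w i) = 0) (i : Fin r) :
    ∃ Γ : (R →ₗ[k] k) →ₗ[k] k, ∀ w, Γ (Ll e w) = ε (w i) :=
  exists_lift (Ll e) hgen (ε.toLinearMap.comp (LinearMap.proj i)) (fun v hv => hrel v hv i)

/-- the map `Z → R` attached to `q : Z → k` and the index `i` -/
lemma exists_g {r r' : ℕ} [Module.Finite k R] (ε : R →ₐ[k] k) (e : Fin r → (R →ₗ[k] k))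
    (f : Fin r' → (R →ₗ[k] k))
    (hgen : Function.Surjective (Lr f)) (hrel : ∀ w, Lr f w = 0 → ∀ i, ε (w i) = 0) (i : Fin r')
    (q : Zl R e →ₗ[k] k) (hq : ∀ (a : R) (z : Zl R e), q (a • z) = ε a * q z) :
    ∃ g : Zl R e →ₗ[R] R, ∀ z l, f l (g z) = if l = i then q z else 0 := by
  obtain ⟨Γ, hΓ⟩ := exists_Gr ε f hgen hrel i
  let ev := Module.evalEquiv k R
  have hev : ∀ (u : (R →ₗ[k] k) →ₗ[k] k) (y : R →ₗ[k] k), y (ev.symm u) = u y := by
    intro u y
    have h1 := congrArg (fun w => w y) (ev.apply_symm_apply u)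
    exact h1
  have hsep : ∀ a b : R, (∀ y : R →ₗ[k] k, y a = y b) → a = b := by
    intro a b hab
    apply ev.injective
    ext y
    exact hab y
  refine ⟨{ toFun := fun z => ev.symm (q z • Γ)
            map_add' := fun z z' => by rw [map_add, add_smul, map_add]
            map_smul' := fun a z => ?_ }, fun z l => ?_⟩
  · rw [RingHom.id_apply, smul_eq_mul]
    apply hsep
    intro y
    obtain ⟨w, rfl⟩ := hgen y
    rw [hev, LinearMap.smul_apply, hq, smul_eq_mul, hΓ]
    have h1 : Lr f w (a * ev.symm (q z • Γ)) = Lr f (fun j => w j * a) (ev.symm (q z • Γ)) := by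
      rw [Lr_apply, Lr_apply]
      refine Finset.sum_congr rfl fun j _ => ?_
      rw [mul_assoc]
    rw [h1, hev, LinearMap.smul_apply, hΓ, map_mul, smul_eq_mul]
    ring
  · show f l (ev.symm (q z • Γ)) = _
    rw [hev, LinearMap.smul_apply]
    have h1 : f l = Lr f (Pi.single l 1) := by
      ext x
      rw [Lr_apply, Finset.sum_eq_single l]
      · rw [Pi.single_eq_same, one_mul]
      · intro b _ hb
        rw [Pi.single_eq_of_ne hb, zero_mul, map_zero]
      · intro hl
        exact absurd (Finset.mem_univ l) hl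
    rw [h1, hΓ, smul_eq_mul]
    by_cases hli : l = i
    · subst hli
      rw [Pi.single_eq_same, map_one, mul_one, if_pos rfl]
    · rw [Pi.single_eq_of_ne (Ne.symm hli), map_zero, mul_zero, if_neg hli]

lemma mat_mem {r r' : ℕ} [Module.Finite k R] [HasExt.{0} (ModuleCat.{0} R)]
    (ε : R →ₐ[k] k) (e : Fin r → (R →ₗ[k] k)) (f : Fin r' → (R →ₗ[k] k))
    (hgenl : Function.Surjective (Ll e)) (hrell : ∀ w, Ll e w = 0 → ∀ i, ε (w i) = 0)
    (hgen : Function.Surjective (Lr f)) (hrel : ∀ w, Lr f w = 0 → ∀ i, ε (w i) = 0)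
    (Q : ModuleCat.{0} R) (φ : Q ≃+ (R →ₗ[k] k))
    (hφ : ∀ (r : R) (q : Q) (x : R), φ (r • q) x = φ q (x * r))
    (hExt : Subsingleton (Abelian.Ext.{0} Q (ModuleCat.of R R) 1))
    (M : Fin r' → Fin r → R) (hrow : ∀ i, Ll e (M i) = 0) (hcol : ∀ j, Lr f (fun i => M i j) = 0)
    (i : Fin r') (j : Fin r) : M i j ∈ Jk ε * Jk ε := by
  -- the presentation of `Q`
  let π : (Fin r → R) →ₗ[R] Q :=
    { toFun := fun v => φ.symm (Ll e v)
      map_add' := fun v w => by rw [map_add, map_add]
      map_smul' := fun a v => by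
        apply φ.injective
        rw [RingHom.id_apply, AddEquiv.apply_symm_apply]
        ext x
        rw [hφ, AddEquiv.apply_symm_apply, Ll_apply, Ll_apply]
        refine Finset.sum_congr rfl fun j _ => ?_
        rw [Pi.smul_apply, smul_eq_mul, mul_assoc] }
  have hπ : ∀ v, π v = φ.symm (Ll e v) := fun v => rfl
  have hπs : Function.Surjective π := by
    intro q
    obtain ⟨v, hv⟩ := hgenl (φ q)
    exact ⟨v, by rw [hπ, hv, AddEquiv.symm_apply_apply]⟩
  have hker : LinearMap.ker π = Zl R e := by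
    ext v
    rw [LinearMap.mem_ker, hπ, mem_Zl]
    constructor
    · intro h x
      have h1 : Ll e v = 0 := by
        rw [← AddEquiv.apply_symm_apply φ (Ll e v), h, map_zero]
      rw [← Ll_apply, h1]
      rfl
    · intro h
      have h1 : Ll e v = 0 := by
        ext x
        rw [Ll_apply]
        exact h x
      rw [h1, map_zero]
  have hext : ∀ g : Zl R e →ₗ[R] R, ∃ G : (Fin r → R) →ₗ[R] R, ∀ z : Zl R e, G z = g z := by
    intro g
    obtain ⟨G, hG⟩ := ext_extend π hπs hExt (g.comp (LinearEquiv.ofEq _ _ hker).toLinearMap)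
    refine ⟨G, fun z => ?_⟩
    exact hG ⟨z.1, by rw [hker]; exact z.2⟩
  have hrowm : ∀ i, M i ∈ Zl R e := by
    intro i
    rw [mem_Zl]
    intro x
    rw [← Ll_apply, hrow]
    rfl
  -- entries of `J Z`
  have hJZ : ∀ w ∈ JZ ε e, ∀ j, w.1 j ∈ Jk ε * Jk ε := by
    intro w hw
    induction hw using Submodule.span_induction with
    | mem w hw =>
      obtain ⟨a, ha, z, rfl⟩ := hw
      intro j
      refine Submodule.mul_mem_mul ha ?_
      have h1 : Ll e z.1 = 0 := by
        ext x
        rw [Ll_apply]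
        exact z.2 x
      exact hrell z.1 h1 j
    | zero => intro j; exact Submodule.zero_mem _
    | add x y _ _ hx hy => intro j; exact Submodule.add_mem _ (hx j) (hy j)
    | smul c x _ hx => intro j; exact Submodule.smul_mem _ c (hx j)
  have hz : (⟨M i, hrowm i⟩ : Zl R e) ∈ JZ ε e := by
    by_contra hz
    obtain ⟨q, hq1, hq0⟩ := Submodule.exists_dual_map_eq_bot_of_notMem hz inferInstance
    have hq0' : ∀ w ∈ JZ ε e, q w = 0 := by
      intro w hw
      have : q w ∈ Submodule.map q (JZ ε e) := ⟨w, hw, rfl⟩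
      rw [hq0] at this
      exact this
    obtain ⟨g, hg⟩ := exists_g ε e f hgen hrel i q (fun a z => by
      obtain ⟨b, hb, hab⟩ := decomp ε a
      have h1 : q (b • z) = 0 := hq0' _ (Submodule.subset_span ⟨b, hb, z, rfl⟩)
      conv_lhs => rw [hab, add_smul, map_add, h1, add_zero, algebraMap_smul, map_smul, smul_eq_mul])
    obtain ⟨G, hG⟩ := hext g
    have hval : ∀ l, g ⟨M l, hrowm l⟩ = ∑ j, M l j * G (Pi.single j 1) := by
      intro l
      rw [← hG]
      show G (M l) = _
      conv_lhs => rw [← Finset.univ_sum_single (M l), map_sum]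
      refine Finset.sum_congr rfl fun j _ => ?_
      have : (Pi.single j (M l j) : Fin r → R) = M l j • Pi.single j 1 := by
        rw [← Pi.single_smul, smul_eq_mul, mul_one]
      rw [this, map_smul, smul_eq_mul]
    have h1 : ∑ l, f l (g ⟨M l, hrowm l⟩) = q ⟨M i, hrowm i⟩ := by
      rw [Finset.sum_eq_single i]
      · rw [hg, if_pos rfl]
      · intro l _ hl
        rw [hg, if_neg hl]
      · intro hi
        exact absurd (Finset.mem_univ i) hi
    have h2 : ∑ l, f l (g ⟨M l, hrowm l⟩) = 0 := by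
      have h3 : ∀ l, f l (g ⟨M l, hrowm l⟩) = ∑ j, f l (M l j * G (Pi.single j 1)) := by
        intro l
        rw [hval, map_sum]
      rw [Finset.sum_congr rfl fun l _ => h3 l, Finset.sum_comm]
      refine Finset.sum_eq_zero fun j _ => ?_
      have h4 := congrArg (fun u => u (G (Pi.single j 1))) (hcol j)
      simp only [Lr_apply, LinearMap.zero_apply] at h4
      exact h4
    exact hq1 (h1.symm.trans h2)
  exact hJZ _ hz j

end NL63
end

section

set_option autoImplicit false

open Module CategoryTheory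

namespace NL63

variable {k : Type} [Field k] {R : Type} [Ring R] [Algebra k R]

/-- rows and columns -/
noncomputable def Th {r r' : ℕ} (e : Fin r → (R →ₗ[k] k)) (f : Fin r' → (R →ₗ[k] k)) :
    (Fin r' → Fin r → R) →ₗ[k] ((Fin r' → (R →ₗ[k] k)) × (Fin r → (R →ₗ[k] k))) where
  toFun M := (fun i => Ll e (M i), fun j => Lr f (fun i => M i j))
  map_add' M N := by
    refine Prod.ext ?_ ?_
    · ext i x
      show Ll e (M i + N i) x = _
      rw [map_add]
      rfl
    · ext j x
      show Lr f ((fun i => M i j) + (fun i => N i j)) x = _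
      rw [map_add]
      rfl
  map_smul' c M := by
    refine Prod.ext ?_ ?_
    · ext i x
      show Ll e (c • M i) x = _
      rw [map_smul]
      rfl
    · ext j x
      show Lr f (c • (fun i => M i j)) x = _
      rw [map_smul]
      rfl

lemma Th_apply {r r' : ℕ} (e : Fin r → (R →ₗ[k] k)) (f : Fin r' → (R →ₗ[k] k))
    (M : Fin r' → Fin r → R) :
    Th e f M = (fun i => Ll e (M i), fun j => Lr f (fun i => M i j)) := rfl

/-- comparison of coordinates -/
noncomputable def De {r r' : ℕ} (Γl : Fin r → ((R →ₗ[k] k) →ₗ[k] k))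
    (Γr : Fin r' → ((R →ₗ[k] k) →ₗ[k] k)) :
    ((Fin r' → (R →ₗ[k] k)) × (Fin r → (R →ₗ[k] k))) →ₗ[k] (Fin r' → Fin r → k) where
  toFun p := fun i j => Γl j (p.1 i) - Γr i (p.2 j)
  map_add' p q := by
    ext i j
    simp only [Prod.fst_add, Prod.snd_add, Pi.add_apply, map_add]
    ring
  map_smul' c p := by
    ext i j
    simp only [Prod.smul_fst, Prod.smul_snd, Pi.smul_apply, map_smul, smul_eq_mul,
      RingHom.id_apply]
    ring

theorem ineq {r r' : ℕ} [Module.Finite k R] [HasExt.{0} (ModuleCat.{0} R)]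
    (ε : R →ₐ[k] k) (e : Fin r → (R →ₗ[k] k)) (f : Fin r' → (R →ₗ[k] k))
    (hgenl : Function.Surjective (Ll e)) (hrell : ∀ w, Ll e w = 0 → ∀ i, ε (w i) = 0)
    (hgen : Function.Surjective (Lr f)) (hrel : ∀ w, Lr f w = 0 → ∀ i, ε (w i) = 0)
    (Q : ModuleCat.{0} R) (φ : Q ≃+ (R →ₗ[k] k))
    (hφ : ∀ (r : R) (q : Q) (x : R), φ (r • q) x = φ q (x * r))
    (hExt : Subsingleton (Abelian.Ext.{0} Q (ModuleCat.of R R) 1)) :
    r * r' * (finrank k R + 1)
      ≤ (r + r') * finrank k R + r * r' * finrank k (Jk ε * Jk ε : Submodule k R) := by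
  choose Γl hΓl using exists_Gl ε e hgenl hrell
  choose Γr hΓr using exists_Gr ε f hgen hrel
  -- kernel of `Th`
  have h1 : finrank k (LinearMap.ker (Th e f))
      ≤ r' * (r * finrank k (Jk ε * Jk ε : Submodule k R)) := by
    have hmem : ∀ M ∈ LinearMap.ker (Th e f), ∀ i j, M i j ∈ Jk ε * Jk ε := by
      intro M hM i j
      rw [LinearMap.mem_ker, Th_apply, Prod.mk_eq_zero] at hM
      exact mat_mem ε e f hgenl hrell hgen hrel Q φ hφ hExt M (fun i => congrFun hM.1 i)
        (fun j => congrFun hM.2 j) i j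
    let g : LinearMap.ker (Th e f) →ₗ[k] (Fin r' → Fin r → (Jk ε * Jk ε : Submodule k R)) :=
      { toFun := fun M i j => ⟨M.1 i j, hmem M.1 M.2 i j⟩
        map_add' := fun M N => rfl
        map_smul' := fun c M => rfl }
    have hg : Function.Injective g := by
      intro M N hMN
      ext i j
      have := congrArg Subtype.val (congrFun (congrFun hMN i) j)
      exact this
    have h2 := LinearMap.finrank_le_finrank_of_injective hg
    rw [Module.finrank_pi_fintype] at h2
    simp only [Module.finrank_pi_fintype, Finset.sum_const, Finset.card_univ, Fintype.card_fin,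
      smul_eq_mul] at h2
    exact h2
  have hDe : Function.Surjective (De Γl Γr) := by
    intro c
    refine ⟨(fun i => Ll e (fun j => algebraMap k R (c i j)), 0), ?_⟩
    ext i j
    show Γl j (Ll e (fun j => algebraMap k R (c i j))) - Γr i ((0 : Fin r → (R →ₗ[k] k)) j) = c i j
    rw [hΓl, Pi.zero_apply, map_zero, sub_zero, AlgHom.commutes, Algebra.algebraMap_self_apply]
  have hle : LinearMap.range (Th e f) ≤ LinearMap.ker (De Γl Γr) := by
    rintro _ ⟨M, rfl⟩
    rw [LinearMap.mem_ker, Th_apply]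
    ext i j
    show Γl j (Ll e (M i)) - Γr i (Lr f (fun i => M i j)) = 0
    rw [hΓl, hΓr, sub_self]
  have h3 := LinearMap.finrank_range_add_finrank_ker (Th e f)
  have h4 := LinearMap.finrank_range_add_finrank_ker (De Γl Γr)
  have h5 : finrank k (LinearMap.range (Th e f)) ≤ finrank k (LinearMap.ker (De Γl Γr)) :=
    Submodule.finrank_mono hle
  have h6 : finrank k (LinearMap.range (De Γl Γr)) = r' * r := by
    rw [LinearMap.range_eq_top.mpr hDe, finrank_top, Module.finrank_pi_fintype]
    simp only [Module.finrank_pi_fintype, Finset.sum_const, Finset.card_univ, Fintype.card_fin,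
      smul_eq_mul, Module.finrank_self, mul_one]
  have hdual : finrank k (R →ₗ[k] k) = finrank k R := Subspace.dual_finrank_eq
  have h7 : finrank k (Fin r' → Fin r → R) = r' * (r * finrank k R) := by
    rw [Module.finrank_pi_fintype]
    simp only [Module.finrank_pi_fintype, Finset.sum_const, Finset.card_univ, Fintype.card_fin,
      smul_eq_mul]
  have h8 : finrank k ((Fin r' → (R →ₗ[k] k)) × (Fin r → (R →ₗ[k] k)))
      = r' * finrank k R + r * finrank k R := by
    rw [Module.finrank_prod, Module.finrank_pi_fintype, Module.finrank_pi_fintype]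
    simp only [Finset.sum_const, Finset.card_univ, Fintype.card_fin, smul_eq_mul, hdual]
  rw [h7] at h3
  rw [h6, h8] at h4
  have h9 : r * r' * (finrank k R + 1) = r' * (r * finrank k R) + r' * r := by ring
  have h10 : r * r' * finrank k (Jk ε * Jk ε : Submodule k R)
      = r' * (r * finrank k (Jk ε * Jk ε : Submodule k R)) := by ring
  have h11 : (r + r') * finrank k R = r' * finrank k R + r * finrank k R := by ring
  rw [h9, h10, h11]
  omega

end NL63
end

section

set_option autoImplicit false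

open Module CategoryTheory

namespace NL63

variable {k : Type} [Field k] {R : Type} [Ring R] [Algebra k R]

/-- a nonzero element has a nonzero right multiple killed by `J` -/
lemma exists_right (ε : R →ₐ[k] k) (hnil : ∃ n, (Jk ε) ^ n = ⊥) (y : R) (hy : y ≠ 0) :
    ∃ b : R, y * b ≠ 0 ∧ ∀ a, ε a = 0 → (y * b) * a = 0 := by
  obtain ⟨n, hn⟩ := hnil
  by_contra hcon
  push Not at hcon
  have key : ∀ m : ℕ, ∃ b ∈ (Jk ε) ^ m, y * b ≠ 0 := by
    intro m
    induction m with
    | zero =>
      refine ⟨1, ?_, by rwa [mul_one]⟩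
      rw [pow_zero]
      exact Submodule.one_le.mp le_rfl
    | succ m ih =>
      obtain ⟨b, hb, hyb⟩ := ih
      obtain ⟨a, ha, hyba⟩ := hcon b hyb
      refine ⟨b * a, ?_, by rwa [← mul_assoc]⟩
      rw [pow_succ]
      exact Submodule.mul_mem_mul hb ha
  obtain ⟨b, hb, hyb⟩ := key n
  rw [hn, Submodule.mem_bot] at hb
  rw [hb, mul_zero] at hyb
  exact hyb rfl

/-- a nonzero element has a nonzero left multiple killed by `J` -/
lemma exists_left (ε : R →ₐ[k] k) (hnil : ∃ n, (Jk ε) ^ n = ⊥) (y : R) (hy : y ≠ 0) :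
    ∃ b : R, b * y ≠ 0 ∧ ∀ a, ε a = 0 → a * (b * y) = 0 := by
  obtain ⟨n, hn⟩ := hnil
  by_contra hcon
  push Not at hcon
  have key : ∀ m : ℕ, ∃ b ∈ (Jk ε) ^ m, b * y ≠ 0 := by
    intro m
    induction m with
    | zero =>
      refine ⟨1, ?_, by rwa [one_mul]⟩
      rw [pow_zero]
      exact Submodule.one_le.mp le_rfl
    | succ m ih =>
      obtain ⟨b, hb, hyb⟩ := ih
      obtain ⟨a, ha, hyba⟩ := hcon b hyb
      refine ⟨a * b, ?_, by rwa [mul_assoc]⟩
      rw [pow_succ']
      exact Submodule.mul_mem_mul ha hb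
  obtain ⟨b, hb, hyb⟩ := key n
  rw [hn, Submodule.mem_bot] at hb
  rw [hb, zero_mul] at hyb
  exact hyb rfl

/-- functionals dual to a basis of a subspace -/
lemma exists_dual_family [Module.Finite k R] (S : Submodule k R) :
    ∃ (s : Basis (Fin (finrank k S)) k S) (e : Fin (finrank k S) → (R →ₗ[k] k)),
      ∀ i j, e j (s i : R) = if i = j then 1 else 0 := by
  let s := Module.finBasis k S
  have h1 : ∀ j, ∃ g : R →ₗ[k] k, g.comp S.subtype = s.coord j := by
    intro j
    exact LinearMap.exists_extend (s.coord j)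
  choose e he using h1
  refine ⟨s, e, fun i j => ?_⟩
  have h2 := congrArg (fun u => u (s i)) (he j)
  simp only [LinearMap.comp_apply, Submodule.subtype_apply, Basis.coord_apply, Basis.repr_self] at h2
  rw [h2, Finsupp.single_apply]

/-- a subspace of functionals without common zeros is everything -/
lemma surj_of_sep [Module.Finite k R] {V : Type} [AddCommGroup V] [Module k V]
    (L : V →ₗ[k] (R →ₗ[k] k)) (h : ∀ y : R, (∀ v, L v y = 0) → y = 0) :
    Function.Surjective L := by
  rw [← LinearMap.range_eq_top]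
  by_contra hne
  obtain ⟨g, hg⟩ : ∃ g, g ∉ LinearMap.range L := by
    by_contra hcon
    push Not at hcon
    exact hne (eq_top_iff.mpr fun g _ => hcon g)
  obtain ⟨u, hu1, hu0⟩ := Submodule.exists_dual_map_eq_bot_of_notMem hg inferInstance
  let ev := Module.evalEquiv k R
  have hev : ∀ y : R →ₗ[k] k, y (ev.symm u) = u y := by
    intro y
    have h1 := congrArg (fun w => w y) (ev.apply_symm_apply u)
    exact h1
  have h2 : ev.symm u = 0 := by
    apply h
    intro v
    rw [hev]
    have : u (L v) ∈ Submodule.map u (LinearMap.range L) := ⟨L v, ⟨v, rfl⟩, rfl⟩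
    rw [hu0] at this
    exact this
  apply hu1
  rw [← hev, h2, map_zero]

theorem ineq_local [Module.Finite k R] [HasExt.{0} (ModuleCat.{0} R)]
    (ε : R →ₐ[k] k) (hnil : ∃ n, (Jk ε) ^ n = ⊥)
    (S S' : Submodule k R) (hS : ∀ x, x ∈ S ↔ ∀ a, ε a = 0 → x * a = 0)
    (hS' : ∀ x, x ∈ S' ↔ ∀ a, ε a = 0 → a * x = 0)
    (Q : ModuleCat.{0} R) (φ : Q ≃+ (R →ₗ[k] k))
    (hφ : ∀ (r : R) (q : Q) (x : R), φ (r • q) x = φ q (x * r))
    (hExt : Subsingleton (Abelian.Ext.{0} Q (ModuleCat.of R R) 1)) :
    finrank k S * finrank k S' * (finrank k R + 1)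
      ≤ (finrank k S + finrank k S') * finrank k R
        + finrank k S * finrank k S' * finrank k (Jk ε * Jk ε : Submodule k R) := by
  obtain ⟨s, e, he⟩ := exists_dual_family S
  obtain ⟨s', f, hf⟩ := exists_dual_family S'
  have hsa : ∀ (i) (a : R), (s i : R) * a = ε a • (s i : R) := by
    intro i a
    obtain ⟨b, hb, hab⟩ := decomp ε a
    conv_lhs => rw [hab, mul_add, (hS _).mp (s i).2 b hb, add_zero, Algebra.algebraMap_eq_smul_one,
      mul_smul_comm, mul_one]
  have hsa' : ∀ (i) (a : R), a * (s' i : R) = ε a • (s' i : R) := by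
    intro i a
    obtain ⟨b, hb, hab⟩ := decomp ε a
    conv_lhs => rw [hab, add_mul, (hS' _).mp (s' i).2 b hb, add_zero,
      Algebra.algebraMap_eq_smul_one, smul_mul_assoc, one_mul]
  refine ineq ε e f ?_ ?_ ?_ ?_ Q φ hφ hExt
  · -- left generation
    apply surj_of_sep
    intro y hy
    by_contra hy0
    obtain ⟨b, hb, hba⟩ := exists_right ε hnil y hy0
    have hbS : y * b ∈ S := (hS _).mpr hba
    apply hb
    have h1 : ∀ j, e j (y * b) = 0 := by
      intro j
      have h2 := hy (Pi.single j b)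
      rw [Ll_apply, Finset.sum_eq_single j] at h2
      · rwa [Pi.single_eq_same] at h2
      · intro l _ hl
        rw [Pi.single_eq_of_ne hl, mul_zero, map_zero]
      · intro hj
        exact absurd (Finset.mem_univ j) hj
    have h3 : (⟨y * b, hbS⟩ : S) = 0 := by
      apply s.repr.injective
      rw [map_zero]
      ext j
      have h4 : y * b = ∑ i, (s.repr ⟨y * b, hbS⟩ i) • (s i : R) := by
        have h5 := congrArg Subtype.val (s.sum_repr ⟨y * b, hbS⟩)
        refine h5.symm.trans ?_
        rw [Submodule.coe_sum]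
        rfl
      have h6 := h1 j
      rw [h4, map_sum, Finset.sum_eq_single j] at h6
      · rw [map_smul, he, if_pos rfl, smul_eq_mul, mul_one] at h6
        exact h6
      · intro l _ hl
        rw [map_smul, he, if_neg hl, smul_zero]
      · intro hj
        exact absurd (Finset.mem_univ j) hj
    exact congrArg Subtype.val h3
  · intro w hw i
    have h1 := congrArg (fun u => u (s i : R)) hw
    simp only [Ll_apply, LinearMap.zero_apply] at h1
    rw [Finset.sum_eq_single i] at h1
    · rw [hsa, map_smul, he, if_pos rfl, smul_eq_mul, mul_one] at h1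
      exact h1
    · intro l _ hl
      rw [hsa, map_smul, he, if_neg (Ne.symm hl), smul_zero]
    · intro hj
      exact absurd (Finset.mem_univ i) hj
  · apply surj_of_sep
    intro y hy
    by_contra hy0
    obtain ⟨b, hb, hba⟩ := exists_left ε hnil y hy0
    have hbS : b * y ∈ S' := (hS' _).mpr hba
    apply hb
    have h1 : ∀ j, f j (b * y) = 0 := by
      intro j
      have h2 := hy (Pi.single j b)
      rw [Lr_apply, Finset.sum_eq_single j] at h2
      · rwa [Pi.single_eq_same] at h2
      · intro l _ hl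
        rw [Pi.single_eq_of_ne hl, zero_mul, map_zero]
      · intro hj
        exact absurd (Finset.mem_univ j) hj
    have h3 : (⟨b * y, hbS⟩ : S') = 0 := by
      apply s'.repr.injective
      rw [map_zero]
      ext j
      have h4 : b * y = ∑ i, (s'.repr ⟨b * y, hbS⟩ i) • (s' i : R) := by
        have h5 := congrArg Subtype.val (s'.sum_repr ⟨b * y, hbS⟩)
        refine h5.symm.trans ?_
        rw [Submodule.coe_sum]
        rfl
      have h6 := h1 j
      rw [h4, map_sum, Finset.sum_eq_single j] at h6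
      · rw [map_smul, hf, if_pos rfl, smul_eq_mul, mul_one] at h6
        exact h6
      · intro l _ hl
        rw [map_smul, hf, if_neg hl, smul_zero]
      · intro hj
        exact absurd (Finset.mem_univ j) hj
    exact congrArg Subtype.val h3
  · intro w hw i
    have h1 := congrArg (fun u => u (s' i : R)) hw
    simp only [Lr_apply, LinearMap.zero_apply] at h1
    rw [Finset.sum_eq_single i] at h1
    · rw [hsa', map_smul, hf, if_pos rfl, smul_eq_mul, mul_one] at h1
      exact h1
    · intro l _ hl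
      rw [hsa', map_smul, hf, if_neg (Ne.symm hl), smul_zero]
    · intro hj
      exact absurd (Finset.mem_univ i) hj

end NL63
end
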