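import Pool.Agent.Lib.MP_63944b_al.C2

set_option autoImplicit false

open Module

namespace T63

variable {k : Type} [Field k] {R : Type} [CommRing R] [Algebra k R]

/-- top degree of `R` -/
def GR.c (G : GR k R) : ℕ := Finset.univ.sup G.dd

lemma GR.dd_le (G : GR k R) (o : Option G.ι) : G.dd o ≤ G.c :=
  Finset.le_sup (f := G.dd) (Finset.mem_univ o)

lemma GR.exists_dd_eq (G : GR k R) : ∃ o, G.dd o = G.c := by
  obtain ⟨o, _, ho⟩ := Finset.exists_mem_eq_sup (Finset.univ : Finset (Option G.ι))
    Finset.univ_nonempty G.dd
  exact ⟨o, ho.symm⟩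

lemma GR.hmul' (G : GR k R) (i : G.ι) (o l : Option G.ι) (h : G.e.repr (G.e (some i) * G.e o) l ≠ 0) :
    G.dd l = G.d i + G.dd o := by
  cases o with
  | none =>
    rw [G.e_none, mul_one, Basis.repr_self] at h
    have : l = some i := by
      by_contra h1
      exact h (by simp [Finsupp.single_apply, Ne.symm h1])
    subst this
    rfl
  | some j => exact G.hmul i j l h

/-- the dual basis, as a basis of `DD k R R` -/
noncomputable def omB (G : GR k R) : Basis (Option G.ι) k (DD k R R) := G.e.dualBasis

lemma omB_repr (G : GR k R) (f : DD k R R) (o : Option G.ι) : (omB G).repr f o = f.ev (G.e o) :=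
  G.e.dualBasis_repr f o

/-- the canonical module `ω = Hom_k(R, k)` as a graded module (degrees `c - dd o`) -/
noncomputable def Om (G : GR k R) : GM G where
  X := DD k R R
  κ := Option G.ι
  b := omB G
  deg := fun o => G.c - G.dd o
  hom := by
    intro i o l h
    rw [omB_repr, DD.ev_smul, smul_eq_mul] at h
    have h1 : (omB G o).ev (G.e (some i) * G.e l) = G.e.repr (G.e (some i) * G.e l) o := by
      show G.e.dualBasis o _ = _
      simp
    rw [h1] at h
    have h2 := G.hmul' i l o h
    have h3 := G.dd_le o
    have h4 := G.dd_le l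
    omega

end T63
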