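import Pool.Agent.Lib.MP_63944b_al.O1
import Pool.Agent.Lib.MP_63944b_al.B2

set_option autoImplicit false

open CategoryTheory Module Polynomial

namespace T63

lemma coeff_sum_X_pow {α : Type} [Fintype α] (f : α → ℕ) (n : ℕ) :
    (∑ a, (X : ℤ[X]) ^ (f a)).coeff n = ((Finset.univ.filter fun a => f a = n).card : ℤ) := by
  rw [Polynomial.finsetSum_coeff, Finset.card_filter, Nat.cast_sum]
  refine Finset.sum_congr rfl fun a _ => ?_
  rw [Polynomial.coeff_X_pow]
  by_cases h : f a = n
  · simp [h]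
  · simp [h, Ne.symm h]

/-- truncation of a sequence to a polynomial -/
noncomputable def trp (f : ℕ → ℤ) (N : ℕ) : ℤ[X] :=
  ∑ i ∈ Finset.range (N + 1), C (f i) * (X : ℤ[X]) ^ i

lemma coeff_trp (f : ℕ → ℤ) (N n : ℕ) (h : ∀ n, N < n → f n = 0) : (trp f N).coeff n = f n := by
  rw [trp, Polynomial.finsetSum_coeff]
  simp only [Polynomial.coeff_C_mul, Polynomial.coeff_X_pow, mul_ite, mul_one, mul_zero]
  rw [Finset.sum_ite_eq]
  by_cases hn : n ≤ N
  · simp [hn]
  · simp [hn, h n (by omega)]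

variable {k : Type} [Field k] {R : Type} [CommRing R] [Algebra k R]

/-- Hilbert polynomial of `R` -/
noncomputable def HP (G : GR k R) : ℤ[X] := ∑ o : Option G.ι, X ^ (G.dd o)

lemma HP_coeff (G : GR k R) (n : ℕ) :
    (HP G).coeff n = ((Finset.univ.filter fun o => G.dd o = n).card : ℤ) :=
  coeff_sum_X_pow G.dd n

lemma HP_coeff_gt (G : GR k R) (n : ℕ) (hn : G.c < n) : (HP G).coeff n = 0 := by
  rw [HP_coeff, Nat.cast_eq_zero, Finset.card_eq_zero, Finset.filter_eq_empty_iff]
  intro o _ h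
  have := G.dd_le o
  omega

lemma HP_coeff_c (G : GR k R) : 0 < (HP G).coeff G.c := by
  rw [HP_coeff, Nat.cast_pos, Finset.card_pos]
  obtain ⟨o, ho⟩ := G.exists_dd_eq
  exact ⟨o, by simp [ho]⟩

lemma HP_natDegree (G : GR k R) : (HP G).natDegree = G.c := by
  refine le_antisymm (Polynomial.natDegree_le_iff_coeff_eq_zero.mpr (HP_coeff_gt G))
    (Polynomial.le_natDegree_of_ne_zero (HP_coeff_c G).ne')

lemma HP_coeff_zero (G : GR k R) : (HP G).coeff 0 = 1 := by
  rw [HP_coeff]
  have : (Finset.univ.filter fun o => G.dd o = 0) = {none} := by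
    ext o
    simp only [Finset.mem_filter, Finset.mem_univ, true_and, Finset.mem_singleton]
    cases o with
    | none => simp [GR.dd]
    | some i =>
      have := G.d_pos i
      simp only [GR.dd, Option.elim_some, reduceCtorEq, iff_false]
      omega
  rw [this]
  simp

lemma HP_reflect (G : GR k R) : (HP G).reflect G.c = ∑ o : Option G.ι, X ^ (G.c - G.dd o) := by
  ext n
  rw [coeff_sum_X_pow (fun o => G.c - G.dd o), Polynomial.coeff_reflect]
  by_cases hn : n ≤ G.c
  · rw [Polynomial.revAt_le hn, HP_coeff]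
    congr 2
    ext o
    have := G.dd_le o
    simp only [Finset.mem_filter, Finset.mem_univ, true_and]
    omega
  · rw [Polynomial.revAt_eq_self_of_lt (by omega), HP_coeff_gt G n (by omega)]
    symm
    rw [Nat.cast_eq_zero, Finset.card_eq_zero, Finset.filter_eq_empty_iff]
    intro o _ h
    omega

lemma HP_coe (G : GR k R) : ((HP G : ℤ[X]) : PowerSeries ℤ) = PR G := by
  ext n
  rw [Polynomial.coeff_coe, HP_coeff, PR, PowerSeries.coeff_mk]

lemma HP_coe2 (G : GR k R) : ((expand ℤ 2 (HP G) : ℤ[X]) : PowerSeries ℤ) = PR2 G := by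
  have : expand ℤ 2 (HP G) = ∑ o : Option G.ι, X ^ (G.dd o + G.dd o) := by
    rw [HP, map_sum]
    refine Finset.sum_congr rfl fun o _ => ?_
    rw [map_pow, expand_X, ← pow_mul, two_mul]
  ext n
  rw [Polynomial.coeff_coe, this, coeff_sum_X_pow (fun o => G.dd o + G.dd o), PR2,
    PowerSeries.coeff_mk]

lemma Om_P (G : GR k R) : P (Om G) = PowerSeries.mk fun n =>
    ((Finset.univ.filter fun o : Option G.ι => G.c - G.dd o = n).card : ℤ) := rfl

lemma Om_P2 (G : GR k R) : P2 (Om G) = PowerSeries.mk fun n =>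
    ((Finset.univ.filter fun o : Option G.ι => (G.c - G.dd o) + (G.c - G.dd o) = n).card : ℤ) := rfl

lemma HP_coeR (G : GR k R) : (((HP G).reflect G.c : ℤ[X]) : PowerSeries ℤ) = P (Om G) := by
  ext n
  rw [Polynomial.coeff_coe, HP_reflect, coeff_sum_X_pow (fun o => G.c - G.dd o), Om_P,
    PowerSeries.coeff_mk]

lemma HP_coeR2 (G : GR k R) :
    ((expand ℤ 2 ((HP G).reflect G.c) : ℤ[X]) : PowerSeries ℤ) = P2 (Om G) := by
  have : expand ℤ 2 ((HP G).reflect G.c)
      = ∑ o : Option G.ι, X ^ ((G.c - G.dd o) + (G.c - G.dd o)) := by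
    rw [HP_reflect, map_sum]
    refine Finset.sum_congr rfl fun o _ => ?_
    rw [map_pow, expand_X, ← pow_mul, two_mul]
  ext n
  rw [Polynomial.coeff_coe, this, coeff_sum_X_pow (fun o => (G.c - G.dd o) + (G.c - G.dd o)),
    Om_P2, PowerSeries.coeff_mk]

end T63
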