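import Pool.Agent.Lib.MP_63944b_al.TR1

section

/-!
# Matrices annihilated by the generators of the dual module, and a length inequality
-/

set_option autoImplicit false

open Module CategoryTheory

namespace TT63

variable {R : Type} [CommRing R] {E : Type} [AddCommGroup E] [Module R E]
variable {ι : Type} [Fintype ι] [DecidableEq ι]

section ext
variable [HasExt.{0} (ModuleCat.{0} R)]

/-- a matrix whose rows and columns are relations of the `e_j` has its entries in `I^2` -/
lemma mat_mem [IsArtinianRing R] (h : IsDual R E) (e : ι → E)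
    (hspan : Submodule.span R (Set.range e) = ⊤) (I : Ideal R)
    (hI : ∀ v ∈ LinearMap.ker (prn R e), ∀ j, v j ∈ I) (hExt : T63.EV R E R 1)
    (M : ι → ι → R) (hrow : ∀ i, ∑ j, M i j • e j = 0) (hcol : ∀ j, ∑ i, M i j • e i = 0)
    (i j : ι) : M i j ∈ I * I := by
  let N : Submodule R (LinearMap.ker (prn R e)) := I • ⊤
  let z : ι → LinearMap.ker (prn R e) := fun i =>
    ⟨M i, by rw [LinearMap.mem_ker, Fintype.linearCombination_apply]; exact hrow i⟩
  have hN : ∀ w ∈ N, ∀ j, w.1 j ∈ I * I := by
    intro w hw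
    refine Submodule.smul_induction_on hw (fun r hr n _ j => ?_) (fun x y hx hy j => ?_)
    · exact Ideal.mul_mem_mul hr (hI n.1 n.2 j)
    · exact (I * I).add_mem (hx j) (hy j)
  have hz : z i ∈ N := by
    by_contra hz
    obtain ⟨q, hq0, hq1⟩ := exists_sep' h N (z i) hz
    obtain ⟨g, hg⟩ := exists_g h e hspan I hI i q (fun r hr w => by
      rw [← map_smul]
      exact hq0 _ (Submodule.smul_mem_smul hr trivial))
    obtain ⟨G, hG⟩ := T63.EV_extend (prn R e) (prn_surj e hspan) hExt g
    have hval : ∀ l : ι, g (z l) = ∑ j, M l j * G (Pi.single j 1) := by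
      intro l
      rw [← hG]
      show G (M l) = _
      conv_lhs => rw [← Finset.univ_sum_single (M l), map_sum]
      refine Finset.sum_congr rfl fun j _ => ?_
      have : (Pi.single j (M l j) : ι → R) = M l j • Pi.single j 1 := by
        rw [← Pi.single_smul, smul_eq_mul, mul_one]
      rw [this, map_smul, smul_eq_mul]
    have h1 : ∑ l, g (z l) • e l = q (z i) := by
      rw [Finset.sum_eq_single i]
      · rw [hg, if_pos rfl]
      · intro l _ hl
        rw [hg, if_neg hl]
      · intro hi
        exact absurd (Finset.mem_univ i) hi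
    have h2 : ∑ l, g (z l) • e l = 0 := by
      have : ∀ l, g (z l) • e l = ∑ j, G (Pi.single j 1) • (M l j • e l) := by
        intro l
        rw [hval, Finset.sum_smul]
        refine Finset.sum_congr rfl fun j _ => ?_
        rw [mul_comm, mul_smul]
      rw [Finset.sum_congr rfl fun l _ => this l, Finset.sum_comm]
      refine Finset.sum_eq_zero fun j _ => ?_
      rw [← Finset.smul_sum, hcol, smul_zero]
    exact hq1 (h1.symm.trans h2)
  exact hN _ hz j

end ext

/-- coordinate functions modulo `I` -/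
lemma exists_coord (e : ι → E) (hspan : Submodule.span R (Set.range e) = ⊤) (I : Ideal R)
    (hI : ∀ v ∈ LinearMap.ker (prn R e), ∀ j, v j ∈ I) :
    ∃ γ : ι → (E →ₗ[R] R ⧸ I), ∀ (v : ι → R) (j : ι), γ j (∑ l, v l • e l) =
      Ideal.Quotient.mk I (v j) := by
  let u : ι → ((ι → R) →ₗ[R] R ⧸ I) := fun j => (Submodule.mkQ I).comp (LinearMap.proj j)
  let w : ι → (((ι → R) ⧸ LinearMap.ker (prn R e)) →ₗ[R] R ⧸ I) := fun j =>
    (LinearMap.ker (prn R e)).liftQ (u j) (fun v hv => by
      rw [LinearMap.mem_ker]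
      show Ideal.Quotient.mk I (v j) = 0
      rw [Ideal.Quotient.eq_zero_iff_mem]
      exact hI v hv j)
  let p := (prn R e).quotKerEquivOfSurjective (prn_surj e hspan)
  refine ⟨fun j => (w j).comp p.symm.toLinearMap, fun v j => ?_⟩
  have h1 : p (Submodule.Quotient.mk v) = ∑ l, v l • e l := by
    show prn R e v = _
    rw [Fintype.linearCombination_apply]
  rw [← h1, LinearMap.comp_apply, LinearEquiv.coe_coe, LinearEquiv.symm_apply_apply]
  rfl

/-- symmetric matrices to `E^ι` -/
noncomputable def symMap (R : Type) [CommRing R] {E : Type} [AddCommGroup E] [Module R E]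
    {ι : Type} [Fintype ι] (e : ι → E) : (Sym2 ι → R) →ₗ[R] (ι → E) where
  toFun m := fun i => ∑ j, m s(i, j) • e j
  map_add' m n := by
    ext i
    simp only [Pi.add_apply, add_smul, Finset.sum_add_distrib]
  map_smul' r m := by
    ext i
    simp only [Pi.smul_apply, smul_eq_mul, mul_smul, Finset.smul_sum, RingHom.id_apply]

lemma symMap_apply (e : ι → E) (m : Sym2 ι → R) (i : ι) :
    symMap R e m i = ∑ j, m s(i, j) • e j := rfl

end TT63
end

section

set_option autoImplicit false

open Module CategoryTheory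

namespace TT63

variable {R : Type} [CommRing R] {E : Type} [AddCommGroup E] [Module R E] {r : ℕ}

/-- pairs `i < j` -/
abbrev LP (r : ℕ) := {p : Fin r × Fin r // p.1 < p.2}

lemma card_LP (r : ℕ) : 2 * Fintype.card (LP r) + r = r * r := by
  have h1 : Fintype.card (LP r)
      = (Finset.univ.filter fun p : Fin r × Fin r => p.1 < p.2).card := Fintype.card_subtype _
  have h2 : (Finset.univ.filter fun p : Fin r × Fin r => p.2 < p.1).card
      = (Finset.univ.filter fun p : Fin r × Fin r => p.1 < p.2).card := by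
    refine Finset.card_bij (fun p _ => (p.2, p.1)) ?_ ?_ ?_
    · intro p hp
      simpa using hp
    · intro p _ q _ h
      simp only [Prod.mk.injEq] at h
      exact Prod.ext h.2 h.1
    · intro q hq
      exact ⟨(q.2, q.1), by simpa using hq, rfl⟩
  have h3 : (Finset.univ.filter fun p : Fin r × Fin r => p.1 = p.2).card = r := by
    have : (Finset.univ.filter fun p : Fin r × Fin r => p.1 = p.2)
        = Finset.univ.map ⟨fun i : Fin r => (i, i), fun i j h => congrArg Prod.fst h⟩ := by
      ext ⟨i, j⟩
      simp only [Finset.mem_filter, Finset.mem_univ, true_and, Finset.mem_map,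
        Function.Embedding.coeFn_mk, Prod.mk.injEq]
      constructor
      · rintro rfl; exact ⟨i, rfl, rfl⟩
      · rintro ⟨a, rfl, rfl⟩; rfl
    rw [this, Finset.card_map, Finset.card_univ, Fintype.card_fin]
  have h4 : (Finset.univ : Finset (Fin r × Fin r)).card = r * r := by
    rw [Finset.card_univ, Fintype.card_prod, Fintype.card_fin]
  have h5 : (Finset.univ : Finset (Fin r × Fin r))
      = ((Finset.univ.filter fun p : Fin r × Fin r => p.1 < p.2)
        ∪ (Finset.univ.filter fun p : Fin r × Fin r => p.2 < p.1))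
        ∪ (Finset.univ.filter fun p : Fin r × Fin r => p.1 = p.2) := by
    ext ⟨i, j⟩
    simp only [Finset.mem_univ, Finset.mem_union, Finset.mem_filter, true_and, true_iff]
    rcases lt_trichotomy i j with h | h | h
    · exact Or.inl (Or.inl h)
    · exact Or.inr h
    · exact Or.inl (Or.inr h)
  have h6 := congrArg Finset.card h5
  rw [h4, Finset.card_union_of_disjoint, Finset.card_union_of_disjoint, h2, h3] at h6
  · omega
  · rw [Finset.disjoint_left]
    rintro ⟨i, j⟩ h7 h8
    simp only [Finset.mem_filter, Finset.mem_univ, true_and] at h7 h8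
    exact absurd h7 (not_lt.mpr h8.le)
  · rw [Finset.disjoint_left]
    rintro ⟨i, j⟩ h7 h8
    simp only [Finset.mem_filter, Finset.mem_univ, true_and, Finset.mem_union] at h7 h8
    subst h8
    simp at h7

lemma card_sym2 (r : ℕ) : 2 * Fintype.card (Sym2 (Fin r)) = r * (r + 1) := by
  rw [Sym2.card, Fintype.card_fin, Nat.choose_two_right, Nat.add_sub_cancel, mul_comm (r + 1) r]
  exact Nat.mul_div_cancel' (Nat.even_mul_succ_self r).two_dvd

/-- `E^r → (R/I)^(pairs)` -/
noncomputable def betaMap (I : Ideal R) (γ : Fin r → (E →ₗ[R] R ⧸ I)) :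
    (Fin r → E) →ₗ[R] (LP r → R ⧸ I) where
  toFun y := fun p => γ p.1.2 (y p.1.1) - γ p.1.1 (y p.1.2)
  map_add' y z := by
    ext p
    simp only [Pi.add_apply, map_add]
    abel
  map_smul' a y := by
    ext p
    simp only [Pi.smul_apply, map_smul, RingHom.id_apply, smul_sub]

lemma betaMap_apply (I : Ideal R) (γ : Fin r → (E →ₗ[R] R ⧸ I)) (y : Fin r → E) (p : LP r) :
    betaMap I γ y p = γ p.1.2 (y p.1.1) - γ p.1.1 (y p.1.2) := rfl

lemma betaMap_surj (e : Fin r → E) (I : Ideal R) (γ : Fin r → (E →ₗ[R] R ⧸ I))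
    (hγ : ∀ (v : Fin r → R) (j : Fin r), γ j (∑ l, v l • e l) = Ideal.Quotient.mk I (v j)) :
    Function.Surjective (betaMap I γ) := by
  intro c
  have hc : ∀ p, ∃ a : R, Ideal.Quotient.mk I a = c p := fun p => Ideal.Quotient.mk_surjective _
  choose d hd using hc
  refine ⟨fun i => ∑ l, (if h : i < l then d ⟨(i, l), h⟩ else 0) • e l, ?_⟩
  ext p
  rw [betaMap_apply, hγ, hγ, dif_pos p.2, dif_neg (not_lt.mpr p.2.le), map_zero, sub_zero, hd]

lemma beta_sym (e : Fin r → E) (I : Ideal R) (γ : Fin r → (E →ₗ[R] R ⧸ I))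
    (hγ : ∀ (v : Fin r → R) (j : Fin r), γ j (∑ l, v l • e l) = Ideal.Quotient.mk I (v j))
    (m : Sym2 (Fin r) → R) : betaMap I γ (symMap R e m) = 0 := by
  ext p
  rw [betaMap_apply, symMap_apply, symMap_apply, hγ, hγ, Sym2.eq_swap, sub_self]
  rfl

theorem length_ineq [IsArtinianRing R] [HasExt.{0} (ModuleCat.{0} R)] (h : IsDual R E)
    (hr : 0 < r) (e : Fin r → E)
    (hspan : Submodule.span R (Set.range e) = ⊤) (I : Ideal R)
    (hI : ∀ v : Fin r → R, ∑ j, v j • e j = 0 → ∀ j, v j ∈ I) (hExt : T63.EV R E R 1) :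
    (r + 1 : ℕ) * Module.length R (R ⧸ I ^ 2) + (r - 1 : ℕ) * Module.length R (R ⧸ I)
      ≤ 2 * Module.length R R := by
  have hI' : ∀ v ∈ LinearMap.ker (prn R e), ∀ j, v j ∈ I := by
    intro v hv j
    rw [LinearMap.mem_ker, Fintype.linearCombination_apply] at hv
    exact hI v hv j
  obtain ⟨γ, hγ⟩ := exists_coord e hspan I hI'
  -- the kernel of `symMap` lies in `I^2`
  have hker : ∀ m ∈ LinearMap.ker (symMap R e), ∀ s, m s ∈ I ^ 2 := by
    intro m hm s
    induction s using Sym2.ind with
    | _ i j =>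
      rw [pow_two]
      have h0 : ∀ i, ∑ j, m s(i, j) • e j = 0 := by
        intro i
        exact congrFun (LinearMap.mem_ker.mp hm) i
      refine mat_mem h e hspan I hI' hExt (fun i j => m s(i, j)) h0 (fun j => ?_) i j
      rw [← h0 j]
      refine Finset.sum_congr rfl fun i _ => ?_
      rw [Sym2.eq_swap]
  -- lengths
  have hN : Module.length R R ≠ ⊤ := Module.length_ne_top
  have l1 := Module.length_eq_add_of_exact (LinearMap.ker (symMap R e)).subtype
    (symMap R e).rangeRestrict (Submodule.subtype_injective _) (LinearMap.surjective_rangeRestrict _)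
    (by
      rw [LinearMap.exact_iff, LinearMap.ker_rangeRestrict, Submodule.range_subtype])
  have l2 : Module.length R (LinearMap.ker (symMap R e))
      ≤ Fintype.card (Sym2 (Fin r)) * Module.length R (I ^ 2 : Ideal R) := by
    let f : LinearMap.ker (symMap R e) →ₗ[R] (Sym2 (Fin r) → (I ^ 2 : Ideal R)) :=
      { toFun := fun m s => ⟨m.1 s, hker m.1 m.2 s⟩
        map_add' := fun m n => rfl
        map_smul' := fun a m => rfl }
    have hf : Function.Injective f := by
      intro m n hmn
      ext s
      have := congrArg Subtype.val (congrFun hmn s)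
      exact this
    refine (Module.length_le_of_injective f hf).trans ?_
    rw [Module.length_pi_of_fintype, Finset.sum_const, Finset.card_univ, nsmul_eq_mul]
  have l3 := Module.length_eq_add_of_exact (LinearMap.ker (betaMap I γ)).subtype
    (betaMap I γ) (Submodule.subtype_injective _) (betaMap_surj e I γ hγ)
    (LinearMap.exact_subtype_ker_map _)
  have l4 : Module.length R (LinearMap.range (symMap R e))
      ≤ Module.length R (LinearMap.ker (betaMap I γ)) := by
    have hle : LinearMap.range (symMap R e) ≤ LinearMap.ker (betaMap I γ) := by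
      rintro _ ⟨m, rfl⟩
      exact beta_sym e I γ hγ m
    exact Module.length_le_of_injective (Submodule.inclusion hle) (Submodule.inclusion_injective hle)
  have l5 := Module.length_eq_add_of_exact (I ^ 2 : Ideal R).subtype (Submodule.mkQ (I ^ 2 : Ideal R))
    (Submodule.subtype_injective _) (Submodule.mkQ_surjective _) (LinearMap.exact_subtype_mkQ _)
  have l6 := length_E h
  rw [Module.length_pi_of_fintype, Finset.sum_const, Finset.card_univ, nsmul_eq_mul] at l1 l3
  rw [Module.length_pi_of_fintype, Finset.sum_const, Finset.card_univ, nsmul_eq_mul,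
    Fintype.card_fin] at l3
  -- pass to natural numbers
  have hfin : ∀ {M : Type} [AddCommGroup M] [Module R M] (f : R →ₗ[R] M),
      Function.Surjective f → Module.length R M ≠ ⊤ := by
    intro M _ _ f hf htop
    have := Module.length_le_of_surjective f hf
    rw [htop, top_le_iff] at this
    exact hN this
  obtain ⟨N, hN'⟩ := ENat.ne_top_iff_exists.mp hN
  obtain ⟨a, ha⟩ := ENat.ne_top_iff_exists.mp (hfin (Submodule.mkQ (I ^ 2 : Ideal R))
    (Submodule.mkQ_surjective _))
  obtain ⟨b, hb⟩ := ENat.ne_top_iff_exists.mp (hfin (Submodule.mkQ I) (Submodule.mkQ_surjective _))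
  have hi2 : Module.length R (I ^ 2 : Ideal R) ≠ ⊤ := by
    intro htop
    rw [htop, top_add] at l5
    exact hN l5
  obtain ⟨i2, hi2⟩ := ENat.ne_top_iff_exists.mp hi2
  have hlE : Module.length R E ≠ ⊤ := by
    intro htop
    rw [htop, top_le_iff] at l6
    exact hN l6
  obtain ⟨lE, hlE⟩ := ENat.ne_top_iff_exists.mp hlE
  rw [← hN'] at l1 l5 l6
  rw [← hi2] at l2 l5
  rw [← hlE] at l3 l6
  rw [← ha] at l5
  rw [← hb] at l3
  have hk : Module.length R (LinearMap.ker (symMap R e)) ≠ ⊤ := by
    intro htop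
    rw [htop, top_le_iff] at l2
    exact ENat.coe_ne_top (Fintype.card (Sym2 (Fin r)) * i2) (by push_cast; exact l2)
  obtain ⟨kk, hkk⟩ := ENat.ne_top_iff_exists.mp hk
  have hkb : Module.length R (LinearMap.ker (betaMap I γ)) ≠ ⊤ := by
    intro htop
    rw [htop, top_add] at l3
    exact ENat.coe_ne_top (r * lE) (by push_cast; exact l3)
  obtain ⟨kb, hkb'⟩ := ENat.ne_top_iff_exists.mp hkb
  have hrg : Module.length R (LinearMap.range (symMap R e)) ≠ ⊤ := by
    intro htop
    rw [htop, top_le_iff] at l4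
    exact hkb l4
  obtain ⟨rg, hrg⟩ := ENat.ne_top_iff_exists.mp hrg
  rw [← hkk] at l1 l2
  rw [← hrg] at l1 l4
  rw [← hkb'] at l3 l4
  rw [← ha, ← hb, ← hN']
  norm_cast at l1 l2 l3 l4 l5 l6 ⊢
  have c1 := card_sym2 r
  have c2 := card_LP r
  set S := Fintype.card (Sym2 (Fin r))
  set P := Fintype.card (LP r)
  have s1 : S * a ≤ rg := by
    have : S * N = S * i2 + S * a := by rw [l5, mul_add]
    omega
  have s2 : S * a + P * b ≤ r * N := by
    have : r * lE ≤ r * N := Nat.mul_le_mul_left r l6
    omega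
  obtain ⟨q, rfl⟩ : ∃ q, r = q + 1 := ⟨r - 1, by omega⟩
  rw [Nat.add_sub_cancel]
  have c3 : 2 * P = (q + 1) * q := by
    have : (q + 1) * (q + 1) = (q + 1) * q + (q + 1) := by ring
    omega
  have s3 : (q + 1) * ((q + 1 + 1) * a + q * b) ≤ (q + 1) * (2 * N) := by
    calc (q + 1) * ((q + 1 + 1) * a + q * b)
        = ((q + 1) * (q + 1 + 1)) * a + ((q + 1) * q) * b := by ring
      _ = 2 * (S * a + P * b) := by rw [← c1, ← c3]; ring
      _ ≤ 2 * ((q + 1) * N) := Nat.mul_le_mul_left 2 s2
      _ = (q + 1) * (2 * N) := by ring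
  exact Nat.le_of_mul_le_mul_left s3 (Nat.succ_pos q)

end TT63
end
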