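import Pool.Agent.Lib.MP_63944b_al.TT6

/-!
# The trace ideal of the dual module

`R` commutative artinian, `E` an injective hull of `R / J`, generated by `e_j`, all coefficients of
relations between the `e_j` in the ideal `I`. If there are at least three generators and
`Ext^1(E, R) = 0` then `φ(e_a) ∈ I^2` for every `φ : E → R`.
-/

set_option autoImplicit false

open Module CategoryTheory

namespace TT63

variable {R : Type} [CommRing R] {E : Type} [AddCommGroup E] [Module R E]

/-- elements outside a submodule are detected by maps to `E` -/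
lemma exists_sep' [IsArtinianRing R] (h : IsDual R E) {V : Type} [AddCommGroup V] [Module R V]
    (N : Submodule R V) (v : V) (hv : v ∉ N) :
    ∃ q : V →ₗ[R] E, (∀ n ∈ N, q n = 0) ∧ q v ≠ 0 := by
  have hv' : N.mkQ v ≠ 0 := fun h0 => hv ((Submodule.Quotient.mk_eq_zero N).mp h0)
  have h1 : LinearMap.ker (LinearMap.toSpanSingleton R (V ⧸ N) (N.mkQ v)) ≠ ⊤ := by
    intro h2
    have : (1 : R) ∈ LinearMap.ker (LinearMap.toSpanSingleton R (V ⧸ N) (N.mkQ v)) := by
      rw [h2]; trivial
    rw [LinearMap.mem_ker, LinearMap.toSpanSingleton_apply, one_smul] at this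
    exact hv' this
  obtain ⟨m, hm, hle⟩ := Ideal.exists_le_maximal _ h1
  obtain ⟨e, he, hme⟩ := exists_simple_elt h m
  obtain ⟨q, hq⟩ := exists_map h (N.mkQ v) e (fun r hr => hme r (hle (by
    rw [LinearMap.mem_ker, LinearMap.toSpanSingleton_apply]; exact hr)))
  refine ⟨q.comp N.mkQ, fun n hn => ?_, ?_⟩
  · rw [LinearMap.comp_apply, show N.mkQ n = 0 from (Submodule.Quotient.mk_eq_zero N).mpr hn,
      map_zero]
  · rw [LinearMap.comp_apply, hq]
    exact he

variable {ι : Type} [Fintype ι] [DecidableEq ι]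

/-- the presentation `R^ι → E` -/
noncomputable abbrev prn (R : Type) [CommRing R] {E : Type} [AddCommGroup E] [Module R E]
    {ι : Type} [Fintype ι] (e : ι → E) : (ι → R) →ₗ[R] E := Fintype.linearCombination R e

lemma prn_single (e : ι → E) (j : ι) (a : R) : prn R e (Pi.single j a) = a • e j := by
  rw [Fintype.linearCombination_apply_single]

lemma prn_surj (e : ι → E) (hspan : Submodule.span R (Set.range e) = ⊤) :
    Function.Surjective (prn R e) := by
  rw [← LinearMap.range_eq_top, Fintype.range_linearCombination, hspan]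

lemma smul_ext [IsArtinianRing R] (h : IsDual R E) (e : ι → E)
    (hspan : Submodule.span R (Set.range e) = ⊤) (r s : R) (hrs : ∀ j, r • e j = s • e j) :
    r = s := by
  have h1 : r - s = 0 := by
    refine faithful h _ fun x => ?_
    have hx : x ∈ Submodule.span R (Set.range e) := by rw [hspan]; trivial
    induction hx using Submodule.span_induction with
    | mem x hx =>
      obtain ⟨j, rfl⟩ := hx
      rw [sub_smul, hrs, sub_self]
    | zero => rw [smul_zero]
    | add x y _ _ hx hy => rw [smul_add, hx, hy, add_zero]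
    | smul a x _ hx => rw [smul_comm, hx, smul_zero]
  exact sub_eq_zero.mp h1

/-- the map `Z → R` attached to `q : Z → E` and the index `c` -/
lemma exists_g [IsArtinianRing R] (h : IsDual R E) (e : ι → E)
    (hspan : Submodule.span R (Set.range e) = ⊤) (I : Ideal R)
    (hI : ∀ v ∈ LinearMap.ker (prn R e), ∀ j, v j ∈ I) (c : ι)
    (q : LinearMap.ker (prn R e) →ₗ[R] E) (hq : ∀ a ∈ I, ∀ z, a • q z = 0) :
    ∃ g : LinearMap.ker (prn R e) →ₗ[R] R, ∀ z j, g z • e j = if j = c then q z else 0 := by
  have key : ∀ z : LinearMap.ker (prn R e), ∃ r : R, ∀ j, r • e j = if j = c then q z else 0 := by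
    intro z
    let u : (ι → R) →ₗ[R] E := (LinearMap.toSpanSingleton R E (q z)).comp (LinearMap.proj c)
    have hu : ∀ v, u v = v c • q z := fun v => rfl
    let w : ((ι → R) ⧸ LinearMap.ker (prn R e)) →ₗ[R] E :=
      (LinearMap.ker (prn R e)).liftQ u (fun v hv => by
        rw [LinearMap.mem_ker, hu]
        exact hq _ (hI v hv c) z)
    let p := (prn R e).quotKerEquivOfSurjective (prn_surj e hspan)
    obtain ⟨r, hr⟩ := end_E h (w.comp p.symm.toLinearMap)
    refine ⟨r, fun j => ?_⟩
    rw [← hr]
    have h1 : p (Submodule.Quotient.mk (Pi.single j 1)) = e j := by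
      show prn R e (Pi.single j 1) = e j
      rw [prn_single, one_smul]
    rw [← h1, LinearMap.comp_apply, LinearEquiv.coe_coe, LinearEquiv.symm_apply_apply]
    show (Pi.single j (1 : R) : ι → R) c • q z = _
    by_cases hjc : j = c
    · subst hjc
      rw [Pi.single_eq_same, one_smul, if_pos rfl]
    · rw [Pi.single_eq_of_ne (Ne.symm hjc), zero_smul, if_neg hjc]
  choose g hg using key
  refine ⟨{ toFun := g, map_add' := fun z z' => ?_, map_smul' := fun r z => ?_ }, hg⟩
  · refine smul_ext h e hspan _ _ fun j => ?_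
    rw [add_smul, hg, hg, hg]
    split_ifs
    · rw [map_add]
    · rw [add_zero]
  · refine smul_ext h e hspan _ _ fun j => ?_
    rw [RingHom.id_apply, smul_eq_mul, mul_smul, hg, hg]
    split_ifs
    · rw [map_smul]
    · rw [smul_zero]

/-- the transpose of a map `E → R` -/
lemma exists_transpose [IsArtinianRing R] (h : IsDual R E) (φ : E →ₗ[R] R) :
    ∃ t : E → R, ∀ x y, φ x • y = t y • x := by
  have key : ∀ y : E, ∃ r : R, ∀ x, φ x • y = r • x := by
    intro y
    obtain ⟨r, hr⟩ := end_E h ((LinearMap.toSpanSingleton R E y).comp φ)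
    exact ⟨r, fun x => by rw [← hr]; rfl⟩
  choose t ht using key
  exact ⟨t, fun x y => ht y x⟩

/-- the relation `φ(e_a) e_b - φ'(e_b) e_a` -/
lemma rel_mem (e : ι → E) (φ : E →ₗ[R] R) (t : E → R) (ht : ∀ x y, φ x • y = t y • x) (a b : ι) :
    Pi.single b (φ (e a)) - Pi.single a (t (e b)) ∈ LinearMap.ker (prn R e) := by
  rw [LinearMap.mem_ker, map_sub, prn_single, prn_single, ht, sub_self]

variable [HasExt.{0} (ModuleCat.{0} R)]

theorem trace_mem [IsArtinianRing R] (h : IsDual R E) (e : ι → E)
    (hspan : Submodule.span R (Set.range e) = ⊤) (I : Ideal R)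
    (hI : ∀ v ∈ LinearMap.ker (prn R e), ∀ j, v j ∈ I) (hExt : T63.EV R E R 1)
    (φ : E →ₗ[R] R) (a b c : ι) (hab : a ≠ b) (hac : a ≠ c) (hbc : b ≠ c) : φ (e a) ∈ I * I := by
  obtain ⟨t, ht⟩ := exists_transpose h φ
  let N : Submodule R (LinearMap.ker (prn R e)) := I • ⊤
  let z : ι → ι → LinearMap.ker (prn R e) := fun a b =>
    ⟨Pi.single b (φ (e a)) - Pi.single a (t (e b)), rel_mem e φ t ht a b⟩
  -- coordinates of elements of `N`
  have hN : ∀ w ∈ N, ∀ j, w.1 j ∈ I * I := by
    intro w hw
    refine Submodule.smul_induction_on hw (fun r hr n _ j => ?_) (fun x y hx hy j => ?_)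
    · exact Ideal.mul_mem_mul hr (hI n.1 n.2 j)
    · exact (I * I).add_mem (hx j) (hy j)
  have hz : z a b ∈ N := by
    by_contra hz
    obtain ⟨q, hq0, hq1⟩ := exists_sep' h N (z a b) hz
    obtain ⟨g, hg⟩ := exists_g h e hspan I hI c q (fun r hr w => by
      rw [← map_smul]
      exact hq0 _ (Submodule.smul_mem_smul hr trivial))
    obtain ⟨G, hG⟩ := T63.EV_extend (prn R e) (prn_surj e hspan) hExt g
    have hGs : ∀ (j : ι) (r : R), G (Pi.single j r) = r * G (Pi.single j 1) := by
      intro j r
      have : (Pi.single j r : ι → R) = r • Pi.single j 1 := by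
        rw [← Pi.single_smul, smul_eq_mul, mul_one]
      rw [this, map_smul, smul_eq_mul]
    have hval : ∀ x y : ι, g (z x y) = φ (e x) * G (Pi.single y 1) - t (e y) * G (Pi.single x 1) := by
      intro x y
      rw [← hG]
      show G (Pi.single y (φ (e x)) - Pi.single x (t (e y))) = _
      rw [map_sub, hGs, hGs x]
    have h1 : g (z a b) • e c = q (z a b) := by rw [hg, if_pos rfl]
    have h2 : g (z b c) • e a = 0 := by rw [hg, if_neg hac]
    have h3 : g (z c a) • e b = 0 := by rw [hg, if_neg hbc]
    rw [hval, sub_smul] at h1 h2 h3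
    have e1 : φ (e a) • e c = t (e c) • e a := ht _ _
    have e2 : φ (e c) • e b = t (e b) • e c := ht _ _
    have e3 : φ (e b) • e a = t (e a) • e b := ht _ _
    apply hq1
    have hsum : (φ (e a) * G (Pi.single b 1)) • e c - (t (e b) * G (Pi.single a 1)) • e c
        + ((φ (e b) * G (Pi.single c 1)) • e a - (t (e c) * G (Pi.single b 1)) • e a)
        + ((φ (e c) * G (Pi.single a 1)) • e b - (t (e a) * G (Pi.single c 1)) • e b) = 0 := by
      have k1 : (φ (e a) * G (Pi.single b 1)) • e c = (t (e c) * G (Pi.single b 1)) • e a := by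
        rw [mul_comm, mul_smul, e1, ← mul_smul, mul_comm]
      have k2 : (φ (e c) * G (Pi.single a 1)) • e b = (t (e b) * G (Pi.single a 1)) • e c := by
        rw [mul_comm, mul_smul, e2, ← mul_smul, mul_comm]
      have k3 : (φ (e b) * G (Pi.single c 1)) • e a = (t (e a) * G (Pi.single c 1)) • e b := by
        rw [mul_comm, mul_smul, e3, ← mul_smul, mul_comm]
      rw [k1, k2, k3]
      abel
    rw [h2, h3, add_zero, add_zero, h1] at hsum
    exact hsum
  have := hN _ hz b
  have hb : (z a b).1 b = φ (e a) := by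
    show (Pi.single b (φ (e a)) - Pi.single a (t (e b)) : ι → R) b = φ (e a)
    rw [Pi.sub_apply, Pi.single_eq_same, Pi.single_eq_of_ne (Ne.symm hab), sub_zero]
  rwa [hb] at this

end TT63
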