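import Pool.Agent.Lib.MP_63944b_al.TR1

set_option autoImplicit false

open Module CategoryTheory

namespace TT63

variable {R : Type} [CommRing R] {E : Type} [AddCommGroup E] [Module R E]
variable {ι : Type} [Fintype ι] [DecidableEq ι]

/-- a generating family with at most two members gives two generators -/
lemma two_gens (e : ι → E) (hspan : Submodule.span R (Set.range e) = ⊤)
    (hcard : Fintype.card ι ≤ 2) : ∃ x y : E, ∀ v : E, ∃ a b : R, v = a • x + b • y := by
  obtain ⟨x, y, hxy⟩ : ∃ x y : E, ∀ j, e j = x ∨ e j = y := by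
    rcases isEmpty_or_nonempty ι with hem | ⟨⟨j₀⟩⟩
    · exact ⟨0, 0, fun j => (hem.false j).elim⟩
    · by_cases hj : ∀ j, j = j₀
      · exact ⟨e j₀, e j₀, fun j => Or.inl (by rw [hj j])⟩
      · push Not at hj
        obtain ⟨j₁, hj₁⟩ := hj
        refine ⟨e j₀, e j₁, fun j => ?_⟩
        by_contra hcon
        push Not at hcon
        have h0 : j ≠ j₀ := fun h => hcon.1 (by rw [h])
        have h1 : j ≠ j₁ := fun h => hcon.2 (by rw [h])
        have h2 : ({j, j₀, j₁} : Finset ι).card = 3 := by
          rw [Finset.card_eq_three]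
          exact ⟨j, j₀, j₁, h0, h1, Ne.symm hj₁, rfl⟩
        have h3 := Finset.card_le_univ ({j, j₀, j₁} : Finset ι)
        omega
  refine ⟨x, y, fun v => ?_⟩
  have hv : v ∈ Submodule.span R (Set.range e) := by rw [hspan]; trivial
  have hle : Submodule.span R (Set.range e) ≤ Submodule.span R {x, y} := by
    rw [Submodule.span_le]
    rintro _ ⟨j, rfl⟩
    rcases hxy j with h | h
    · rw [h]; exact Submodule.subset_span (by simp)
    · rw [h]; exact Submodule.subset_span (by simp)
  obtain ⟨a, b, hab⟩ := Submodule.mem_span_pair.mp (hle hv)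
  exact ⟨a, b, hab.symm⟩

variable [HasExt.{0} (ModuleCat.{0} R)]

theorem trace_main [IsArtinianRing R] (h : IsDual R E) (e : ι → E)
    (hspan : Submodule.span R (Set.range e) = ⊤) (I : Ideal R)
    (hI : ∀ v : ι → R, ∑ j, v j • e j = 0 → ∀ j, v j ∈ I)
    (h1 : T63.EV R E R 1) (h2 : Fintype.card ι ≤ 2 → T63.EV R E R 2)
    (φ : E →ₗ[R] R) (x : E) (hx : φ x ∉ I ^ 2) : Module.Injective R R := by
  by_cases hcard : Fintype.card ι ≤ 2
  · obtain ⟨x, y, hxy⟩ := two_gens e hspan hcard
    exact main h x y hxy (h2 hcard)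
  · exfalso
    have hI' : ∀ v ∈ LinearMap.ker (prn R e), ∀ j, v j ∈ I := by
      intro v hv j
      rw [LinearMap.mem_ker, Fintype.linearCombination_apply] at hv
      exact hI v hv j
    have hall : ∀ a, φ (e a) ∈ I ^ 2 := by
      intro a
      have hc : 1 < (Finset.univ.erase a).card := by
        rw [Finset.card_erase_of_mem (Finset.mem_univ a), Finset.card_univ]
        omega
      obtain ⟨b, hb, c, hc, hbc⟩ := Finset.one_lt_card.mp hc
      rw [pow_two]
      exact trace_mem h e hspan I hI' h1 φ a b c (Ne.symm (Finset.ne_of_mem_erase hb))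
        (Ne.symm (Finset.ne_of_mem_erase hc)) hbc
    apply hx
    have hx' : x ∈ Submodule.span R (Set.range e) := by rw [hspan]; trivial
    induction hx' using Submodule.span_induction with
    | mem x hx' =>
      obtain ⟨j, rfl⟩ := hx'
      exact hall j
    | zero => rw [map_zero]; exact (I ^ 2).zero_mem
    | add x y _ _ ihx ihy =>
      rw [map_add]
      exact (I ^ 2).add_mem (by by_contra hh; exact hh (ihx hh)) (by by_contra hh; exact hh (ihy hh))
    | smul a x _ ihx =>
      rw [map_smul, smul_eq_mul]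
      exact (I ^ 2).mul_mem_left a (by by_contra hh; exact hh (ihx hh))

end TT63
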