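import Mathlib

section

/-!
# Commutative artinian rings of type two: Matlis duality lengths

`R` commutative artinian, `E` an injective hull of `R / J`. We show `length (Hom (M, E)) ≤ length M`
for finite length modules and that `E` is faithful.
-/

set_option autoImplicit false

open Module

namespace TT63

/-- `E` is an injective hull of `R / J(R)` -/
structure IsDual (R : Type) [CommRing R] (E : Type) [AddCommGroup E] [Module R E] : Prop where
  inj : Module.Injective R E
  hull : ∃ f : (R ⧸ (⊥ : Ideal R).jacobson) →ₗ[R] E, Function.Injective f ∧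
    ∀ N : Submodule R E, N ≠ ⊥ → N ⊓ LinearMap.range f ≠ ⊥

variable {R : Type} [CommRing R] {E : Type} [AddCommGroup E] [Module R E]

/-- two maps from a simple module to `E` are proportional -/
lemma simple_hom (h : IsDual R E) {S : Type} [AddCommGroup S] [Module R S] [IsSimpleModule R S]
    (g g' : S →ₗ[R] E) (hg : g ≠ 0) : ∃ r : R, g' = r • g := by
  obtain ⟨f, hf, hess⟩ := h.hull
  have hnt : Nontrivial S := IsSimpleModule.nontrivial R S
  obtain ⟨s₀, hs₀⟩ := exists_ne (0 : S)
  have hsur := IsSimpleModule.toSpanSingleton_surjective R hs₀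
  have hmax := IsSimpleModule.ker_toSpanSingleton_isMaximal R hs₀
  -- nonzero maps have image in the range of `f`
  have key : ∀ u : S →ₗ[R] E, u ≠ 0 → ∃ w : R ⧸ (⊥ : Ideal R).jacobson, f w = u s₀ := by
    intro u hu
    have hinj : Function.Injective u := LinearMap.injective_of_ne_zero hu
    have hS : IsSimpleModule R (LinearMap.range u) :=
      IsSimpleModule.congr (LinearEquiv.ofInjective u hinj).symm
    have hat : IsAtom (LinearMap.range u) := isSimpleModule_iff_isAtom.mp hS
    have hne : LinearMap.range u ⊓ LinearMap.range f ≠ ⊥ := hess _ hat.1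
    have heq : LinearMap.range u ⊓ LinearMap.range f = LinearMap.range u := by
      rcases hat.le_iff.mp (inf_le_left : LinearMap.range u ⊓ LinearMap.range f ≤ _) with h1 | h1
      · exact absurd h1 hne
      · exact h1
    have : u s₀ ∈ LinearMap.range u ⊓ LinearMap.range f := by
      rw [heq]; exact ⟨s₀, rfl⟩
    exact this.2
  by_cases hg' : g' = 0
  · exact ⟨0, by rw [hg', zero_smul]⟩
  obtain ⟨u, hu⟩ := key g hg
  obtain ⟨v, hv⟩ := key g' hg'
  obtain ⟨a, rfl⟩ := Ideal.Quotient.mk_surjective u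
  obtain ⟨b, rfl⟩ := Ideal.Quotient.mk_surjective v
  have hkill : ∀ (w : S →ₗ[R] E) (z : R ⧸ (⊥ : Ideal R).jacobson), f z = w s₀ →
      ∀ t ∈ LinearMap.ker (LinearMap.toSpanSingleton R S s₀), t • z = 0 := by
    intro w z hz t ht
    apply hf
    rw [map_smul, hz, map_zero, ← map_smul]
    have : t • s₀ = 0 := ht
    rw [this, map_zero]
  have ha : a ∉ LinearMap.ker (LinearMap.toSpanSingleton R S s₀) := by
    intro ha
    have h1 := hkill g _ hu a ha
    have h2 : a * a ∈ (⊥ : Ideal R).jacobson := by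
      rw [← Ideal.Quotient.eq_zero_iff_mem, map_mul]
      exact h1
    have h3 : a ∈ (⊥ : Ideal R).jacobson := by
      rw [Ideal.jacobson, Ideal.mem_sInf] at h2 ⊢
      intro I hI
      exact (hI.2.isPrime.mem_or_mem (h2 hI)).elim id id
    rw [← Ideal.Quotient.eq_zero_iff_mem] at h3
    rw [h3, map_zero] at hu
    have hinj : Function.Injective g := LinearMap.injective_of_ne_zero hg
    exact hs₀ (hinj (by rw [← hu, map_zero]))
  obtain ⟨c, hc⟩ := Ideal.Quotient.exists_inv (I := LinearMap.ker (LinearMap.toSpanSingleton R S s₀))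
    (a := Ideal.Quotient.mk _ a) (by rwa [Ne, Ideal.Quotient.eq_zero_iff_mem])
  obtain ⟨c, rfl⟩ := Ideal.Quotient.mk_surjective c
  have hc' : a * c - 1 ∈ LinearMap.ker (LinearMap.toSpanSingleton R S s₀) := by
    rw [← Ideal.Quotient.eq_zero_iff_mem, map_sub, map_mul, map_one, hc, sub_self]
  refine ⟨c * b, ?_⟩
  have h1 : g' s₀ = (c * b) • g s₀ := by
    rw [← hu, ← hv, ← map_smul]
    congr 1
    have h2 := hkill g' _ hv _ hc'
    rw [sub_smul, one_smul, sub_eq_zero] at h2
    rw [← h2]
    show Ideal.Quotient.mk _ ((a * c) * b) = Ideal.Quotient.mk _ ((c * b) * a)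
    congr 1
    ring
  ext s
  obtain ⟨t, rfl⟩ := hsur s
  simp only [LinearMap.toSpanSingleton_apply, map_smul, LinearMap.smul_apply, h1]

/-- `length Hom(S, E) ≤ 1` for simple `S` -/
lemma length_hom_simple (h : IsDual R E) {S : Type} [AddCommGroup S] [Module R S]
    [IsSimpleModule R S] : Module.length R (S →ₗ[R] E) ≤ 1 := by
  rcases subsingleton_or_nontrivial (S →ₗ[R] E) with hs | hn
  · rw [Module.length_eq_zero]
    exact zero_le_one
  · have : IsSimpleModule R (S →ₗ[R] E) := by
      rw [isSimpleModule_iff_toSpanSingleton_surjective]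
      refine ⟨hn, fun g hg g' => ?_⟩
      obtain ⟨r, hr⟩ := simple_hom h g g' hg
      exact ⟨r, by rw [hr]; rfl⟩
    rw [Module.length_eq_one]

/-- `length Hom(M, E) ≤ length M` for finite length modules -/
lemma length_hom (h : IsDual R E) {M : Type} [AddCommGroup M] [Module R M]
    (hM : IsFiniteLength R M) : Module.length R (M →ₗ[R] E) ≤ Module.length R M := by
  induction hM with
  | of_subsingleton =>
    rw [Module.length_eq_zero]
    exact zero_le
  | @of_simple_quotient M _ _ N hs _ ih =>
    have hI := h.inj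
    let f : (M ⧸ N →ₗ[R] E) →ₗ[R] (M →ₗ[R] E) := LinearMap.lcomp R E N.mkQ
    let g : (M →ₗ[R] E) →ₗ[R] (N →ₗ[R] E) := LinearMap.lcomp R E N.subtype
    have hf : Function.Injective f := by
      intro a b hab
      ext x
      exact congrArg (fun u => u x) hab
    have hg : Function.Surjective g := by
      intro u
      obtain ⟨w, hw⟩ := hI.out N.subtype (Submodule.subtype_injective N) u
      exact ⟨w, LinearMap.ext hw⟩
    have hex : Function.Exact f g := by
      intro u
      constructor
      · intro hu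
        refine ⟨N.liftQ u fun x hx => ?_, ?_⟩
        · exact congrArg (fun w => w ⟨x, hx⟩) hu
        · ext x
          rfl
      · rintro ⟨w, rfl⟩
        ext x
        show w (N.mkQ x) = 0
        rw [show N.mkQ (x : M) = 0 from (Submodule.Quotient.mk_eq_zero N).mpr x.2, map_zero]
    rw [Module.length_eq_add_of_exact f g hf hg hex,
      Module.length_eq_add_of_exact N.subtype N.mkQ (Submodule.subtype_injective N)
        (Submodule.mkQ_surjective N) (LinearMap.exact_subtype_mkQ N), Module.length_eq_one R (M ⧸ N),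
      add_comm]
    exact add_le_add ih (length_hom_simple h)

end TT63
end

section

section

/-!
# Tachikawa's first conjecture for commutative graded algebras: definitions

`k` a field, `R` a commutative `k`-algebra with a homogeneous basis `e` (index `none` is the
unit, the other basis elements have positive degree).  `GM` are the finite dimensional graded
`R`-modules, given by a homogeneous basis.  `syz` is the kernel of the canonical free cover.
-/

set_option autoImplicit false

open Module

namespace T63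

/-- A homogeneous basis of a commutative `k`-algebra: `e none = 1`, `e (some i)` of degree `d i >= 1`. -/
structure GR (k : Type) [Field k] (R : Type) [CommRing R] [Algebra k R] where
  ι : Type
  [fin : Fintype ι]
  [dec : DecidableEq ι]
  e : Basis (Option ι) k R
  d : ι → ℕ
  e_none : e none = 1
  d_pos : ∀ i, 1 ≤ d i
  hmul : ∀ i j l, e.repr (e (some i) * e (some j)) l ≠ 0 → l.elim 0 d = d i + d j

attribute [instance] GR.fin GR.dec

variable {k : Type} [Field k] {R : Type} [CommRing R] [Algebra k R]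

/-- degree of a basis element of `R` -/
def GR.dd (G : GR k R) (o : Option G.ι) : ℕ := o.elim 0 G.d

/-- A finite dimensional graded `R`-module with a homogeneous basis. -/
structure GM (G : GR k R) where
  X : Type
  [acg : AddCommGroup X]
  [mK : Module k X]
  [mR : Module R X]
  [st : IsScalarTower k R X]
  κ : Type
  [fin : Fintype κ]
  [dec : DecidableEq κ]
  b : Basis κ k X
  deg : κ → ℕ
  hom : ∀ i j l, b.repr (G.e (some i) • b j) l ≠ 0 → deg l = G.d i + deg j

attribute [instance] GM.acg GM.mK GM.mR GM.st GM.fin GM.dec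

variable {G : GR k R}

/-- the canonical free cover `R^κ → X` -/
noncomputable def mu (Z : GM G) : (Z.κ → R) →ₗ[R] Z.X := Fintype.linearCombination R Z.b

lemma mu_apply (Z : GM G) (f : Z.κ → R) : mu Z f = ∑ j, f j • Z.b j := by
  simp [mu, Fintype.linearCombination_apply]

/-- the carrier of the syzygy module -/
abbrev K (Z : GM G) : Type := LinearMap.ker (mu Z)

/-- coordinates of an element of the syzygy module -/
noncomputable def kc (Z : GM G) : K Z →ₗ[k] (G.ι × Z.κ → k) where
  toFun ζ := fun p => G.e.repr (ζ.1 p.2) (some p.1)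
  map_add' a b := by ext p; simp
  map_smul' c a := by ext p; simp

/-- the element of `R^κ` with given coordinates -/
noncomputable def kvf (Z : GM G) (c : G.ι × Z.κ → k) : Z.κ → R :=
  fun j => ∑ i, c (i, j) • G.e (some i)
    - (∑ i, ∑ l, c (i, l) * Z.b.repr (G.e (some i) • Z.b l) j) • (1 : R)

lemma kvf_mem (Z : GM G) (c : G.ι × Z.κ → k) : kvf Z c ∈ LinearMap.ker (mu Z) := by
  rw [LinearMap.mem_ker, mu_apply]
  have h1 : ∀ j, kvf Z c j • Z.b j = ∑ i, c (i, j) • (G.e (some i) • Z.b j)
      - (∑ i, ∑ l, c (i, l) * Z.b.repr (G.e (some i) • Z.b l) j) • Z.b j := by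
    intro j
    simp only [kvf, sub_smul, Finset.sum_smul, smul_assoc, one_smul]
  have h2 : ∑ j, (∑ i, ∑ l, c (i, l) * Z.b.repr (G.e (some i) • Z.b l) j) • Z.b j
      = ∑ i, ∑ l, c (i, l) • (G.e (some i) • Z.b l) := by
    simp only [Finset.sum_smul]
    rw [Finset.sum_comm]
    refine Finset.sum_congr rfl fun i _ => ?_
    rw [Finset.sum_comm]
    refine Finset.sum_congr rfl fun l _ => ?_
    conv_rhs => rw [← Z.b.sum_repr (G.e (some i) • Z.b l), Finset.smul_sum]
    refine Finset.sum_congr rfl fun j _ => ?_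
    rw [mul_smul]
  rw [Finset.sum_congr rfl fun j _ => h1 j, Finset.sum_sub_distrib, h2, Finset.sum_comm, sub_self]

lemma repr_one_some (G : GR k R) (i : G.ι) : G.e.repr 1 (some i) = 0 := by
  rw [← G.e_none, Basis.repr_self]
  simp

lemma kc_kvf (Z : GM G) (c : G.ι × Z.κ → k) : kc Z ⟨kvf Z c, kvf_mem Z c⟩ = c := by
  ext p
  obtain ⟨i, j⟩ := p
  simp only [kc, LinearMap.coe_mk, AddHom.coe_mk, kvf, map_sub, map_sum, map_smul,
    Finsupp.coe_sub, Pi.sub_apply, Finsupp.coe_smul, Pi.smul_apply, repr_one_some, smul_zero,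
    sub_zero, Basis.repr_self]
  rw [Finsupp.finset_sum_apply]
  simp [Finsupp.single_apply]

lemma kvf_kc (Z : GM G) (ζ : K Z) : kvf Z (kc Z ζ) = ζ.1 := by
  have hexp : ∀ l, ζ.1 l = G.e.repr (ζ.1 l) none • (1 : R)
      + ∑ i, G.e.repr (ζ.1 l) (some i) • G.e (some i) := by
    intro l
    conv_lhs => rw [← G.e.sum_repr (ζ.1 l), Fintype.sum_option, G.e_none]
  have h0 : ∑ l, ζ.1 l • Z.b l = 0 := by
    rw [← mu_apply]; exact ζ.2
  ext j
  have h1 : (∑ i, ∑ l, (kc Z ζ) (i, l) * Z.b.repr (G.e (some i) • Z.b l) j)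
      = - G.e.repr (ζ.1 j) none := by
    have h2 := congrArg (fun x => Z.b.repr x j) h0
    simp only [map_sum, map_zero, Finsupp.coe_zero, Pi.zero_apply] at h2
    rw [Finsupp.finset_sum_apply] at h2
    have h3 : ∀ l, Z.b.repr (ζ.1 l • Z.b l) j = (if l = j then G.e.repr (ζ.1 l) none else 0)
        + ∑ i, (kc Z ζ) (i, l) * Z.b.repr (G.e (some i) • Z.b l) j := by
      intro l
      conv_lhs => rw [hexp l, add_smul, Finset.sum_smul]
      simp only [smul_assoc, one_smul, map_add, map_sum, map_smul, Basis.repr_self,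
        Finsupp.coe_add, Pi.add_apply, Finsupp.coe_smul, Pi.smul_apply, smul_eq_mul,
        Finsupp.finset_sum_apply, Finsupp.single_apply]
      congr 1
      · split_ifs <;> simp
    rw [Finset.sum_congr rfl fun l _ => h3 l, Finset.sum_add_distrib, Finset.sum_ite_eq'] at h2
    simp only [Finset.mem_univ, if_true] at h2
    rw [Finset.sum_comm]
    linear_combination h2
  simp only [kvf]
  rw [h1]
  conv_rhs => rw [hexp j]
  simp only [kc, LinearMap.coe_mk, AddHom.coe_mk, neg_smul, sub_neg_eq_add]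
  rw [add_comm]

/-- the homogeneous basis of the syzygy module -/
noncomputable def kb (Z : GM G) : Basis (G.ι × Z.κ) k (K Z) :=
  Basis.ofEquivFun
    { kc Z with
      invFun := fun c => ⟨kvf Z c, kvf_mem Z c⟩
      left_inv := fun ζ => Subtype.ext (kvf_kc Z ζ)
      right_inv := fun c => kc_kvf Z c }

lemma kb_repr (Z : GM G) (ζ : K Z) (p : G.ι × Z.κ) :
    (kb Z).repr ζ p = G.e.repr (ζ.1 p.2) (some p.1) := by
  simp [kb, kc]

lemma kb_val (Z : GM G) (i : G.ι) (j l : Z.κ) :
    (kb Z (i, j)).1 l = (if l = j then G.e (some i) else 0)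
      - (Z.b.repr (G.e (some i) • Z.b j) l) • (1 : R) := by
  have h : (kb Z (i, j)).1 = kvf Z (Pi.single (i, j) 1) := by
    simp [kb]
  rw [h]
  simp only [kvf]
  congr 1
  · rw [Finset.sum_eq_single i]
    · by_cases hl : l = j
      · subst hl; simp
      · simp [hl]
    · intro i' _ hi
      simp [hi]
    · simp
  · congr 1
    rw [Finset.sum_eq_single i, Finset.sum_eq_single j]
    · simp
    · intro j' _ hj
      simp [hj]
    · simp
    · intro i' _ hi
      refine Finset.sum_eq_zero fun j' _ => ?_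
      simp [hi]
    · simp

lemma kb_hom (Z : GM G) : ∀ (a : G.ι) (p q : G.ι × Z.κ),
    (kb Z).repr (G.e (some a) • kb Z p) q ≠ 0 →
      G.d q.1 + Z.deg q.2 = G.d a + (G.d p.1 + Z.deg p.2) := by
  rintro a ⟨i, j⟩ ⟨i', j'⟩ h
  rw [kb_repr] at h
  have hv : (G.e (some a) • kb Z (i, j)).1 j' = (if j' = j then G.e (some a) * G.e (some i) else 0)
      - (Z.b.repr (G.e (some i) • Z.b j) j') • G.e (some a) := by
    have : (G.e (some a) • kb Z (i, j)).1 j' = G.e (some a) * (kb Z (i, j)).1 j' := rfl
    rw [this, kb_val, mul_sub]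
    split_ifs <;> simp
  simp only at h ⊢
  rw [hv] at h
  by_cases h1 : j' = j
  · subst h1
    by_cases h2 : G.e.repr (G.e (some a) * G.e (some i)) (some i') = 0
    · have h3 : Z.b.repr (G.e (some i) • Z.b j') j' ≠ 0 := by
        intro h4; apply h; simp [h2, h4]
      have := Z.hom i j' j' h3
      have := G.d_pos i
      omega
    · have := G.hmul a i (some i') h2
      simp only [Option.elim_some] at this
      omega
  · have h2 : Z.b.repr (G.e (some i) • Z.b j) j' ≠ 0 := by
      intro h4; apply h; simp [h1, h4]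
    have h3 := Z.hom i j j' h2
    have h4 : i' = a := by
      by_contra h5
      apply h
      simp [h1, Finsupp.single_apply, Ne.symm h5]
    subst h4
    omega

/-- the syzygy module as a graded module -/
noncomputable abbrev syz (Z : GM G) : GM G where
  X := K Z
  κ := G.ι × Z.κ
  b := kb Z
  deg := fun p => G.d p.1 + Z.deg p.2
  hom := kb_hom Z

/-! ## Bilinear forms -/

/-- homogeneous forms of total degree `n` -/
def IsHomo (A B : GM G) (n : ℕ) (φ : A.X →ₗ[k] B.X →ₗ[k] k) : Prop :=
  ∀ j l, A.deg j + B.deg l ≠ n → φ (A.b j) (B.b l) = 0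

/-- balanced forms -/
def IsBal {X Y : Type} [AddCommGroup X] [Module k X] [Module R X] [AddCommGroup Y] [Module k Y]
    [Module R Y] (φ : X →ₗ[k] Y →ₗ[k] k) : Prop :=
  ∀ (r : R) (x : X) (y : Y), φ (r • x) y = φ x (r • y)

/-- homogeneous bilinear forms of degree `n` -/
def BilN (A B : GM G) (n : ℕ) : Submodule k (A.X →ₗ[k] B.X →ₗ[k] k) where
  carrier := {φ | IsHomo A B n φ}
  add_mem' := by
    intro a b ha hb j l h
    simp [ha j l h, hb j l h]
  zero_mem' := by intro j l _; simp
  smul_mem' := by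
    intro c a ha j l h
    simp [ha j l h]

/-- homogeneous balanced forms of degree `n` -/
def BalN (A B : GM G) (n : ℕ) : Submodule k (A.X →ₗ[k] B.X →ₗ[k] k) where
  carrier := {φ | IsHomo A B n φ ∧ IsBal (R := R) φ}
  add_mem' := by
    rintro a b ⟨ha, ha'⟩ ⟨hb, hb'⟩
    refine ⟨fun j l h => by simp [ha j l h, hb j l h], fun r x y => ?_⟩
    simp [ha' r x y, hb' r x y]
  zero_mem' := ⟨fun j l _ => by simp, fun r x y => by simp⟩
  smul_mem' := by
    rintro c a ⟨ha, ha'⟩
    refine ⟨fun j l h => by simp [ha j l h], fun r x y => ?_⟩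
    simp [ha' r x y]

/-- homogeneous balanced `ε`-symmetric forms of degree `n` -/
def BalE (A : GM G) (n : ℕ) (ε : k) : Submodule k (A.X →ₗ[k] A.X →ₗ[k] k) where
  carrier := {φ | IsHomo A A n φ ∧ IsBal (R := R) φ ∧ ∀ x y, φ x y = ε * φ y x}
  add_mem' := by
    rintro a b ⟨ha, ha', ha''⟩ ⟨hb, hb', hb''⟩
    refine ⟨fun j l h => by simp [ha j l h, hb j l h], fun r x y => ?_, fun x y => ?_⟩
    · simp [ha' r x y, hb' r x y]
    · simp only [LinearMap.add_apply]; rw [ha'' x y, hb'' x y]; ring
  zero_mem' := ⟨fun j l _ => by simp, fun r x y => by simp, fun x y => by simp⟩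
  smul_mem' := by
    rintro c a ⟨ha, ha', ha''⟩
    refine ⟨fun j l h => by simp [ha j l h], fun r x y => ?_, fun x y => ?_⟩
    · simp [ha' r x y]
    · simp only [LinearMap.smul_apply, smul_eq_mul]; rw [ha'' x y]; ring

/-- the space of homogeneous `ε`-symmetric families of forms of degree `n`; this is the space of
`ε`-symmetric balanced forms on the free cover of `A` -/
def TN (A : GM G) (n : ℕ) (ε : k) :
    Submodule k (R →ₗ[k] A.X →ₗ[k] A.X →ₗ[k] k) where
  carrier := {β | (∀ o j l, G.dd o + (A.deg j + A.deg l) ≠ n → β (G.e o) (A.b j) (A.b l) = 0) ∧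
    ∀ r x y, β r x y = ε * β r y x}
  add_mem' := by
    rintro a b ⟨ha, ha'⟩ ⟨hb, hb'⟩
    refine ⟨fun o j l h => by simp [ha o j l h, hb o j l h], fun r x y => ?_⟩
    simp only [LinearMap.add_apply]; rw [ha' r x y, hb' r x y]; ring
  zero_mem' := ⟨fun o j l _ => by simp, fun r x y => by simp⟩
  smul_mem' := by
    rintro c a ⟨ha, ha'⟩
    refine ⟨fun o j l h => by simp [ha o j l h], fun r x y => ?_⟩
    simp only [LinearMap.smul_apply, smul_eq_mul]; rw [ha' r x y]; ring

/-- `(D α)(x, ζ) = ∑ α(ζ_j x, b_j)` -/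
noncomputable def Dm (A B : GM G) :
    (A.X →ₗ[k] B.X →ₗ[k] k) →ₗ[k] (A.X →ₗ[k] (syz B).X →ₗ[k] k) where
  toFun α := LinearMap.mk₂ k (fun (x : A.X) (ζ : K B) => ∑ j, α (ζ.1 j • x) (B.b j))
    (fun x x' ζ => by simp [smul_add, Finset.sum_add_distrib])
    (fun c x ζ => by
      simp only [Finset.smul_sum]
      refine Finset.sum_congr rfl fun j _ => ?_
      rw [smul_comm (ζ.1 j) c x]; simp)
    (fun x (ζ ζ' : K B) => by
      simp [add_smul, Finset.sum_add_distrib])
    (fun c x (ζ : K B) => by
      simp only [Finset.smul_sum]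
      refine Finset.sum_congr rfl fun j _ => ?_
      simp [smul_assoc])
  map_add' a b := by
    ext x ζ
    simp [LinearMap.mk₂_apply, Finset.sum_add_distrib]
  map_smul' c a := by
    ext x ζ
    simp [LinearMap.mk₂_apply, Finset.mul_sum]

lemma Dm_apply (A B : GM G) (α : A.X →ₗ[k] B.X →ₗ[k] k) (x : A.X) (ζ : K B) :
    Dm A B α x ζ = ∑ j, α (ζ.1 j • x) (B.b j) := rfl

/-- `(Θ β)(ζ, y) = ∑ β(ζ_j)(b_j, y)` -/
noncomputable def Th (A : GM G) :
    (R →ₗ[k] A.X →ₗ[k] A.X →ₗ[k] k) →ₗ[k] ((syz A).X →ₗ[k] A.X →ₗ[k] k) where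
  toFun β := LinearMap.mk₂ k (fun (ζ : K A) (y : A.X) => ∑ j, β (ζ.1 j) (A.b j) y)
    (fun (ζ ζ' : K A) y => by simp [Finset.sum_add_distrib])
    (fun c (ζ : K A) y => by simp [Finset.mul_sum])
    (fun ζ y y' => by simp [Finset.sum_add_distrib])
    (fun c ζ y => by simp [Finset.mul_sum])
  map_add' a b := by
    ext x ζ
    simp [LinearMap.mk₂_apply, Finset.sum_add_distrib]
  map_smul' c a := by
    ext x ζ
    simp [LinearMap.mk₂_apply, Finset.mul_sum]

lemma Th_apply (A : GM G) (β : R →ₗ[k] A.X →ₗ[k] A.X →ₗ[k] k) (ζ : K A) (y : A.X) :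
    Th A β ζ y = ∑ j, β (ζ.1 j) (A.b j) y := rfl

end T63
end

section

set_option autoImplicit false

open CategoryTheory Module

namespace T63

section
variable (R : Type) [CommRing R] [HasExt.{0} (ModuleCat.{0} R)]

/-- `Ext^j_R(Z, Y) = 0` -/
def EV (Z Y : Type) [AddCommGroup Z] [Module R Z] [AddCommGroup Y] [Module R Y] (j : ℕ) : Prop :=
  Subsingleton (Abelian.Ext.{0} (ModuleCat.of R Z) (ModuleCat.of R Y) j)

variable {R}
variable {F Z Y : Type} [AddCommGroup F] [Module R F] [AddCommGroup Z] [Module R Z]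
  [AddCommGroup Y] [Module R Y]

/-- dimension shift in the first variable -/
lemma EV_ker (f : F →ₗ[R] Z) (hf : Function.Surjective f) [Module.Projective R F] (j : ℕ)
    (h : EV R Z Y (j + 2)) : EV R (LinearMap.ker f) Y (j + 1) := by
  have hS := LinearMap.shortExact_shortComplexKer hf
  have hP : Projective (f.shortComplexKer.X₂) := by
    show Projective (ModuleCat.of R F)
    infer_instance
  have h2 : Subsingleton (Abelian.Ext.{0} f.shortComplexKer.X₂ (ModuleCat.of R Y) (j + 1)) :=
    Abelian.Ext.subsingleton_of_projective _ _ j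
  refine ⟨fun a b => ?_⟩
  have key : ∀ x : Abelian.Ext.{0} (ModuleCat.of R (LinearMap.ker f)) (ModuleCat.of R Y) (j + 1),
      x = 0 := by
    intro x
    have hz : hS.extClass.comp x (show 1 + (j + 1) = j + 2 by omega) = 0 := by
      have : Subsingleton (Abelian.Ext.{0} (ModuleCat.of R Z) (ModuleCat.of R Y) (j + 2)) := h
      exact Subsingleton.elim _ _
    obtain ⟨x₂, hx₂⟩ := Abelian.Ext.contravariant_sequence_exact₁ hS (ModuleCat.of R Y) x
      (show 1 + (j + 1) = j + 2 by omega) hz
    rw [← hx₂, Subsingleton.elim x₂ 0]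
    simp
  rw [key a, key b]

/-- vanishing of `Ext^1(Z, Y)`: maps from the syzygy module extend -/
lemma EV_extend (f : F →ₗ[R] Z) (hf : Function.Surjective f)
    (h : EV R Z Y 1) (g : LinearMap.ker f →ₗ[R] Y) : ∃ h : F →ₗ[R] Y, ∀ x : LinearMap.ker f,
      h x = g x := by
  have hS := LinearMap.shortExact_shortComplexKer hf
  have hz : hS.extClass.comp (Abelian.Ext.mk₀ (ModuleCat.ofHom g)) (show 1 + 0 = 1 by omega) = 0 := by
    have : Subsingleton (Abelian.Ext.{0} (ModuleCat.of R Z) (ModuleCat.of R Y) 1) := h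
    exact Subsingleton.elim _ _
  obtain ⟨x₂, hx₂⟩ := Abelian.Ext.contravariant_sequence_exact₁ hS (ModuleCat.of R Y)
      (Abelian.Ext.mk₀ (ModuleCat.ofHom g)) (show 1 + 0 = 1 by omega) hz
  obtain ⟨u, rfl⟩ := (Abelian.Ext.mk₀_bijective _ _).2 x₂
  rw [Abelian.Ext.mk₀_comp_mk₀, (Abelian.Ext.mk₀_bijective _ _).1.eq_iff] at hx₂
  refine ⟨u.hom, fun x => ?_⟩
  have := congrArg (fun w => w.hom x) hx₂
  simpa using this

/-- dimension shift in the second variable -/
lemma EV_coker {A B C : Type} [AddCommGroup A] [Module R A] [AddCommGroup B] [Module R B]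
    [AddCommGroup C] [Module R C] (f : A →ₗ[R] B) (g : B →ₗ[R] C) (hf : Function.Injective f)
    (hg : Function.Surjective g) (hfg : Function.Exact f g) [Module.Injective R B] (j : ℕ)
    (h : EV R Y A (j + 2)) : EV R Y C (j + 1) := by
  let S : ShortComplex (ModuleCat.{0} R) :=
    ModuleCat.shortComplexOfCompEqZero f g hfg.linearMap_comp_eq_zero
  have hS : S.ShortExact := ModuleCat.shortComplex_shortExact S hfg hf hg
  have hI : CategoryTheory.Injective S.X₂ := Module.injective_object_of_injective_module R B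
  have h2 : Subsingleton (Abelian.Ext.{0} (ModuleCat.of R Y) S.X₂ (j + 1)) :=
    Abelian.Ext.subsingleton_of_injective _ _ j
  refine ⟨fun a b => ?_⟩
  have key : ∀ x : Abelian.Ext.{0} (ModuleCat.of R Y) (ModuleCat.of R C) (j + 1), x = 0 := by
    intro x
    have hz : Abelian.Ext.comp x hS.extClass (show (j + 1) + 1 = j + 2 by omega) = 0 := by
      have : Subsingleton (Abelian.Ext.{0} (ModuleCat.of R Y) (ModuleCat.of R A) (j + 2)) := h
      exact Subsingleton.elim _ _
    obtain ⟨x₂, hx₂⟩ := Abelian.Ext.covariant_sequence_exact₃ (ModuleCat.of R Y) hS x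
      (show (j + 1) + 1 = j + 2 by omega) hz
    rw [← hx₂, Subsingleton.elim x₂ 0]
    simp
  rw [key a, key b]

/-- transport along linear equivalences -/
lemma EV_congr {Z' Y' : Type} [AddCommGroup Z'] [Module R Z'] [AddCommGroup Y'] [Module R Y']
    (e : Z ≃ₗ[R] Z') (e' : Y ≃ₗ[R] Y') (j : ℕ) (h : EV R Z Y j) : EV R Z' Y' j := by
  have hs : Subsingleton (Abelian.Ext.{0} (ModuleCat.of R Z) (ModuleCat.of R Y) j) := h
  have key : ∀ x : Abelian.Ext.{0} (ModuleCat.of R Z') (ModuleCat.of R Y') j, x = 0 := by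
    intro x
    have h1 : ((Abelian.Ext.mk₀ (ModuleCat.ofHom e.toLinearMap)).comp
        (x.comp (Abelian.Ext.mk₀ (ModuleCat.ofHom e'.symm.toLinearMap)) (add_zero j))
        (zero_add j)) = 0 := Subsingleton.elim _ _
    have h2 : x = (Abelian.Ext.mk₀ (ModuleCat.ofHom e.symm.toLinearMap)).comp
        (((Abelian.Ext.mk₀ (ModuleCat.ofHom e.toLinearMap)).comp
        (x.comp (Abelian.Ext.mk₀ (ModuleCat.ofHom e'.symm.toLinearMap)) (add_zero j))
        (zero_add j)).comp (Abelian.Ext.mk₀ (ModuleCat.ofHom e'.toLinearMap)) (add_zero j))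
        (zero_add j) := by
      have e1 : ModuleCat.ofHom e.symm.toLinearMap ≫ ModuleCat.ofHom e.toLinearMap = 𝟙 _ := by
        ext x; simp
      have e2 : ModuleCat.ofHom e'.symm.toLinearMap ≫ ModuleCat.ofHom e'.toLinearMap = 𝟙 _ := by
        ext x; simp
      simp only [Abelian.Ext.comp_assoc_of_third_deg_zero, Abelian.Ext.mk₀_comp_mk₀,
        Abelian.Ext.mk₀_comp_mk₀_assoc, e1, e2, Abelian.Ext.mk₀_id_comp, Abelian.Ext.comp_mk₀_id]
    rw [h2, h1]
    simp
  exact ⟨fun a b => by rw [key a, key b]⟩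

end

end T63
end

section

set_option autoImplicit false

open Module

namespace TT63

variable {R : Type} [CommRing R] {E : Type} [AddCommGroup E] [Module R E]

/-- in an artinian ring every maximal ideal has a nonzero annihilator -/
lemma exists_ann {S : Type} [CommRing S] [IsArtinianRing S] (m : Ideal S) [hm : m.IsMaximal] :
    ∃ s : S, s ≠ 0 ∧ ∀ a ∈ m, a * s = 0 := by
  have hp : m.IsPrime := hm.isPrime
  have hle : Module.annihilator S S ≤ m := by
    intro a ha
    rw [Module.mem_annihilator] at ha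
    have := ha 1
    rw [smul_eq_mul, mul_one] at this
    rw [this]
    exact m.zero_mem
  have h1 : m ∈ (Module.annihilator S S).minimalPrimes := IsArtinianRing.mem_minimalPrimes hle
  have h2 := Module.associatedPrimes.minimalPrimes_annihilator_subset_associatedPrimes S S h1
  obtain ⟨_, s, hs⟩ := isAssociatedPrime_iff.mp h2
  refine ⟨s, ?_, ?_⟩
  · rintro rfl
    apply hm.ne_top
    rw [hs, Ideal.eq_top_iff_one, Submodule.mem_colon_singleton]
    simp
  · intro a ha
    rw [hs, Submodule.mem_colon_singleton] at ha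
    simpa using ha

/-- every maximal ideal has a nonzero element in `R / J` killed by it -/
lemma exists_simple_elt [IsArtinianRing R] (h : IsDual R E) (m : Ideal R) [hm : m.IsMaximal] :
    ∃ e : E, e ≠ 0 ∧ ∀ a ∈ m, a • e = 0 := by
  obtain ⟨f, hf, _⟩ := h.hull
  have hJ : (⊥ : Ideal R).jacobson ≤ m := by
    rw [Ideal.jacobson]
    exact sInf_le ⟨bot_le, hm⟩
  have hm' : (m.map (Ideal.Quotient.mk (⊥ : Ideal R).jacobson)).IsMaximal := by
    rcases Ideal.map_eq_top_or_isMaximal_of_surjective (Ideal.Quotient.mk (⊥ : Ideal R).jacobson)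
      Ideal.Quotient.mk_surjective hm with h1 | h1
    · exfalso
      have h2 := congrArg (Ideal.comap (Ideal.Quotient.mk (⊥ : Ideal R).jacobson)) h1
      rw [Ideal.comap_map_of_surjective _ Ideal.Quotient.mk_surjective, Ideal.comap_top] at h2
      apply hm.ne_top
      rw [eq_top_iff, ← h2]
      refine sup_le le_rfl ?_
      intro a ha
      apply hJ
      rw [Ideal.mem_comap, Ideal.mem_bot, Ideal.Quotient.eq_zero_iff_mem] at ha
      exact ha
    · exact h1
  obtain ⟨s, hs, hs'⟩ := exists_ann (m.map (Ideal.Quotient.mk (⊥ : Ideal R).jacobson))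
  refine ⟨f s, fun h0 => hs (hf (by rw [h0, map_zero])), fun a ha => ?_⟩
  rw [← map_smul]
  have : a • s = 0 := hs' _ (Ideal.mem_map_of_mem _ ha)
  rw [this, map_zero]

/-- `E` is faithful -/
lemma faithful [IsArtinianRing R] (h : IsDual R E) (a : R) (ha : ∀ e : E, a • e = 0) : a = 0 := by
  by_contra ha0
  -- the annihilator of `a` is contained in a maximal ideal `m`
  have h1 : LinearMap.ker (LinearMap.toSpanSingleton R R a) ≠ ⊤ := by
    intro h2
    have : (1 : R) ∈ LinearMap.ker (LinearMap.toSpanSingleton R R a) := by rw [h2]; trivial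
    rw [LinearMap.mem_ker, LinearMap.toSpanSingleton_apply, one_smul] at this
    exact ha0 this
  obtain ⟨m, hm, hle⟩ := Ideal.exists_le_maximal _ h1
  obtain ⟨e, he, hme⟩ := exists_simple_elt h m
  -- the map `R a → E`, `r a ↦ r e`
  let q : R →ₗ[R] LinearMap.range (LinearMap.toSpanSingleton R R a) :=
    (LinearMap.toSpanSingleton R R a).rangeRestrict
  let E' := (LinearMap.toSpanSingleton R R a).quotKerEquivRange
  let u : (R ⧸ LinearMap.ker (LinearMap.toSpanSingleton R R a)) →ₗ[R] E :=
    (LinearMap.ker (LinearMap.toSpanSingleton R R a)).liftQ (LinearMap.toSpanSingleton R E e)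
      (fun r hr => hme r (hle hr))
  have hI := h.inj
  obtain ⟨w, hw⟩ := hI.out (LinearMap.range (LinearMap.toSpanSingleton R R a)).subtype
    (Submodule.subtype_injective _) (u.comp E'.symm.toLinearMap)
  have h2 : w a = e := by
    have h3 := hw (E' (Submodule.Quotient.mk 1))
    rw [LinearMap.comp_apply, LinearEquiv.coe_coe, LinearEquiv.symm_apply_apply] at h3
    have h4 : (LinearMap.range (LinearMap.toSpanSingleton R R a)).subtype
        (E' (Submodule.Quotient.mk 1)) = a := by
      show (LinearMap.toSpanSingleton R R a) 1 = a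
      rw [LinearMap.toSpanSingleton_apply, one_smul]
    rw [h4] at h3
    rw [h3]
    show (1 : R) • e = e
    rw [one_smul]
  apply he
  rw [← h2, show a = a • (1 : R) by rw [smul_eq_mul, mul_one], map_smul]
  exact ha _

lemma length_E [IsArtinianRing R] (h : IsDual R E) : Module.length R E ≤ Module.length R R := by
  have h1 : IsFiniteLength R R := isFiniteLength_iff_isNoetherian_isArtinian.mpr
    ⟨inferInstance, inferInstance⟩
  have h2 := length_hom h h1
  rwa [(LinearMap.ringLmapEquivSelf R R E).length_eq] at h2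

lemma finLen_E [IsArtinianRing R] (h : IsDual R E) : IsFiniteLength R E := by
  rw [← Module.length_ne_top_iff]
  intro h1
  have h2 := length_E h
  rw [h1, top_le_iff] at h2
  exact Module.length_ne_top h2

/-- every endomorphism of `E` is a multiplication -/
lemma end_E [IsArtinianRing R] (h : IsDual R E) (g : E →ₗ[R] E) : ∃ r : R, ∀ e, g e = r • e := by
  let f : R →ₗ[R] (E →ₗ[R] E) := LinearMap.lsmul R E
  have hf : Function.Injective f := by
    rw [← LinearMap.ker_eq_bot, LinearMap.ker_eq_bot']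
    intro a ha
    exact faithful h a fun e => congrArg (fun u => u e) ha
  have h1 : Module.length R (E →ₗ[R] E) ≤ Module.length R R :=
    (length_hom h (finLen_E h)).trans (length_E h)
  have h2 := Module.length_eq_add_of_exact f (LinearMap.range f).mkQ hf
    (Submodule.mkQ_surjective _) (LinearMap.exact_map_mkQ_range f)
  have h3 : Module.length R ((E →ₗ[R] E) ⧸ LinearMap.range f) = 0 := by
    rw [h2] at h1
    have h4 : Module.length R R ≠ ⊤ := Module.length_ne_top
    have h5 : Module.length R R + Module.length R ((E →ₗ[R] E) ⧸ LinearMap.range f)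
      ≤ Module.length R R + 0 := by rwa [add_zero]
    have h6 := (ENat.add_le_add_iff_left h4).mp h5
    exact le_antisymm h6 zero_le
  rw [Module.length_eq_zero_iff] at h3
  have h4 : LinearMap.range f = ⊤ := Submodule.Quotient.subsingleton_iff.mp h3
  obtain ⟨r, hr⟩ := LinearMap.range_eq_top.mp h4 g
  exact ⟨r, fun e => by rw [← hr]; rfl⟩

end TT63
end

section

set_option autoImplicit false

open Module CategoryTheory

namespace TT63

variable {R : Type} [CommRing R] {E : Type} [AddCommGroup E] [Module R E]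

/-- the presentation `R^2 → E` -/
def pr (x y : E) : (Fin 2 → R) →ₗ[R] E where
  toFun v := v 0 • x + v 1 • y
  map_add' v w := by simp only [Pi.add_apply, add_smul]; abel
  map_smul' r v := by simp only [Pi.smul_apply, smul_eq_mul, mul_smul, smul_add, RingHom.id_apply]

lemma pr_apply (x y : E) (v : Fin 2 → R) : pr x y v = v 0 • x + v 1 • y := rfl

lemma pr_surj (x y : E) (hgen : ∀ e : E, ∃ a b : R, e = a • x + b • y) :
    Function.Surjective (pr (R := R) x y) := by
  intro e
  obtain ⟨a, b, h⟩ := hgen e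
  exact ⟨![a, b], by rw [pr_apply, h]; rfl⟩

/-- the map `R → E^2` -/
def fE (x y : E) : R →ₗ[R] (Fin 2 → E) where
  toFun r := ![r • x, r • y]
  map_add' r s := by ext i; fin_cases i <;> simp [add_smul]
  map_smul' r s := by ext i; fin_cases i <;> simp [mul_smul]

/-- the map `E^2 → Hom(Z, E)` -/
def gE (Z : Submodule R (Fin 2 → R)) : (Fin 2 → E) →ₗ[R] (Z →ₗ[R] E) where
  toFun c :=
    { toFun := fun z => z.1 0 • c 0 + z.1 1 • c 1
      map_add' := fun z w => by
        simp only [Submodule.coe_add, Pi.add_apply, add_smul]; abel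
      map_smul' := fun r z => by
        simp only [Submodule.coe_smul, Pi.smul_apply, smul_eq_mul, mul_smul, smul_add,
          RingHom.id_apply] }
  map_add' c d := by
    ext z
    simp only [LinearMap.coe_mk, AddHom.coe_mk, Pi.add_apply, smul_add, LinearMap.add_apply]
    abel
  map_smul' r c := by
    ext z
    simp only [LinearMap.coe_mk, AddHom.coe_mk, Pi.smul_apply, LinearMap.smul_apply, smul_add,
      RingHom.id_apply]
    rw [smul_comm, smul_comm (z.1 1)]

lemma gE_apply (Z : Submodule R (Fin 2 → R)) (c : Fin 2 → E) (z : Z) :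
    gE Z c z = z.1 0 • c 0 + z.1 1 • c 1 := rfl

lemma gE_surj (h : IsDual R E) (Z : Submodule R (Fin 2 → R)) :
    Function.Surjective (gE (E := E) Z) := by
  intro u
  obtain ⟨w, hw⟩ := h.inj.out Z.subtype (Submodule.subtype_injective Z) u
  refine ⟨![w ![1, 0], w ![0, 1]], ?_⟩
  ext z
  rw [gE_apply, ← hw z]
  show z.1 0 • w ![1, 0] + z.1 1 • w ![0, 1] = w z.1
  rw [← map_smul, ← map_smul, ← map_add]
  congr 1
  ext i
  fin_cases i <;> simp

lemma fE_inj [IsArtinianRing R] (h : IsDual R E) (x y : E)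
    (hgen : ∀ e : E, ∃ a b : R, e = a • x + b • y) : Function.Injective (fE (R := R) x y) := by
  rw [← LinearMap.ker_eq_bot, LinearMap.ker_eq_bot']
  intro r hr
  have h0 : r • x = 0 := congrFun hr 0
  have h1 : r • y = 0 := congrFun hr 1
  refine faithful h r fun e => ?_
  obtain ⟨a, b, rfl⟩ := hgen e
  rw [smul_add, smul_comm r a, smul_comm r b, h0, h1, smul_zero, smul_zero, add_zero]

lemma fg_exact [IsArtinianRing R] (h : IsDual R E) (x y : E)
    (hgen : ∀ e : E, ∃ a b : R, e = a • x + b • y) :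
    Function.Exact (fE (R := R) x y) (gE (E := E) (LinearMap.ker (pr (R := R) x y))) := by
  intro c
  constructor
  · intro hc
    -- the map `E → E`, `x ↦ c 0`, `y ↦ c 1`
    have hk : ∀ v ∈ LinearMap.ker (pr (R := R) x y), v 0 • c 0 + v 1 • c 1 = 0 := by
      intro v hv
      exact congrArg (fun u => u ⟨v, hv⟩) hc
    let w : ((Fin 2 → R) ⧸ LinearMap.ker (pr (R := R) x y)) →ₗ[R] E :=
      (LinearMap.ker (pr (R := R) x y)).liftQ (pr (c 0) (c 1)) (fun v hv => hk v hv)
    let q := (pr (R := R) x y).quotKerEquivOfSurjective (pr_surj x y hgen)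
    obtain ⟨r, hr⟩ := end_E h (w.comp q.symm.toLinearMap)
    have hw : ∀ v : Fin 2 → R, w.comp q.symm.toLinearMap (pr x y v) = v 0 • c 0 + v 1 • c 1 := by
      intro v
      have h1 : q (Submodule.Quotient.mk v) = pr x y v := rfl
      rw [← h1, LinearMap.comp_apply, LinearEquiv.coe_coe, LinearEquiv.symm_apply_apply]
      rfl
    refine ⟨r, ?_⟩
    have hx := hw ![1, 0]
    have hy := hw ![0, 1]
    rw [hr, pr_apply] at hx hy
    simp only [Matrix.cons_val_zero, Matrix.cons_val_one, one_smul, zero_smul,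
      add_zero, zero_add] at hx hy
    ext i
    fin_cases i
    · exact hx
    · exact hy
  · rintro ⟨r, rfl⟩
    ext z
    show z.1 0 • (r • x) + z.1 1 • (r • y) = 0
    rw [smul_comm, smul_comm (z.1 1), ← smul_add]
    have : z.1 0 • x + z.1 1 • y = 0 := z.2
    rw [this, smul_zero]

variable [HasExt.{0} (ModuleCat.{0} R)]

/-- every bilinear form on `Z` extends to `R^2` -/
lemma bilin [IsArtinianRing R] (h : IsDual R E) (x y : E)
    (hgen : ∀ e : E, ∃ a b : R, e = a • x + b • y) (hExt : T63.EV R E R 2)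
    (b : LinearMap.ker (pr (R := R) x y) →ₗ[R] (LinearMap.ker (pr (R := R) x y) →ₗ[R] E)) :
    ∃ c : Fin 2 → Fin 2 → E, ∀ z z' : LinearMap.ker (pr (R := R) x y),
      b z z' = z.1 0 • (z'.1 0 • c 0 0 + z'.1 1 • c 0 1)
        + z.1 1 • (z'.1 0 • c 1 0 + z'.1 1 • c 1 1) := by
  have hI : Module.Injective R E := h.inj
  have hI2 : Module.Injective R (Fin 2 → E) := Module.Injective.pi R _
  have h1 : T63.EV R E (LinearMap.ker (pr (R := R) x y) →ₗ[R] E) 1 :=
    T63.EV_coker (fE x y) (gE (LinearMap.ker (pr (R := R) x y))) (fE_inj h x y hgen)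
      (gE_surj h _) (fg_exact h x y hgen) 0 hExt
  obtain ⟨b', hb'⟩ := T63.EV_extend (pr (R := R) x y) (pr_surj x y hgen) h1 b
  obtain ⟨c0, hc0⟩ := gE_surj h (LinearMap.ker (pr (R := R) x y)) (b' ![1, 0])
  obtain ⟨c1, hc1⟩ := gE_surj h (LinearMap.ker (pr (R := R) x y)) (b' ![0, 1])
  refine ⟨![c0, c1], fun z z' => ?_⟩
  rw [← hb' z]
  have h2 : (z.1 : Fin 2 → R) = z.1 0 • ![1, 0] + z.1 1 • ![0, 1] := by
    ext i
    fin_cases i <;> simp
  conv_lhs => rw [h2]
  rw [map_add, map_smul, map_smul, ← hc0, ← hc1]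
  rfl

/-- every bilinear form on `Z` is symmetric -/
lemma bilin_symm [IsArtinianRing R] (h : IsDual R E) (x y : E)
    (hgen : ∀ e : E, ∃ a b : R, e = a • x + b • y) (hExt : T63.EV R E R 2)
    (b : LinearMap.ker (pr (R := R) x y) →ₗ[R] (LinearMap.ker (pr (R := R) x y) →ₗ[R] E))
    (z z' : LinearMap.ker (pr (R := R) x y)) : b z z' = b z' z := by
  obtain ⟨c, hc⟩ := bilin h x y hgen hExt b
  have h0 : z.1 0 • x + z.1 1 • y = 0 := z.2
  have h1 : z'.1 0 • x + z'.1 1 • y = 0 := z'.2
  have hdet : z.1 0 * z'.1 1 = z.1 1 * z'.1 0 := by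
    rw [← sub_eq_zero]
    refine faithful h _ fun e => ?_
    have hx : (z.1 0 * z'.1 1 - z.1 1 * z'.1 0) • x = 0 := by
      have : (z.1 0 * z'.1 1 - z.1 1 * z'.1 0) • x = z'.1 1 • (z.1 0 • x + z.1 1 • y)
          - z.1 1 • (z'.1 0 • x + z'.1 1 • y) := by
        module
      rw [this, h0, h1, smul_zero, smul_zero, sub_zero]
    have hy : (z.1 0 * z'.1 1 - z.1 1 * z'.1 0) • y = 0 := by
      have : (z.1 0 * z'.1 1 - z.1 1 * z'.1 0) • y = z.1 0 • (z'.1 0 • x + z'.1 1 • y)
          - z'.1 0 • (z.1 0 • x + z.1 1 • y) := by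
        module
      rw [this, h0, h1, smul_zero, smul_zero, sub_zero]
    obtain ⟨a, b', rfl⟩ := hgen e
    rw [smul_add, smul_comm _ a, smul_comm _ b', hx, hy, smul_zero, smul_zero, add_zero]
  rw [hc, hc]
  have e1 : z.1 0 • (z'.1 0 • c 0 0 + z'.1 1 • c 0 1) + z.1 1 • (z'.1 0 • c 1 0 + z'.1 1 • c 1 1)
      = (z.1 0 * z'.1 0) • c 0 0 + (z.1 0 * z'.1 1) • c 0 1 + (z.1 1 * z'.1 0) • c 1 0
        + (z.1 1 * z'.1 1) • c 1 1 := by module
  have e2 : z'.1 0 • (z.1 0 • c 0 0 + z.1 1 • c 0 1) + z'.1 1 • (z.1 0 • c 1 0 + z.1 1 • c 1 1)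
      = (z.1 0 * z'.1 0) • c 0 0 + (z.1 1 * z'.1 0) • c 0 1 + (z.1 0 * z'.1 1) • c 1 0
        + (z.1 1 * z'.1 1) • c 1 1 := by module
  rw [e1, e2, hdet]

end TT63
end

section

set_option autoImplicit false

open Module CategoryTheory

namespace TT63

variable {R : Type} [CommRing R] {E : Type} [AddCommGroup E] [Module R E]

/-- a map with prescribed value -/
lemma exists_map (h : IsDual R E) {V : Type} [AddCommGroup V] [Module R V] (v : V) (e : E)
    (hv : ∀ r : R, r • v = 0 → r • e = 0) : ∃ q : V →ₗ[R] E, q v = e := by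
  let L := LinearMap.toSpanSingleton R V v
  let u : (R ⧸ LinearMap.ker L) →ₗ[R] E :=
    (LinearMap.ker L).liftQ (LinearMap.toSpanSingleton R E e) (fun r hr => hv r hr)
  obtain ⟨w, hw⟩ := h.inj.out (LinearMap.range L).subtype (Submodule.subtype_injective _)
    (u.comp L.quotKerEquivRange.symm.toLinearMap)
  refine ⟨w, ?_⟩
  have h3 := hw (L.quotKerEquivRange (Submodule.Quotient.mk 1))
  rw [LinearMap.comp_apply, LinearEquiv.coe_coe, LinearEquiv.symm_apply_apply] at h3
  have h4 : (LinearMap.range L).subtype (L.quotKerEquivRange (Submodule.Quotient.mk 1)) = v := by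
    show (LinearMap.toSpanSingleton R V v) 1 = v
    rw [LinearMap.toSpanSingleton_apply, one_smul]
  rw [h4] at h3
  rw [h3]
  show (1 : R) • e = e
  rw [one_smul]

/-- separation: a functional vanishing on `N` -/
lemma exists_sep (h : IsDual R E) {V : Type} [AddCommGroup V] [Module R V] (N : Submodule R V)
    (m : Ideal R) [hm : m.IsMaximal] (hN : ∀ a ∈ m, ∀ v : V, a • v ∈ N) (v : V) (hv : v ∉ N)
    (e : E) (he : ∀ a ∈ m, a • e = 0) : ∃ q : V →ₗ[R] E, (∀ n ∈ N, q n = 0) ∧ q v = e := by
  obtain ⟨q, hq⟩ := exists_map h (N.mkQ v) e (by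
    intro r hr
    apply he
    by_contra hrm
    obtain ⟨s, hs⟩ := (Ideal.isMaximal_iff.mp hm).2 (m ⊔ Ideal.span {r}) r le_sup_left hrm
      (Ideal.mem_sup_right (Ideal.mem_span_singleton_self r)) |> fun h1 =>
        (Submodule.mem_sup.mp h1)
    obtain ⟨hsm, t, ht, hst⟩ := hs
    obtain ⟨w, rfl⟩ := Ideal.mem_span_singleton'.mp ht
    apply hv
    have h2 : r • v ∈ N := by
      rw [← map_smul] at hr
      exact (Submodule.Quotient.mk_eq_zero N).mp hr
    have h3 : v = s • v + w • (r • v) := by
      rw [← mul_smul, ← add_smul, hst, one_smul]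
    rw [h3]
    exact N.add_mem (hN s hsm v) (N.smul_mem w h2))
  refine ⟨q.comp N.mkQ, fun n hn => ?_, hq⟩
  rw [LinearMap.comp_apply, show N.mkQ n = 0 from (Submodule.Quotient.mk_eq_zero N).mpr hn,
    map_zero]

/-- elements of `E` killed by `m` are multiples of each other -/
lemma soc_one (h : IsDual R E) (m : Ideal R) [hm : m.IsMaximal] (e e' : E) (he0 : e ≠ 0)
    (he : ∀ a ∈ m, a • e = 0) (he' : ∀ a ∈ m, a • e' = 0) : ∃ r : R, e' = r • e := by
  have hs : IsSimpleModule R (R ⧸ m) := isSimpleModule_iff_isCoatom.mpr hm.out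
  let g : (R ⧸ m) →ₗ[R] E := m.liftQ (LinearMap.toSpanSingleton R E e) he
  let g' : (R ⧸ m) →ₗ[R] E := m.liftQ (LinearMap.toSpanSingleton R E e') he'
  have h1 : g (Submodule.Quotient.mk 1) = e := one_smul R e
  have h2 : g' (Submodule.Quotient.mk 1) = e' := one_smul R e'
  obtain ⟨r, hr⟩ := simple_hom h g g' (by
    intro h0
    rw [h0] at h1
    exact he0 h1.symm)
  exact ⟨r, by rw [← h2, hr, LinearMap.smul_apply, h1]⟩

/-- if every bilinear form on `V` is symmetric then `V / m V` is at most one-dimensional -/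
lemma one_dim [IsArtinianRing R] (h : IsDual R E) {V : Type} [AddCommGroup V] [Module R V]
    (hb : ∀ b : V →ₗ[R] (V →ₗ[R] E), ∀ z z', b z z' = b z' z)
    (m : Ideal R) [hm : m.IsMaximal] (z₁ : V) (hz₁ : z₁ ∉ (m • (⊤ : Submodule R V)))
    (z : V) : z ∈ Submodule.span R {z₁} ⊔ m • (⊤ : Submodule R V) := by
  by_contra hz
  obtain ⟨e, he0, he⟩ := exists_simple_elt h m
  obtain ⟨p, hp0, hp1⟩ := exists_sep h (m • (⊤ : Submodule R V)) m
    (fun a ha v => Submodule.smul_mem_smul ha trivial) z₁ hz₁ e he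
  obtain ⟨q, hq0, hq1⟩ := exists_sep h (Submodule.span R {z₁} ⊔ m • (⊤ : Submodule R V)) m
    (fun a ha v => Submodule.mem_sup_right (Submodule.smul_mem_smul ha trivial)) z hz e he
  have hpm : ∀ a ∈ m, ∀ v, a • p v = 0 := by
    intro a ha v
    rw [← map_smul]
    exact hp0 _ (Submodule.smul_mem_smul ha trivial)
  have hqm : ∀ a ∈ m, ∀ v, a • q v = 0 := by
    intro a ha v
    rw [← map_smul]
    exact hq0 _ (Submodule.mem_sup_right (Submodule.smul_mem_smul ha trivial))
  have hr : ∀ v, ∃ r : R, p v = r • e := fun v =>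
    soc_one h m e (p v) he0 he (fun a ha => hpm a ha v)
  choose r hr using hr
  -- `a • e = b • e` implies `a • q v = b • q v`
  have key : ∀ (a b : R) (v : V), a • e = b • e → a • q v = b • q v := by
    intro a b v hab
    obtain ⟨s, hs⟩ := soc_one h m e (q v) he0 he (fun a ha => hqm a ha v)
    rw [hs, smul_comm a, smul_comm b, hab]
  let b : V →ₗ[R] (V →ₗ[R] E) := LinearMap.mk₂ R (fun v w => r v • q w)
    (fun v v' w => by
      rw [← add_smul]
      apply key
      rw [← hr, map_add, hr, hr, add_smul])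
    (fun c v w => by
      rw [← mul_smul]
      apply key
      rw [← hr, map_smul, hr, mul_smul])
    (fun v w w' => by rw [map_add, smul_add])
    (fun c v w => by rw [map_smul, smul_comm])
  have h1 := hb b z₁ z
  have h2 : b z₁ z = r z₁ • q z := rfl
  have h3 : b z z₁ = r z • q z₁ := rfl
  rw [h2, h3, hq1, ← hr, hp1,
    hq0 z₁ (Submodule.mem_sup_left (Submodule.mem_span_singleton_self z₁)), smul_zero] at h1
  exact he0 h1

end TT63
end

section

set_option autoImplicit false

open Module CategoryTheory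

namespace TT63

variable {R : Type} [CommRing R] {E : Type} [AddCommGroup E] [Module R E]

/-- a unit modulo `m` does not move elements into `m V` -/
lemma notMem_smul {V : Type} [AddCommGroup V] [Module R V] (m : Ideal R) [hm : m.IsMaximal]
    (u : R) (hu : u ∉ m) (v : V) (hv : v ∉ m • (⊤ : Submodule R V)) :
    u • v ∉ m • (⊤ : Submodule R V) := by
  intro h
  obtain ⟨s, hsm, t, ht, hst⟩ := Submodule.mem_sup.mp
    ((Ideal.isMaximal_iff.mp hm).2 (m ⊔ Ideal.span {u}) u le_sup_left hu
      (Ideal.mem_sup_right (Ideal.mem_span_singleton_self u)))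
  obtain ⟨w, rfl⟩ := Ideal.mem_span_singleton'.mp ht
  apply hv
  have h3 : v = s • v + w • (u • v) := by
    rw [← mul_smul, ← add_smul, hst, one_smul]
  rw [h3]
  exact Submodule.add_mem _ (Submodule.smul_mem_smul hsm trivial) (Submodule.smul_mem _ w h)

/-- for each maximal ideal there is an element outside it and inside all the other ones -/
lemma exists_idem [IsArtinianRing R] (m : MaximalSpectrum R) :
    ∃ u : R, u ∉ m.asIdeal ∧ ∀ m' : MaximalSpectrum R, m' ≠ m → u ∈ m'.asIdeal := by
  classical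
  have hfin : Finite (MaximalSpectrum R) := inferInstance
  have : Fintype (MaximalSpectrum R) := Fintype.ofFinite _
  have h1 : ∀ m' : MaximalSpectrum R, ∃ a : R, (m' ≠ m → a ∈ m'.asIdeal) ∧ a ∉ m.asIdeal := by
    intro m'
    by_cases h : m' = m
    · refine ⟨1, fun h' => absurd h h', ?_⟩
      exact (Ideal.ne_top_iff_one _).mp m.isMaximal.ne_top
    · have h2 : ¬ m'.asIdeal ≤ m.asIdeal := by
        intro hle
        apply h
        ext1
        exact m'.isMaximal.eq_of_le m.isMaximal.ne_top hle
      obtain ⟨a, ha, ha'⟩ := SetLike.not_le_iff_exists.mp h2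
      exact ⟨a, fun _ => ha, ha'⟩
  choose a ha ha' using h1
  refine ⟨∏ m', a m', ?_, ?_⟩
  · intro h
    have hp : m.asIdeal.IsPrime := m.isMaximal.isPrime
    obtain ⟨m', _, hm'⟩ := (Ideal.IsPrime.prod_mem_iff (p := m.asIdeal)).mp h
    exact ha' m' hm'
  · intro m' hm'
    exact Ideal.mem_of_dvd _ (Finset.dvd_prod_of_mem a (Finset.mem_univ m')) (ha m' hm')

/-- a finitely generated module over an artinian ring, at most one-dimensional modulo each
maximal ideal, is cyclic -/
lemma cyclic_of_local [IsArtinianRing R] {V : Type} [AddCommGroup V] [Module R V]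
    [Module.Finite R V]
    (h : ∀ m : Ideal R, m.IsMaximal → ∀ z₁ : V, z₁ ∉ (m • (⊤ : Submodule R V)) →
      ∀ z : V, z ∈ Submodule.span R {z₁} ⊔ m • (⊤ : Submodule R V)) :
    ∃ z₀ : V, ∀ z : V, ∃ r : R, z = r • z₀ := by
  classical
  have hfin : Finite (MaximalSpectrum R) := inferInstance
  have : Fintype (MaximalSpectrum R) := Fintype.ofFinite _
  let S : V → Finset (MaximalSpectrum R) := fun z =>
    Finset.univ.filter fun m => z ∉ m.asIdeal • (⊤ : Submodule R V)
  obtain ⟨z₀, hz₀⟩ : ∃ z₀, ∀ z, (S z).card ≤ (S z₀).card := by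
    have hbdd : BddAbove (Set.range fun z => (S z).card) :=
      ⟨Fintype.card (MaximalSpectrum R), by
        rintro _ ⟨z, rfl⟩
        exact Finset.card_le_univ _⟩
    obtain ⟨z₀, hz₀⟩ := Nat.sSup_mem (Set.range_nonempty _) hbdd
    refine ⟨z₀, fun z => ?_⟩
    have h1 : (S z₀).card = sSup (Set.range fun z => (S z).card) := hz₀
    rw [h1]
    exact le_csSup hbdd ⟨z, rfl⟩
  -- `z₀` is outside `m V` whenever possible
  have key : ∀ m : MaximalSpectrum R, ∀ z' : V, z' ∉ m.asIdeal • (⊤ : Submodule R V) →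
      z₀ ∉ m.asIdeal • (⊤ : Submodule R V) := by
    intro m z' hz' hcon
    have hm := m.isMaximal
    obtain ⟨u, hu, hu'⟩ := exists_idem m
    have h1 : u • z' ∉ m.asIdeal • (⊤ : Submodule R V) := notMem_smul m.asIdeal u hu z' hz'
    have h2 : S z₀ ⊂ S (z₀ + u • z') := by
      rw [Finset.ssubset_iff_of_subset]
      · refine ⟨m, ?_, ?_⟩
        · simp only [S, Finset.mem_filter, Finset.mem_univ, true_and]
          intro h3
          apply h1
          have := Submodule.sub_mem _ h3 hcon
          rwa [add_sub_cancel_left] at this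
        · simp only [S, Finset.mem_filter, Finset.mem_univ, true_and, not_not]
          exact hcon
      · intro m' hm'
        simp only [S, Finset.mem_filter, Finset.mem_univ, true_and] at hm' ⊢
        intro h3
        apply hm'
        have hne : m' ≠ m := by
          rintro rfl
          exact hm' hcon
        have h4 : u • z' ∈ m'.asIdeal • (⊤ : Submodule R V) :=
          Submodule.smul_mem_smul (hu' m' hne) trivial
        have := Submodule.sub_mem _ h3 h4
        rwa [add_sub_cancel_right] at this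
    have h3 := Finset.card_lt_card h2
    have h4 := hz₀ (z₀ + u • z')
    omega
  refine ⟨z₀, ?_⟩
  -- otherwise there is a maximal submodule containing `R z₀`
  have htop : Submodule.span R {z₀} = ⊤ := by
    by_contra hne
    obtain ⟨N, hN, hle⟩ := (eq_top_or_exists_le_coatom (Submodule.span R {z₀})).resolve_left hne
    have hs : IsSimpleModule R (V ⧸ N) := isSimpleModule_iff_isCoatom.mpr hN
    have hmax : (Module.annihilator R (V ⧸ N)).IsMaximal := IsSimpleModule.annihilator_isMaximal
    have hsub : (Module.annihilator R (V ⧸ N)) • (⊤ : Submodule R V) ≤ N := by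
      rw [Submodule.smul_le]
      intro a ha v _
      rw [Module.mem_annihilator] at ha
      have := ha (N.mkQ v)
      rw [← map_smul] at this
      exact (Submodule.Quotient.mk_eq_zero N).mp this
    obtain ⟨z', hz'⟩ : ∃ z', z' ∉ N := by
      by_contra hcon
      push Not at hcon
      exact hN.1 (eq_top_iff.mpr fun z _ => hcon z)
    have h1 := key ⟨_, hmax⟩ z' (fun h2 => hz' (hsub h2))
    have h2 := h _ hmax z₀ h1 z'
    exact hz' ((sup_le hle hsub) h2)
  intro z
  have : z ∈ Submodule.span R {z₀} := by rw [htop]; trivial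
  obtain ⟨r, hr⟩ := Submodule.mem_span_singleton.mp this
  exact ⟨r, hr.symm⟩

end TT63
end

section

set_option autoImplicit false

open Module CategoryTheory

namespace TT63

variable {R : Type} [CommRing R] {E : Type} [AddCommGroup E] [Module R E]

/-- the kernel of `R^2 → E` has length at least the length of `R` -/
lemma length_ker [IsArtinianRing R] (h : IsDual R E) (x y : E)
    (hgen : ∀ e : E, ∃ a b : R, e = a • x + b • y) :
    Module.length R R ≤ Module.length R (LinearMap.ker (pr (R := R) x y)) := by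
  have h1 := Module.length_eq_add_of_exact (LinearMap.ker (pr (R := R) x y)).subtype
    (pr (R := R) x y) (Submodule.subtype_injective _) (pr_surj x y hgen)
    (LinearMap.exact_subtype_ker_map _)
  have h2 : Module.length R (Fin 2 → R) = Module.length R R + Module.length R R := by
    rw [Module.length_pi_of_fintype, Fin.sum_univ_two]
  have h3 := length_E h
  rw [h2] at h1
  have h4 : Module.length R R ≠ ⊤ := Module.length_ne_top
  have h5 : Module.length R R + Module.length R R
      ≤ Module.length R (LinearMap.ker (pr (R := R) x y)) + Module.length R R := by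
    rw [h1]
    gcongr
  exact (ENat.add_le_add_iff_right h4).mp h5

theorem main [IsArtinianRing R] [HasExt.{0} (ModuleCat.{0} R)] (h : IsDual R E) (x y : E)
    (hgen : ∀ e : E, ∃ a b : R, e = a • x + b • y) (hExt : T63.EV R E R 2) :
    Module.Injective R R := by
  obtain ⟨z, hz⟩ := cyclic_of_local (V := LinearMap.ker (pr (R := R) x y))
    (fun m hm z₁ hz₁ z => one_dim h (bilin_symm h x y hgen hExt) m z₁ hz₁ z)
  -- `r ↦ r z` is injective
  have hsur : Function.Surjective (LinearMap.toSpanSingleton R (LinearMap.ker (pr (R := R) x y)) z) := by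
    intro w
    obtain ⟨r, hr⟩ := hz w
    exact ⟨r, hr.symm⟩
  have hinj : ∀ r : R, r • z = 0 → r = 0 := by
    have h1 := Module.length_eq_add_of_exact
      (LinearMap.ker (LinearMap.toSpanSingleton R (LinearMap.ker (pr (R := R) x y)) z)).subtype
      (LinearMap.toSpanSingleton R (LinearMap.ker (pr (R := R) x y)) z)
      (Submodule.subtype_injective _) hsur (LinearMap.exact_subtype_ker_map _)
    have h2 := length_ker h x y hgen
    have h4 : Module.length R (LinearMap.ker (pr (R := R) x y)) ≠ ⊤ := Module.length_ne_top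
    have h5 : Module.length R
        (LinearMap.ker (LinearMap.toSpanSingleton R (LinearMap.ker (pr (R := R) x y)) z))
        + Module.length R (LinearMap.ker (pr (R := R) x y))
        ≤ 0 + Module.length R (LinearMap.ker (pr (R := R) x y)) := by
      rw [← h1, zero_add]
      exact h2
    have h6 := (ENat.add_le_add_iff_right h4).mp h5
    have h7 : Module.length R
        (LinearMap.ker (LinearMap.toSpanSingleton R (LinearMap.ker (pr (R := R) x y)) z)) = 0 :=
      le_antisymm h6 zero_le
    rw [Module.length_eq_zero_iff] at h7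
    intro r hr
    have : (⟨r, hr⟩ : LinearMap.ker
        (LinearMap.toSpanSingleton R (LinearMap.ker (pr (R := R) x y)) z)) = 0 :=
      Subsingleton.elim _ _
    exact congrArg Subtype.val this
  -- `z` is unimodular
  have huni : Ideal.span {z.1 0, z.1 1} = ⊤ := by
    by_contra hne
    obtain ⟨m, hm, hle⟩ := Ideal.exists_le_maximal _ hne
    obtain ⟨s, hs, hs'⟩ := exists_ann m
    apply hs
    apply hinj
    ext i
    have h0 : z.1 0 ∈ m := hle (Ideal.subset_span (by simp))
    have h1 : z.1 1 ∈ m := hle (Ideal.subset_span (by simp))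
    fin_cases i
    · show s * z.1 0 = 0
      rw [mul_comm]; exact hs' _ h0
    · show s * z.1 1 = 0
      rw [mul_comm]; exact hs' _ h1
  obtain ⟨α, β, hαβ⟩ := Ideal.mem_span_pair.mp ((Ideal.eq_top_iff_one _).mp huni)
  -- the determinant map
  let θ : (Fin 2 → R) →ₗ[R] R :=
    { toFun := fun v => z.1 0 * v 1 - z.1 1 * v 0
      map_add' := fun v w => by simp only [Pi.add_apply]; ring
      map_smul' := fun r v => by simp only [Pi.smul_apply, smul_eq_mul, RingHom.id_apply]; ring }
  have hθ : ∀ v, θ v = z.1 0 * v 1 - z.1 1 * v 0 := fun v => rfl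
  have hθsur : Function.Surjective θ := by
    intro r
    refine ⟨r • ![-β, α], ?_⟩
    rw [hθ]
    simp only [Pi.smul_apply, smul_eq_mul, Matrix.cons_val_zero, Matrix.cons_val_one]
    linear_combination r * hαβ
  have hker : LinearMap.ker θ = LinearMap.ker (pr (R := R) x y) := by
    ext v
    constructor
    · intro hv
      have hv' : z.1 0 * v 1 = z.1 1 * v 0 := sub_eq_zero.mp hv
      have : v = (α * v 0 + β * v 1) • z.1 := by
        ext i
        fin_cases i
        · show v 0 = (α * v 0 + β * v 1) * z.1 0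
          linear_combination (-v 0) * hαβ - β * hv'
        · show v 1 = (α * v 0 + β * v 1) * z.1 1
          linear_combination (-v 1) * hαβ + α * hv'
      rw [this]
      exact Submodule.smul_mem _ _ z.2
    · intro hv
      obtain ⟨r, hr⟩ := hz ⟨v, hv⟩
      have hv' : v = r • z.1 := congrArg Subtype.val hr
      show z.1 0 * v 1 - z.1 1 * v 0 = 0
      rw [hv']
      simp only [Pi.smul_apply, smul_eq_mul]
      ring
  let e1 : ((Fin 2 → R) ⧸ LinearMap.ker θ) ≃ₗ[R] R := θ.quotKerEquivOfSurjective hθsur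
  let e2 : ((Fin 2 → R) ⧸ LinearMap.ker (pr (R := R) x y)) ≃ₗ[R] E :=
    (pr (R := R) x y).quotKerEquivOfSurjective (pr_surj x y hgen)
  let e : R ≃ₗ[R] E := e1.symm.trans ((Submodule.quotEquivOfEq _ _ hker).trans e2)
  refine ⟨fun A B _ _ _ _ f hf g => ?_⟩
  obtain ⟨w, hw⟩ := h.inj.out f hf (e.toLinearMap.comp g)
  refine ⟨e.symm.toLinearMap.comp w, fun a => ?_⟩
  show e.symm (w (f a)) = g a
  rw [hw]
  exact e.symm_apply_apply (g a)

end TT63
end
end
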